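import Pool.Agent.Helper3K9.EW.Stm

/-! # EW: assembly -/

set_option autoImplicit false

namespace Pool.Agent.Helper3K9.EW

open NumberField Filter Topology IsDedekindDomain Matrix Polynomial
open Pool.Agent.W569.FM Pool.Agent.W401.Cheb Pool.Agent.R401.Img Pool.Agent.R401.Sup3

/-- the vectors which are fixed by the inertia group at `Q` -/
def inv {K : Type} [Field K] {F : Type} [Field F] {n : ℕ} (ρ : GK K →* GL (Fin n) F)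
    (Q : Ideal (OO K)) : Submodule F (Fin n → F) where
  carrier := {x | ∀ g, InInertia Q g → mt ρ g *ᵥ x = x}
  add_mem' := by
    intro x y hx hy g hg
    rw [Matrix.mulVec_add, hx g hg, hy g hg]
  zero_mem' := by
    intro g _
    rw [Matrix.mulVec_zero]
  smul_mem' := by
    intro c x hx g hg
    rw [Matrix.mulVec_smul, hx g hg]

/-- `f` is the polynomial `det (1 - g T)` of `g` on the invariants of the inertia group at `Q` -/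
def IsLF {K : Type} [Field K] {F : Type} [Field F] {n : ℕ} (ρ : GK K →* GL (Fin n) F)
    (Q : Ideal (OO K)) (g : GK K) (f : F[X]) : Prop :=
  ∃ (m : ℕ) (b : Module.Basis (Fin m) F (inv ρ Q)) (A : Matrix (Fin m) (Fin m) F),
    (∀ j, mt ρ g *ᵥ (b j : Fin n → F) = ∑ i, A i j • (b i : Fin n → F)) ∧
    f = (1 - (X : F[X]) • A.map C).det

theorem local_ {K : Type} [Field K] [NumberField K] (h : S_FIN) {n : ℕ}
    (V : ∀ (ℓ : ℕ) [Fact ℓ.Prime], GK K →* GL (Fin n) ℚ_[ℓ])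
    (hV : ∀ (ℓ : ℕ) [Fact ℓ.Prime], Continuous (V ℓ)) (w : ℤ) (v : HeightOneSpectrum (𝓞 K))
    (Q : Ideal (OO K)) (hQ : Q.IsMaximal)
    (hQv : Q.comap (algebraMap (𝓞 K) (𝓞 (AlgebraicClosure K))) = v.asIdeal)
    (h1 : WM1 V w Q (Ideal.absNorm v.asIdeal)) (h2 : WM2 V w Q (Ideal.absNorm v.asIdeal))
    (g : GK K) (hg : FrobAt (Ideal.absNorm v.asIdeal) Q g⁻¹) :
    ∃ P : ℚ[X], ∀ (ℓ : ℕ) [Fact ℓ.Prime], (ℓ : 𝓞 K) ∉ v.asIdeal → ∀ f : ℚ_[ℓ][X],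
      IsLF (V ℓ) Q g f ↔ f = P.map (algebraMap ℚ ℚ_[ℓ]) := by
  have hq : 2 ≤ Ideal.absNorm v.asIdeal := by
    have h0 : Ideal.absNorm v.asIdeal ≠ 0 := fun h0 => v.ne_bot (Ideal.absNorm_eq_zero_iff.1 h0)
    have h1 : Ideal.absNorm v.asIdeal ≠ 1 := fun h1 =>
      v.isPrime.ne_top (Ideal.absNorm_eq_one_iff.1 h1)
    omega
  have hI : ∀ (ℓ : ℕ) [Fact ℓ.Prime] (x : Fin n → ℚ_[ℓ]), x ∈ inv (V ℓ) Q ↔
      ∀ τ, InInertia Q τ → mt (V ℓ) τ *ᵥ x = x :=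
    fun ℓ _ x => Iff.rfl
  have hQℓ : ∀ ℓ : ℕ, (ℓ : 𝓞 (AlgebraicClosure K)) ∈ Q ↔ (ℓ : 𝓞 K) ∈ v.asIdeal := by
    intro ℓ
    rw [← hQv, Ideal.mem_comap, map_natCast]
  have hcast : ∀ (L : Type) [Field L] [CharZero L] (f : ℚ →+* L), Rat.castHom L = f :=
    fun L _ _ f => Subsingleton.elim _ _
  obtain ⟨P, hP⟩ := h K n V hV w Q hQ _ g⁻¹ hq hg h1 h2 (fun ℓ _ => inv (V ℓ) Q) hI
  rw [inv_inv] at hP
  refine ⟨P, ?_⟩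
  intro ℓ _ hℓ f
  have hℓQ : (ℓ : 𝓞 (AlgebraicClosure K)) ∉ Q := fun h' => hℓ ((hQℓ ℓ).1 h')
  constructor
  · rintro ⟨m, b, A, hA, rfl⟩
    rw [← hcast ℚ_[ℓ] (algebraMap ℚ ℚ_[ℓ])]
    exact hP ℓ hℓQ m b A hA
  · rintro rfl
    obtain ⟨m, b, A, hA⟩ := Pool.Agent.R401.Tr6.exists_basis (V ℓ) hq hg (hI ℓ)
    rw [inv_inv] at hA
    refine ⟨m, b, A, hA, ?_⟩
    rw [← hcast ℚ_[ℓ] (algebraMap ℚ ℚ_[ℓ])]
    exact (hP ℓ hℓQ m b A hA).symm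

theorem close_ {K : Type} [Field K] [NumberField K] {n m : ℕ}
    (V : ∀ (ℓ : ℕ) [Fact ℓ.Prime], GK K →* GL (Fin n) ℚ_[ℓ])
    (hV : ∀ (ℓ : ℕ) [Fact ℓ.Prime], Continuous (V ℓ))
    (W : ∀ (ℓ : ℕ) [Fact ℓ.Prime], GK K →* GL (Fin m) ℚ_[ℓ])
    (hW : ∀ (ℓ : ℕ) [Fact ℓ.Prime], Continuous (W ℓ)) (w : ℤ)
    (B : Set (HeightOneSpectrum (𝓞 K))) (hB : B.Finite) (a : HeightOneSpectrum (𝓞 K) → ℚ)
    (htr : ∀ (ℓ : ℕ) [Fact ℓ.Prime], ∀ v, v ∉ B → (ℓ : 𝓞 K) ∉ v.asIdeal → ∀ g, IsFrob v g →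
      (mt (V ℓ) g⁻¹).trace - (mt (W ℓ) g⁻¹).trace = (a v : ℚ_[ℓ]))
    (C : ℝ) (hC : ∀ v, v ∉ B → (a v : ℝ) ^ 2 ≤ C * (Ideal.absNorm v.asIdeal : ℝ) ^ w)
    (d : ℕ) (hd : 0 < d) (θ : ℝ) (hθ : θ * ((n : ℝ) ^ 2 + (m : ℝ) ^ 2) < 1)
    (hdiv : ∃ᶠ x : ℕ in atTop, ({v : HeightOneSpectrum (𝓞 K) | Ideal.absNorm v.asIdeal ≤ x ∧
      ¬ ∃ c : ℤ, (d : ℚ) * a v ^ 2 = (Ideal.absNorm v.asIdeal : ℚ) ^ w * c}.ncard : ℝ) ≤
        θ * Nat.primeCounting x) : Close V W w := by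
  obtain ⟨u, φ, U, hw, hUn, hUo, hU, hφ⟩ := Pool.Agent.R401.Tr7.family V hV W hW B hB a w htr C hC θ
    hθ hd (by
      refine (hdiv.and_eventually (Nat.tendsto_primeCounting.eventually_gt_atTop 0)).mono ?_
      rintro N ⟨h1, h3⟩
      have h4 : (0 : ℝ) < (Nat.primeCounting N : ℝ) := by exact_mod_cast h3
      unfold Pool.Agent.W401.Cheb.dens
      rw [div_le_iff₀ h4]
      exact h1)
  exact ⟨u, φ, U, hw, hUn, hUo, hU, hφ⟩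

end Pool.Agent.Helper3K9.EW
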