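import Pool.Agent.Helper3K9.EW.Lin

set_option autoImplicit false

namespace Pool.Agent.Helper3K9.EW
open Polynomial Module Matrix

namespace BijL

variable {V : Type} [AddCommGroup V] [Module ℂ V] [FiniteDimensional ℂ V]

/-- the part of weight `j`: the sum of the generalized eigenspaces for the `z` with `‖z‖ ^ 2 = Q ^ j` -/
noncomputable def Wt (a : End ℂ V) (Q : ℕ) (j : ℤ) : Submodule ℂ V :=
  ⨆ (z : ℂ) (_ : ‖z‖ ^ 2 = (Q : ℝ) ^ j), a.maxGenEigenspace z

theorem Wt_stable (a : End ℂ V) (Q : ℕ) (j : ℤ) (x : V) (hx : x ∈ Wt a Q j) : a x ∈ Wt a Q j := by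
  unfold Wt at hx ⊢
  have h : (⨆ (z : ℂ) (_ : ‖z‖ ^ 2 = (Q : ℝ) ^ j), a.maxGenEigenspace z) ≤
      Submodule.comap a (⨆ (z : ℂ) (_ : ‖z‖ ^ 2 = (Q : ℝ) ^ j), a.maxGenEigenspace z) := by
    refine iSup₂_le fun z hz => ?_
    intro y hy
    rw [Submodule.mem_comap]
    refine Submodule.mem_iSup_of_mem z (Submodule.mem_iSup_of_mem hz ?_)
    exact Module.End.mapsTo_maxGenEigenspace_of_comm (Commute.refl a) z hy
  exact h hx

/-- an eigenvector in the part of weight `j` has weight `j` -/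
theorem Wt_eig (a : End ℂ V) (Q : ℕ) (j : ℤ) (x : V) (hx : x ∈ Wt a Q j) (hx0 : x ≠ 0) (z : ℂ)
    (hz : a x = z • x) : ‖z‖ ^ 2 = (Q : ℝ) ^ j := by
  by_contra hne
  have h1 : x ∈ a.maxGenEigenspace z := by
    rw [Module.End.mem_maxGenEigenspace]
    exact ⟨1, by rw [pow_one, LinearMap.sub_apply, LinearMap.smul_apply, Module.End.one_apply, hz, sub_self]⟩
  have h2 : x ∈ ⨆ (y : ℂ) (_ : y ≠ z), a.maxGenEigenspace y := by
    refine (iSup₂_le fun y hy => ?_ : Wt a Q j ≤ _) hx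
    exact le_iSup₂_of_le y (fun h => hne (h ▸ hy)) le_rfl
  have h3 := (Module.End.independent_maxGenEigenspace a) z
  exact hx0 ((Submodule.disjoint_def.mp h3) x h1 h2)

end BijL

open BijL in
/-- the weight-monodromy isomorphism: with the hypotheses of [LIN], `N ^ s` maps the part of weight `w + s`
bijectively onto the part of weight `w - s`. -/
theorem bij (n : ℕ) (A N : Matrix (Fin n) (Fin n) ℂ) (Q : ℕ) (w : ℤ) (h2 : 2 ≤ Q)
    (hN : IsNilpotent N) (hc : N * A = (Q : ℂ) • (A * N))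
    (hi : ∀ (z : ℂ) (x : Fin n → ℂ) (i : ℕ), x ≠ 0 → A *ᵥ x = z • x → (N ^ (i + 1)) *ᵥ x = 0 →
      ∃ j : ℤ, j ≤ w + i ∧ ‖z‖ ^ 2 = (Q : ℝ) ^ j)
    (hdet : ‖A.det‖ ^ 2 = (Q : ℝ) ^ (w * n)) (s : ℕ) :
    Set.BijOn (fun x => (N ^ s) *ᵥ x) (Wt (Matrix.toLin' A) Q (w + s) : Set (Fin n → ℂ))
      (Wt (Matrix.toLin' A) Q (w - s)) := by
  classical
  set a : End ℂ (Fin n → ℂ) := Matrix.toLin' A with ha
  set ν : End ℂ (Fin n → ℂ) := Matrix.toLin' N with hν
  have hpow : ∀ k x, (ν ^ k) x = (N ^ k) *ᵥ x := by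
    intro k x
    rw [hν, ← Matrix.toLin'_pow, Matrix.toLin'_apply]
  obtain ⟨hc', hi', hr, hd⟩ := LinL.prep n A N Q w h2 hN hc hi hdet
  have hQc : (Q : ℂ) ≠ 0 := LinL.Qc a ν Q w h2 hc' hi'
  have hQr := LinL.Qr Q h2
  have hmap : ∀ x ∈ Wt a Q (w + s), (ν ^ s) x ∈ Wt a Q (w - s) := by
    intro x hx
    have h : Wt a Q (w + s) ≤ Submodule.comap (ν ^ s) (Wt a Q (w - s)) := by
      refine iSup₂_le fun z hz => ?_
      intro y hy
      rw [Submodule.mem_comap]
      refine Submodule.mem_iSup_of_mem (z * (Q : ℂ) ^ (-(s : ℤ))) (Submodule.mem_iSup_of_mem ?_ ?_)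
      · rw [LinL.norm_zp Q h2 z _ _ hz]
        congr 1
        ring
      · refine LinL.map_gen a ν Q hQc hc' s z _ ?_ y hy
        rw [mul_assoc, ← zpow_natCast, ← zpow_add₀ hQc, neg_add_cancel, zpow_zero, mul_one]
    exact h hx
  refine ⟨fun x hx => by show (N ^ s) *ᵥ x ∈ Wt a Q (w - s); rw [← hpow]; exact hmap x hx, ?_, ?_⟩
  · -- injective
    rcases Nat.eq_zero_or_pos s with rfl | hs
    · intro x _ y _ hxy
      simpa using hxy
    have hker : ∀ x ∈ Wt a Q (w + s), (ν ^ s) x = 0 → x = 0 := by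
      intro x hx hx0
      by_contra hne
      set K : Submodule ℂ (Fin n → ℂ) := Wt a Q (w + s) ⊓ LinearMap.ker (ν ^ s) with hK
      have hKs : ∀ y ∈ K, a y ∈ K := by
        rintro y ⟨hy1, hy2⟩
        refine ⟨Wt_stable a Q _ y hy1, ?_⟩
        have hy3 : (ν ^ s) y = 0 := hy2
        show (ν ^ s) (a y) = 0
        have h := congrArg (fun f : End ℂ (Fin n → ℂ) => f y) (LinL.comm_pow a ν Q hc' s)
        simp only [Module.End.mul_apply, LinearMap.smul_apply, hy3, map_zero, smul_zero] at h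
        exact h
      have : Nontrivial K := ⟨⟨⟨x, hx, hx0⟩, 0, fun h => hne (congrArg Subtype.val h)⟩⟩
      obtain ⟨μ, hμ⟩ := Module.End.exists_eigenvalue (a.restrict hKs)
      obtain ⟨y, hy⟩ := hμ.exists_hasEigenvector
      have hy1 := Module.End.mem_eigenspace_iff.mp hy.1
      have hy2 : a (y : Fin n → ℂ) = μ • (y : Fin n → ℂ) := congrArg Subtype.val hy1
      have hy0 : (y : Fin n → ℂ) ≠ 0 := fun h => hy.2 (Subtype.ext h)
      have h3 := Wt_eig a Q _ _ y.2.1 hy0 μ hy2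
      obtain ⟨s', rfl⟩ : ∃ s', s = s' + 1 := ⟨s - 1, by omega⟩
      obtain ⟨j, hj, hj2⟩ := hi' μ y s' hy0 hy2 y.2.2
      have h4 := LinL.J_of Q h2 μ _ h3
      have h5 := LinL.J_of Q h2 μ _ hj2
      push_cast at h4
      omega
    intro x hx y hy hxy
    have h := hker (x - y) (Submodule.sub_mem _ hx hy) (by
      rw [map_sub, hpow, hpow, sub_eq_zero]
      exact hxy)
    exact sub_eq_zero.mp h
  · -- onto
    rcases Nat.eq_zero_or_pos s with rfl | hs
    · intro x hx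
      refine ⟨x, by simpa using hx, by simp⟩
    obtain ⟨s', rfl⟩ : ∃ s', s = s' + 1 := ⟨s - 1, by omega⟩
    have h : Wt a Q (w - (s' + 1 : ℕ)) ≤ Submodule.map (ν ^ (s' + 1)) (Wt a Q (w + (s' + 1 : ℕ))) := by
      refine iSup₂_le fun z hz => ?_
      intro y hy
      have hle : ∀ (z z' : ℂ) (s : ℕ), ‖z‖ ^ 2 = (Q : ℝ) ^ (w + s + 1) → z' * (Q : ℂ) ^ (s + 1) = z →
          a.charpoly.roots.count z ≤ a.charpoly.roots.count z' := by
        intro z z' s hz hz'
        rw [← LinL.finrank_gen, ← LinL.finrank_gen]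
        exact LinL.le_dim a ν Q w h2 hc' hi' z z' s hz hz'
      by_cases hy0 : y = 0
      · rw [hy0]; exact Submodule.zero_mem _
      have hzr : z ∈ a.charpoly.roots := by
        rw [← Multiset.count_pos, ← LinL.finrank_gen, Module.finrank_pos_iff_exists_ne_zero]
        exact ⟨⟨y, hy⟩, fun h => hy0 (congrArg Subtype.val h)⟩
      have hJ := LinL.J_of Q h2 z _ hz
      have hcnt := LinL.counting Q w h2 a.charpoly.roots hr hd hle z hzr (by push_cast at hJ; omega)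
      have hio : LinL.iot Q w z = z * (Q : ℂ) ^ (s' + 1) := by
        rw [LinL.iot, hJ, ← zpow_natCast]
        congr 2
        push_cast
        ring
      have hnio : ‖LinL.iot Q w z‖ ^ 2 = (Q : ℝ) ^ (w + (s' + 1 : ℕ)) := by
        rw [LinL.norm_iot Q w h2 z (hr z hzr), hJ]
        congr 1
        ring
      obtain ⟨x, hx, hxy⟩ := LinL.surj a ν Q w h2 hc' hi' (LinL.iot Q w z) z s'
        (by rw [hnio]; congr 1; push_cast; ring) hio.symm
        (by rw [LinL.finrank_gen, LinL.finrank_gen]; exact hcnt.symm) y hy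
      exact ⟨x, Submodule.mem_iSup_of_mem _ (Submodule.mem_iSup_of_mem hnio hx), hxy⟩
    intro y hy
    obtain ⟨x, hx, hxy⟩ := h hy
    exact ⟨x, hx, by show (N ^ (s' + 1)) *ᵥ x = y; rw [← hpow]; exact hxy⟩

end Pool.Agent.Helper3K9.EW
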