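import Pool.Agent.Helper3K9.EW.Stm

/-!
# EW: the leaf [CHP]
-/

set_option autoImplicit false
set_option maxHeartbeats 400000

namespace Pool.Agent.Helper3K9.EW

open NumberField Filter Topology IsDedekindDomain Matrix Polynomial
open Pool.Agent.W569.FM Pool.Agent.W401.Cheb Pool.Agent.R401.Img Pool.Agent.R401.Sup3
open Pool.Agent.R401.Sup Pool.Agent.R401.Tr4 Pool.Agent.R401.Tr5 Pool.Agent.R401.Tr10

namespace ChpL

/-- the coefficients of the characteristic polynomial and of its reverse -/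
theorem charpoly_coeff {L : Type} [Field L] {m : ℕ} (A : Matrix (Fin m) (Fin m) L) (i : ℕ)
    (hi : i ≤ m) : A.charpoly.coeff i = A.charpolyRev.coeff (m - i) := by
  rw [← Matrix.reverse_charpoly, coeff_reverse, Matrix.charpoly_natDegree_eq_dim,
    Fintype.card_fin, revAt_le (Nat.sub_le m i)]
  congr 1
  omega

/-- the characteristic polynomial is rational if the traces of the powers are rational -/
theorem charpoly_of_trace {L : Type} [Field L] [CharZero L] {m : ℕ}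
    (A : Matrix (Fin m) (Fin m) L) (s : ℕ → ℚ)
    (hs : ∀ k, (A ^ (k + 1)).trace = (s (k + 1) : L)) :
    A.charpoly = (∑ i ∈ Finset.range (m + 1), C (cf s (m - i)) * X ^ i).map (Rat.castHom L) := by
  refine Polynomial.ext fun i => ?_
  rw [coeff_map, finsetSum_coeff]
  simp only [coeff_C_mul, coeff_X_pow, mul_ite, mul_one, mul_zero]
  rw [Finset.sum_ite_eq]
  split_ifs with hk
  · rw [Finset.mem_range] at hk
    rw [charpoly_coeff A i (by omega), coeff_eq A s hs]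
    rfl
  · rw [Finset.mem_range] at hk
    rw [coeff_eq_zero_of_natDegree_lt, map_zero]
    rw [Matrix.charpoly_natDegree_eq_dim, Fintype.card_fin]
    omega

/-- the square of the determinant -/
theorem det_sq {L : Type} [Field L] [CharZero L] {m : ℕ} (A : Matrix (Fin m) (Fin m) L) (h : ℚ[X])
    (hA : A.charpoly = h.map (Rat.castHom L)) : A.det ^ 2 = ((h.coeff 0 ^ 2 : ℚ) : L) := by
  rw [Matrix.det_eq_sign_charpoly_coeff, hA, coeff_map, mul_pow, ← pow_mul, mul_comm _ 2, pow_mul,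
    neg_one_sq, one_pow, one_mul]
  push_cast
  rfl

variable {K : Type} [Field K] [NumberField K] {ℓ : ℕ} [Fact ℓ.Prime] {n m : ℕ}
  (V : GK K →* GL (Fin n) ℚ_[ℓ]) (W : GK K →* GL (Fin m) ℚ_[ℓ]) (u : ℤ) (φ : GK K → ℚ)
  (hφ : ∀ y : GK K, cyc K ℓ ℚ_[ℓ] y ^ u * ((mt V y).trace - (mt W y).trace) = (φ y : ℚ_[ℓ]))
  {P : Ideal (OO K)} (hP : P.IsMaximal) (hℓP : (ℓ : OO K) ∉ P) {Q : ℕ} {g : GK K}
  (hg : FrobAt Q P g)

include hφ hP hℓP hg in
/-- the traces of the powers -/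
theorem trace_pow (r : ℕ) : ((mt V g⁻¹) ^ r).trace =
    ((mt W g⁻¹) ^ r).trace + (((Q : ℚ_[ℓ]) ^ u) ^ r) * (φ (g⁻¹ ^ r) : ℚ_[ℓ]) := by
  have hc := Pool.Agent.R401.Tr9.cyc_sigma (ℓ := ℓ) hP hg hℓP
  have hc0 : (Q : ℚ_[ℓ]) ≠ 0 := by
    rw [← hc]
    exact c_ne _ _
  have h1 := hφ (g⁻¹ ^ r)
  rw [map_pow, c_inv, hc, ← zpow_natCast, _root_.zpow_comm, _root_.inv_zpow, _root_.inv_zpow,
    zpow_natCast, Pool.Agent.R401.Tr9.mt_pow, Pool.Agent.R401.Tr9.mt_pow] at h1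
  have h3 : ((Q : ℚ_[ℓ]) ^ u) ^ r ≠ 0 := pow_ne_zero _ (zpow_ne_zero _ hc0)
  rw [← h1, ← mul_assoc, mul_inv_cancel₀ h3, one_mul]
  ring

include hφ hP hℓP hg in
/-- the determinants -/
theorem det_rel (U : Subgroup (GK K)) (hU : ∀ x ∈ U, ∀ y, φ (x * y) = φ y) {M : ℕ}
    (hM : g⁻¹ ^ M ∈ U) :
    (mt V g⁻¹).det ^ M * (((Q : ℚ_[ℓ]) ^ u) ^ M) ^ m =
      (((Q : ℚ_[ℓ]) ^ u) ^ M) ^ n * (mt W g⁻¹).det ^ M := by
  have hblock : ∀ (A : Matrix (Fin n) (Fin n) ℚ_[ℓ]) (B : Matrix (Fin m) (Fin m) ℚ_[ℓ]) (k : ℕ),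
      ((fromBlocks A 0 0 B) ^ k).trace = (A ^ k).trace + (B ^ k).trace := by
    intro A B k
    rw [fromBlocks_diagonal_pow]
    simp [Matrix.trace, Fintype.sum_sum_type]
  have htr : ∀ k : ℕ, ((mt V g⁻¹) ^ (M * k)).trace - ((mt W g⁻¹) ^ (M * k)).trace =
      (((Q : ℚ_[ℓ]) ^ u) ^ M) ^ k * (n - m) := by
    intro k
    have h2 : g⁻¹ ^ (M * k) ∈ U := by
      rw [pow_mul]
      exact U.pow_mem hM k
    have h3 : φ (g⁻¹ ^ (M * k)) = φ 1 := by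
      rw [← mul_one (g⁻¹ ^ (M * k)), hU _ h2]
    rw [trace_pow V W u φ hφ hP hℓP hg, h3, Pool.Agent.R401.Tr9.phi_one V W u φ hφ, pow_mul]
    ring
  have h1 : (fromBlocks ((mt V g⁻¹) ^ M) 0 0
      ((((Q : ℚ_[ℓ]) ^ u) ^ M) • (1 : Matrix (Fin m) (Fin m) ℚ_[ℓ]))).charpoly =
      (fromBlocks ((((Q : ℚ_[ℓ]) ^ u) ^ M) • (1 : Matrix (Fin n) (Fin n) ℚ_[ℓ])) 0 0
        ((mt W g⁻¹) ^ M)).charpoly := by
    apply Pool.Agent.TH658.Eq.charpoly_eq_of_traces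
    intro k
    rw [hblock, hblock, ← pow_mul, ← pow_mul, _root_.smul_pow, _root_.smul_pow, one_pow, one_pow,
      Matrix.trace_smul, Matrix.trace_smul, Matrix.trace_one, Matrix.trace_one, Fintype.card_fin,
      Fintype.card_fin, smul_eq_mul, smul_eq_mul]
    linear_combination htr k
  have h2 : (fromBlocks ((mt V g⁻¹) ^ M) 0 0
      ((((Q : ℚ_[ℓ]) ^ u) ^ M) • (1 : Matrix (Fin m) (Fin m) ℚ_[ℓ]))).det =
      (fromBlocks ((((Q : ℚ_[ℓ]) ^ u) ^ M) • (1 : Matrix (Fin n) (Fin n) ℚ_[ℓ])) 0 0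
        ((mt W g⁻¹) ^ M)).det := by
    rw [Matrix.det_eq_sign_charpoly_coeff, Matrix.det_eq_sign_charpoly_coeff, h1]
  rw [det_fromBlocks_zero₂₁, det_fromBlocks_zero₂₁, det_smul, det_smul, det_pow, det_pow, det_one,
    det_one, Fintype.card_fin, Fintype.card_fin, mul_one, mul_one] at h2
  exact h2

/-- the arithmetic of rational numbers -/
theorem arith {q : ℚ} (hq : 0 < q) {M : ℕ} (hM : 0 < M) {u w : ℤ} {n m k : ℕ} {b c : ℚ}
    (hb : 0 ≤ b) (hc : c = q ^ (w * m * k)) (hw : w = 2 * u ∨ n = m)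
    (h : b ^ M * ((((q ^ k) ^ u) ^ M) ^ 2) ^ m = ((((q ^ k) ^ u) ^ M) ^ 2) ^ n * c ^ M) :
    b = q ^ (w * n * k) := by
  set D : ℚ := (((q ^ k) ^ u) ^ M) ^ 2 with hD
  have hD0 : 0 < D := by positivity
  rcases hw with hw | hw
  · have hDE : D = (q ^ (w * k)) ^ M := by
      rw [hD, hw, ← zpow_natCast q k, ← _root_.zpow_mul, ← pow_mul, mul_comm M 2, pow_mul,
        ← zpow_natCast (q ^ ((k : ℤ) * u)) 2, ← _root_.zpow_mul]
      congr 2
      push_cast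
      ring
    have h2 : (b * q ^ (w * m * k)) ^ M = (q ^ (w * n * k) * q ^ (w * m * k)) ^ M := by
      have h3 : ∀ r : ℕ, D ^ r = (q ^ (w * r * k)) ^ M := by
        intro r
        rw [hDE, ← pow_mul, mul_comm M r, pow_mul, ← zpow_natCast (q ^ (w * (k : ℤ))) r,
          ← _root_.zpow_mul]
        congr 2
        ring
      rw [h3, h3, hc] at h
      rw [mul_pow, mul_pow, h]
    have h4 := (pow_left_inj₀ (by positivity) (by positivity) hM.ne').1 h2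
    exact mul_right_cancel₀ (by positivity) h4
  · subst hw
    have h2 : b ^ M = c ^ M := by
      have h3 : b ^ M * D ^ n = c ^ M * D ^ n := by rw [h, mul_comm]
      exact mul_right_cancel₀ (by positivity) h3
    rw [(pow_left_inj₀ hb (by rw [hc]; positivity) hM.ne').1 h2, hc]

end ChpL

open ChpL in
theorem chp : S_CHP := by
  intro K _ _ n m V W w hC P hP q hq hW k g hg
  obtain ⟨u, φ, U, hw, hUn, hUo, hU, hφ⟩ := hC
  obtain ⟨h, hh0, hh⟩ := hW k g hg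
  set t : ℕ → ℚ := fun k => match k with
    | 0 => m
    | k + 1 => tn (fun i => h.coeff (revAt m i)) k with ht
  have htr : ∀ (ℓ : ℕ) [Fact ℓ.Prime], (ℓ : OO K) ∉ P → ∀ r,
      ((mt (W ℓ) g⁻¹) ^ r).trace = (t r : ℚ_[ℓ]) := by
    intro ℓ _ hℓP r
    rcases r with _ | r
    · rw [pow_zero, Matrix.trace_one, Fintype.card_fin]
      simp [ht]
    · exact trace_eq_tn _ _ (coeff_rev _ h (hh ℓ hℓP)) r
  set s : ℕ → ℚ := fun r => t r + ((((q ^ k : ℕ) : ℚ) ^ u) ^ r) * φ (g⁻¹ ^ r) with hs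
  have hst : ∀ (ℓ : ℕ) [Fact ℓ.Prime], (ℓ : OO K) ∉ P → ∀ r,
      ((mt (V ℓ) g⁻¹) ^ r).trace = (s r : ℚ_[ℓ]) := by
    intro ℓ _ hℓP r
    rw [ChpL.trace_pow (V ℓ) (W ℓ) u φ (hφ ℓ) hP hℓP hg, htr ℓ hℓP, hs]
    push_cast
    ring
  have hch : ∀ (ℓ : ℕ) [Fact ℓ.Prime], (ℓ : OO K) ∉ P → (mt (V ℓ) g⁻¹).charpoly =
      (∑ i ∈ Finset.range (n + 1), C (cf s (n - i)) * X ^ i).map (Rat.castHom ℚ_[ℓ]) :=
    fun ℓ _ hℓP => charpoly_of_trace _ s fun r => hst ℓ hℓP _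
  refine ⟨∑ i ∈ Finset.range (n + 1), C (cf s (n - i)) * X ^ i, ?_, fun ℓ _ hℓP => hch ℓ hℓP⟩
  set f : ℚ[X] := ∑ i ∈ Finset.range (n + 1), C (cf s (n - i)) * X ^ i with hf
  obtain ⟨ℓ, hℓ, hℓP⟩ := Pool.Agent.R401.Tr6.exists_prime_not_mem hP
  have hℓF : Fact ℓ.Prime := ⟨hℓ⟩
  have hq0 : (0 : ℚ) < q := by
    have : 0 < q := by omega
    exact_mod_cast this
  have hfin : Finite (GK K ⧸ U) := Subgroup.quotient_finite_of_isOpen _ hUo
  have hfi : U.FiniteIndex := Subgroup.finiteIndex_of_finite_quotient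
  have hM : 0 < U.index := Nat.pos_of_ne_zero hfi.index_ne_zero
  have h1 := det_rel (V ℓ) (W ℓ) u φ (hφ ℓ) hP hℓP hg U hU (Subgroup.pow_index_mem U g⁻¹)
  have h2 := det_sq _ h (hh ℓ hℓP)
  have h3 := det_sq _ f (hch ℓ hℓP)
  refine arith (u := u) (m := m) (c := h.coeff 0 ^ 2) hq0 hM (sq_nonneg _) hh0 ?_ ?_
  · rcases hw with hw | hw
    · exact Or.inl hw
    · right
      have h4 := Pool.Agent.R401.Tr9.phi_one (V ℓ) (W ℓ) u φ (hφ ℓ)
      rw [hw, Rat.cast_zero] at h4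
      exact_mod_cast (sub_eq_zero.1 h4.symm)
  · have h5 := congrArg (fun x => x ^ 2) h1
    rw [mul_pow, mul_pow, ← pow_mul, mul_comm U.index 2, pow_mul, h3, ← pow_mul _ m,
      mul_comm m 2, pow_mul _ 2 m, ← pow_mul _ n, mul_comm n 2, pow_mul _ 2 n,
      ← pow_mul (mt (W ℓ) g⁻¹).det, mul_comm U.index 2, pow_mul (mt (W ℓ) g⁻¹).det, h2] at h5
    apply Rat.cast_injective (α := ℚ_[ℓ])
    push_cast at h5 ⊢
    exact h5

end Pool.Agent.Helper3K9.EW
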