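import Pool.Agent.Helper3K9.EW.Stm
import Pool.Agent.Helper8K9.WM.CycFin

/-! # EW [CYF] (helper8): the tame quotient of the inertia group is cyclic, finite level -/

set_option autoImplicit false

namespace Pool.Agent.Helper3K9.EW

open NumberField Filter Topology IsDedekindDomain Pool.Agent.W569.FM

/-- in a `p`-group one of two powers of an element is a power of the other -/
theorem pow_or_pow {E : Type} [Group E] {p k : ℕ} (hp : p.Prime) (g : E) (hg : g ^ (p ^ k) = 1)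
    (i j : ℕ) : ∃ a : ℕ, g ^ i = (g ^ j) ^ a ∨ g ^ j = (g ^ i) ^ a := by
  have hpk : 0 < p ^ k := Nat.pow_pos hp.pos
  have main : ∀ i j : ℕ, Nat.gcd i (p ^ k) ∣ Nat.gcd j (p ^ k) → ∃ a : ℕ, g ^ j = (g ^ i) ^ a := by
    intro i j hij
    obtain ⟨c, hc⟩ := hij.trans (Nat.gcd_dvd_left j (p ^ k))
    have hb := Nat.gcd_eq_gcd_ab i (p ^ k)
    have h1 : g ^ (Nat.gcd i (p ^ k)) = (g ^ i) ^ (Nat.gcdA i (p ^ k)) := by
      rw [← zpow_natCast g (Nat.gcd i (p ^ k)), hb, zpow_add, zpow_mul, zpow_mul, zpow_natCast,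
        zpow_natCast, hg, one_zpow, mul_one]
    have h2 : ((g ^ i) : E) ^ (p ^ k) = 1 := by
      rw [← pow_mul, mul_comm, pow_mul, hg, one_pow]
    refine ⟨(Nat.gcdA i (p ^ k) % ((p ^ k : ℕ) : ℤ)).toNat * c, ?_⟩
    have h3 : (g ^ i) ^ (Nat.gcdA i (p ^ k) % ((p ^ k : ℕ) : ℤ)).toNat =
        (g ^ i) ^ (Nat.gcdA i (p ^ k)) := by
      rw [← zpow_natCast (g ^ i), Int.toNat_of_nonneg
        (Int.emod_nonneg _ (by exact_mod_cast hpk.ne'))]
      conv_rhs => rw [← Int.emod_add_mul_ediv (Nat.gcdA i (p ^ k)) ((p ^ k : ℕ) : ℤ)]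
      rw [zpow_add, zpow_mul, zpow_natCast, h2, one_zpow, mul_one]
    rw [pow_mul, h3, ← h1, ← pow_mul, ← hc]
  obtain ⟨s, -, hs⟩ := (Nat.dvd_prime_pow hp).1 (Nat.gcd_dvd_right i (p ^ k))
  obtain ⟨t, -, ht⟩ := (Nat.dvd_prime_pow hp).1 (Nat.gcd_dvd_right j (p ^ k))
  rcases le_total s t with hst | hst
  · obtain ⟨a, ha⟩ := main i j (by rw [hs, ht]; exact pow_dvd_pow p hst)
    exact ⟨a, Or.inr ha⟩
  · obtain ⟨a, ha⟩ := main j i (by rw [hs, ht]; exact pow_dvd_pow p hst)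
    exact ⟨a, Or.inl ha⟩

theorem cyf : S_CYF := by
  intro K _ _ ℓ hℓ P hP hℓP H _ hHo E _ hE f hopen τ τ' hτ hτ'
  obtain ⟨l, hl, hlP⟩ := Pool.Agent.R703.FM.exists_prime_mem P hP
  have hne : ℓ ≠ l := by
    rintro rfl
    exact hℓP hlP
  -- the field
  have hW : IsOpen (((↑) : H → GF K) '' (f.ker : Set H)) :=
    hHo.isOpenMap_subtype_val _ hopen
  have hW1 : ((↑) : H → GF K) '' (f.ker : Set H) ∈ nhds (1 : GF K) :=
    hW.mem_nhds ⟨1, f.ker.one_mem, rfl⟩
  obtain ⟨L, hfd, hnorm, hLW⟩ :=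
    (krullTopology_mem_nhds_one_iff_of_normal K (AlgebraicClosure K) _).1 hW1
  have hgal : IsGalois K L := ⟨⟩
  have hnf : NumberField L := NumberField.of_module_finite K L
  set r : GF K →* Gal(L/K) := AlgEquiv.restrictNormalHom L with hr
  have hrk : r.ker = L.fixingSubgroup := by
    rw [hr, IntermediateField.restrictNormalHom_ker]
  -- the prime
  set φ : 𝓞 L →+* OO K := algebraMap (𝓞 L) (OO K) with hφ
  have hcomm : ∀ (τ : GF K) (x : 𝓞 L), φ (r τ • x) = τ • φ x := by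
    intro τ x
    apply RingOfIntegers.ext
    exact AlgEquiv.restrictNormal_commutes τ L (x : L)
  set P0 : Ideal (𝓞 L) := P.comap φ with hP0
  have hP0p : P0.IsPrime := by
    have := hP.isPrime
    exact Ideal.comap_isPrime φ P
  have hlP0 : (l : 𝓞 L) ∈ P0 := by
    rw [hP0, Ideal.mem_comap, map_natCast]
    exact hlP
  have hP0b : P0 ≠ ⊥ := by
    intro h
    rw [h, Ideal.mem_bot] at hlP0
    exact hl.ne_zero (by exact_mod_cast hlP0)
  have hmax : P0.IsMaximal := hP0p.isMaximal hP0b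
  have hfs : FaithfulSMul Gal(L/K) (𝓞 L) := by
    refine ⟨?_⟩
    intro a b hab
    ext x
    obtain ⟨y, z, hz, rfl⟩ := IsFractionRing.div_surjective (A := 𝓞 L) x
    have ey : a (algebraMap (𝓞 L) L y) = b (algebraMap (𝓞 L) L y) :=
      congrArg (algebraMap (𝓞 L) L) (hab y)
    have ez : a (algebraMap (𝓞 L) L z) = b (algebraMap (𝓞 L) L z) :=
      congrArg (algebraMap (𝓞 L) L) (hab z)
    rw [map_div₀, map_div₀, ey, ez]
  have hfinG : Finite Gal(L/K) := inferInstance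
  have hfinR : Finite (𝓞 L ⧸ P0) := Ideal.finiteQuotientOfFreeOfNeBot P0 hP0b
  have hin : ∀ x : GF K, InInertia P x → Pool.Agent.W258.FM.Iner P0 (r x) := by
    intro x hx y
    rw [hP0, Ideal.mem_comap, map_sub, hcomm]
    exact hx (φ y)
  obtain ⟨m, n, i, j, a, b, ha, hb⟩ := Pool.Agent.Helper8K9.WM.cyc_fin hmax hP0b hl hlP0
    (hin _ hτ) (hin _ hτ')
  -- elements which are killed
  have hkill : ∀ (w : H) (a : ℕ), r (w : GF K) ^ (l ^ a) = 1 → f w = 1 := by
    intro w a hw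
    have h2 : (w : GF K) ^ (l ^ a) ∈ L.fixingSubgroup := by
      rw [← hrk]
      change r ((w : GF K) ^ (l ^ a)) = 1
      rw [map_pow]
      exact hw
    obtain ⟨v, hv, hv2⟩ := hLW h2
    have h3 : v = w ^ (l ^ a) := Subtype.ext (by rw [hv2]; push_cast; rfl)
    have h4 : f w ^ (l ^ a) = 1 := by
      rw [← map_pow, ← h3]
      exact hv
    obtain ⟨k, hk⟩ := hE (f w)
    have hd1 := orderOf_dvd_of_pow_eq_one h4
    have hd2 := orderOf_dvd_of_pow_eq_one hk
    have hcop : Nat.Coprime (l ^ a) (ℓ ^ k) :=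
      Nat.Coprime.pow _ _ ((Nat.coprime_primes hl hℓ).2 (Ne.symm hne))
    have : orderOf (f w) ∣ 1 := by
      have := Nat.dvd_gcd hd1 hd2
      rwa [hcop.gcd_eq_one] at this
    exact orderOf_eq_one_iff.1 (Nat.dvd_one.1 this)
  set z : H := τ ^ m * τ' ^ n with hz
  have hrz : r (z : GF K) = r τ ^ m * r τ' ^ n := by
    rw [hz]
    push_cast
    rw [map_mul, map_pow, map_pow]
  have h1 : f τ = f z ^ i := by
    have h2 := hkill (τ * (z ^ i)⁻¹) a (by
      push_cast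
      rw [map_mul, map_inv, map_pow, hrz]
      exact ha)
    rw [map_mul, map_inv, map_pow, mul_inv_eq_one] at h2
    exact h2
  have h2 : f τ' = f z ^ j := by
    have h2 := hkill (τ' * (z ^ j)⁻¹) b (by
      push_cast
      rw [map_mul, map_inv, map_pow, hrz]
      exact hb)
    rw [map_mul, map_inv, map_pow, mul_inv_eq_one] at h2
    exact h2
  obtain ⟨k, hk⟩ := hE (f z)
  rw [h1, h2]
  exact pow_or_pow hℓ (f z) hk i j

end Pool.Agent.Helper3K9.EW
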