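import Pool.Agent.Helper3K9.EW.Stm

/-! # EW [CYL] (helper8): the tame inertia group is procyclic -/

set_option autoImplicit false

namespace Pool.Agent.Helper3K9.EW

open NumberField Filter Topology IsDedekindDomain Matrix Pool.Agent.W569.FM
open Pool.Agent.W401.Cheb Pool.Agent.R401.Img Pool.Agent.R401.Tr9

/-- the left multiples of a matrix -/
def lmul {ℓ : ℕ} [Fact ℓ.Prime] {n : ℕ} (B : Matrix (Fin n) (Fin n) ℚ_[ℓ]) :
    Submodule ℚ_[ℓ] (Matrix (Fin n) (Fin n) ℚ_[ℓ]) where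
  carrier := {A | ∃ R, A = R * B}
  add_mem' := by
    rintro _ _ ⟨R, rfl⟩ ⟨S, rfl⟩
    exact ⟨R + S, (add_mul R S B).symm⟩
  zero_mem' := ⟨0, (zero_mul B).symm⟩
  smul_mem' := by
    rintro c _ ⟨R, rfl⟩
    exact ⟨c • R, (smul_mul_assoc c R B).symm⟩

theorem isClosed_lmul {ℓ : ℕ} [Fact ℓ.Prime] {n : ℕ} (B : Matrix (Fin n) (Fin n) ℚ_[ℓ]) :
    IsClosed ((lmul B : Submodule ℚ_[ℓ] (Matrix (Fin n) (Fin n) ℚ_[ℓ])) :
      Set (Matrix (Fin n) (Fin n) ℚ_[ℓ])) :=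
  Submodule.closed_of_finiteDimensional _

theorem mem_of_closure {ℓ : ℕ} [Fact ℓ.Prime] {n : ℕ} {T T' : Matrix (Fin n) (Fin n) ℚ_[ℓ]}
    (h : T ∈ closure (Set.range fun a : ℕ => T' ^ a)) (k : ℕ) :
    ∃ R : Matrix (Fin n) (Fin n) ℚ_[ℓ], (T - 1) ^ k = R * (T' - 1) ^ k := by
  have hc : IsClosed {M : Matrix (Fin n) (Fin n) ℚ_[ℓ] | (M - 1) ^ k ∈ lmul ((T' - 1) ^ k)} :=
    (isClosed_lmul _).preimage ((continuous_id.sub continuous_const).pow k)
  have hsub : (Set.range fun a : ℕ => T' ^ a) ⊆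
      {M : Matrix (Fin n) (Fin n) ℚ_[ℓ] | (M - 1) ^ k ∈ lmul ((T' - 1) ^ k)} := by
    rintro _ ⟨a, rfl⟩
    refine ⟨(∑ i ∈ Finset.range a, T' ^ i) ^ k, ?_⟩
    have hcomm : Commute (∑ i ∈ Finset.range a, T' ^ i) (T' - 1) := by
      apply Commute.sum_left
      intro i _
      exact ((Commute.refl T').sub_right (Commute.one_right T')).pow_left i
    rw [← hcomm.mul_pow, geom_sum_mul]
  exact closure_minimal hsub hc h

theorem cyl (hcyf : S_CYF) : S_CYL := by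
  intro K _ _ ℓ _ n ρ hρ P hP hℓP
  have hmc : Continuous (mh ρ) := Pool.Agent.R401.Sup.continuous_mt ρ hρ
  obtain ⟨H, hHn, hHo, hH⟩ := exists_small (mh ρ) hmc
  refine ⟨H, hHn, hHo, ?_⟩
  intro τ hτH τ' hτ'H hτ hτ'
  -- one open normal subgroup
  have hone : ∀ U : Subgroup (GK K), U.Normal → IsOpen (U : Set (GK K)) →
      (∃ a : ℕ, τ⁻¹ * τ' ^ a ∈ (mh ρ).ker ⊔ U) ∨ ∃ a : ℕ, τ'⁻¹ * τ ^ a ∈ (mh ρ).ker ⊔ U := by
    intro U hUn hUo
    set W : Subgroup (GK K) := (mh ρ).ker ⊔ U with hW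
    have hWo : IsOpen (W : Set (GK K)) := Subgroup.isOpen_mono le_sup_right hUo
    have hWn : W.Normal := Subgroup.sup_normal _ _
    have hpow : ∀ x ∈ H, ∃ k : ℕ, x ^ (ℓ ^ k) ∈ W := by
      intro x hx
      have hcomp : IsClosed (mh ρ '' (W : Set (GK K))ᶜ) :=
        (hWo.isClosed_compl.isCompact.image hmc).isClosed
      have h2 : (1 : Matrix (Fin n) (Fin n) ℚ_[ℓ]) ∉ mh ρ '' (W : Set (GK K))ᶜ := by
        rintro ⟨y, hy, hy1⟩
        exact hy ((le_sup_left : (mh ρ).ker ≤ W) hy1)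
      have h3 := (hH x hx).eventually (hcomp.isOpen_compl.mem_nhds h2)
      obtain ⟨k, hk⟩ := h3.exists
      refine ⟨k, ?_⟩
      by_contra hcon
      exact hk ⟨x ^ (ℓ ^ k), hcon, map_pow (mh ρ) x _⟩
    set f : H →* (GK K ⧸ W) := (QuotientGroup.mk' W).comp H.subtype with hf
    have hE : IsPGroup ℓ f.range := by
      rintro ⟨_, x, rfl⟩
      obtain ⟨k, hk⟩ := hpow x x.2
      refine ⟨k, Subtype.ext ?_⟩
      change f x ^ (ℓ ^ k) = 1
      rw [← map_pow]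
      exact (QuotientGroup.eq_one_iff _).2 hk
    have hopen : IsOpen (f.rangeRestrict.ker : Set H) := by
      have h2 : (f.rangeRestrict.ker : Set H) = H.subtype ⁻¹' (W : Set (GK K)) := by
        ext x
        rw [SetLike.mem_coe, MonoidHom.ker_rangeRestrict, MonoidHom.mem_ker]
        exact QuotientGroup.eq_one_iff _
      rw [h2]
      exact hWo.preimage continuous_subtype_val
    obtain ⟨a, ha⟩ := hcyf K ℓ Fact.out P hP hℓP H hHo f.range hE f.rangeRestrict hopen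
      ⟨τ, hτH⟩ ⟨τ', hτ'H⟩ hτ hτ'
    rcases ha with ha | ha
    · left
      refine ⟨a, ?_⟩
      have h3 := congrArg Subtype.val ha
      have h4 : ((τ : GK K) : GK K ⧸ W) = ((τ' ^ a : GK K) : GK K ⧸ W) := h3
      exact QuotientGroup.eq.1 h4
    · right
      refine ⟨a, ?_⟩
      have h3 := congrArg Subtype.val ha
      have h4 : ((τ' : GK K) : GK K ⧸ W) = ((τ ^ a : GK K) : GK K ⧸ W) := h3
      exact QuotientGroup.eq.1 h4
  -- closures
  have hcl : ∀ x y : GK K, (∀ U : Subgroup (GK K), U.Normal → IsOpen (U : Set (GK K)) →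
      ∃ a : ℕ, x⁻¹ * y ^ a ∈ (mh ρ).ker ⊔ U) →
      mh ρ x ∈ closure (Set.range fun a : ℕ => mh ρ y ^ a) := by
    intro x y h
    rw [mem_closure_iff]
    intro O hO hxO
    have h1 : (fun g => x * g) ⁻¹' (mh ρ ⁻¹' O) ∈ 𝓝 (1 : GK K) := by
      apply ((hO.preimage hmc).preimage (continuous_const.mul continuous_id)).mem_nhds
      change mh ρ (x * 1) ∈ O
      rwa [mul_one]
    obtain ⟨s, hs1, hs2, hs3⟩ := mem_nhds_iff.1 h1
    obtain ⟨U, hUs⟩ := ProfiniteGrp.exist_openNormalSubgroup_sub_open_nhds_of_one hs2 hs3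
    have hUn : (U : Subgroup (GK K)).Normal := U.isNormal'
    obtain ⟨a, ha⟩ := h U U.isNormal' U.isOpen'
    obtain ⟨c, hc, u, hu, hcu⟩ := Subgroup.mem_sup_of_normal_right.1 ha
    have h2 : mh ρ (x * u) ∈ O := hs1 (hUs hu)
    have h3 : mh ρ (x * u) = mh ρ y ^ a := by
      have h4 : y ^ a = x * (c * u) := by rw [hcu, mul_inv_cancel_left]
      have h5 : mh ρ c = 1 := hc
      rw [← map_pow, h4, map_mul, map_mul, map_mul, h5, one_mul]
    exact ⟨mh ρ y ^ a, h3 ▸ h2, ⟨a, rfl⟩⟩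
  by_cases hcase : ∀ U : Subgroup (GK K), U.Normal → IsOpen (U : Set (GK K)) →
      ∃ a : ℕ, τ⁻¹ * τ' ^ a ∈ (mh ρ).ker ⊔ U
  · left
    intro k
    exact mem_of_closure (hcl τ τ' hcase) k
  · right
    push Not at hcase
    obtain ⟨U₀, hU₀n, hU₀o, hU₀⟩ := hcase
    intro k
    refine mem_of_closure (hcl τ' τ ?_) k
    intro U hUn hUo
    have hn' : (U₀ ⊓ U).Normal := inferInstance
    have ho' : IsOpen ((U₀ ⊓ U : Subgroup (GK K)) : Set (GK K)) := by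
      rw [Subgroup.coe_inf]
      exact hU₀o.inter hUo
    rcases hone (U₀ ⊓ U) hn' ho' with ⟨a, ha⟩ | ⟨a, ha⟩
    · exact absurd ((sup_le_sup_left inf_le_left _ : (mh ρ).ker ⊔ U₀ ⊓ U ≤ (mh ρ).ker ⊔ U₀) ha)
        (hU₀ a)
    · exact ⟨a, (sup_le_sup_left inf_le_right _ : (mh ρ).ker ⊔ U₀ ⊓ U ≤ (mh ρ).ker ⊔ U) ha⟩

end Pool.Agent.Helper3K9.EW
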