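import Pool.Agent.Helper3K9.EW.Stm

/-!
# EW [EMB]
-/

set_option autoImplicit false

namespace Pool.Agent.Helper3K9.EW

open Matrix Module Polynomial Pool.Agent.R401.Img

/-- the monoid homomorphism `y ↦ (ρ y).map e` on `U` -/
def EmbL.mtU {G : Type} [Group G] (U : Subgroup G) {E : Type} [Field E] {n : ℕ} (ρ : G →* GL (Fin n) E)
    {F : Type} [Field F] (e : E →+* F) : U →* Matrix (Fin n) (Fin n) F where
  toFun y := (mt ρ (y : G)).map e
  map_one' := by
    have h : mt ρ ((1 : U) : G) = 1 := by
      change ((ρ ((1 : U) : G) : GL (Fin n) E) : Matrix (Fin n) (Fin n) E) = 1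
      rw [Subgroup.coe_one, map_one, Units.val_one]
    rw [h]
    exact Matrix.map_one _ (map_zero e) (map_one e)
  map_mul' y z := by
    rw [Subgroup.coe_mul, mt_mul, Matrix.map_mul]

/-- the block embedding -/
noncomputable def EmbL.blk (F : Type) [Field F] (m : ℕ) :
    (Matrix (Fin m) (Fin m) F × F) →ₐ[F] Matrix (Fin m ⊕ Unit) (Fin m ⊕ Unit) F where
  toFun p := fromBlocks p.1 0 0 (p.2 • 1)
  map_one' := by
    rw [Prod.fst_one, Prod.snd_one, one_smul, fromBlocks_one]
  map_mul' p q := by
    rw [fromBlocks_multiply]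
    simp [smul_smul, mul_comm]
  map_zero' := by
    rw [Prod.fst_zero, Prod.snd_zero, zero_smul, fromBlocks_zero]
  map_add' p q := by
    rw [fromBlocks_add]
    simp [add_smul]
  commutes' r := by
    rw [Algebra.algebraMap_eq_smul_one (A := Matrix (Fin m ⊕ Unit) (Fin m ⊕ Unit) F), ← fromBlocks_one,
      fromBlocks_smul]
    simp [Algebra.algebraMap_eq_smul_one]

theorem EmbL.blk_apply (F : Type) [Field F] (m : ℕ) (p : Matrix (Fin m) (Fin m) F × F) :
    EmbL.blk F m p = fromBlocks p.1 0 0 (p.2 • 1) := rfl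

theorem EmbL.blk_inj (F : Type) [Field F] (m : ℕ) (p : Matrix (Fin m) (Fin m) F × F) (h : EmbL.blk F m p = 0) :
    p = 0 := by
  rw [EmbL.blk_apply, ← fromBlocks_zero, fromBlocks_inj] at h
  obtain ⟨h1, -, -, h2⟩ := h
  refine Prod.ext h1 ?_
  have h3 := congrFun (congrFun h2 ()) ()
  simpa using h3

theorem emb (hkey : S_KEY) (hssc : S_SSC) : S_EMB := by
  intro G _ U _ _ E _ _ n m V W χ hW htr F _ _ e x hx
  classical
  let α : MonoidAlgebra F U →ₐ[F] Matrix (Fin n) (Fin n) F := MonoidAlgebra.lift F _ U (EmbL.mtU U V e)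
  let βW : MonoidAlgebra F U →ₐ[F] Matrix (Fin m) (Fin m) F := MonoidAlgebra.lift F _ U (EmbL.mtU U W e)
  let βχ : MonoidAlgebra F U →ₐ[F] F :=
    MonoidAlgebra.lift F _ U (((e : E →* F).comp χ).comp U.subtype)
  have hα : ∀ y : U, α (MonoidAlgebra.of F U y) = (mt V (y : G)).map e :=
    fun y => MonoidAlgebra.lift_of _ _
  have hβW : ∀ y : U, βW (MonoidAlgebra.of F U y) = (mt W (y : G)).map e :=
    fun y => MonoidAlgebra.lift_of _ _
  have hβχ : ∀ y : U, βχ (MonoidAlgebra.of F U y) = e (χ (y : G)) :=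
    fun y => MonoidAlgebra.lift_of _ _
  -- traces
  have htrace : ∀ a, (α a).trace = (βW a).trace + βχ a * ((n : F) - m) := by
    intro a
    induction a using MonoidAlgebra.induction_on with
    | of y =>
      rw [hα, hβW, hβχ]
      have h1 := congrArg e (htr (y : G) y.2)
      rw [map_add, map_mul, map_sub, map_natCast, map_natCast] at h1
      have h2 : ∀ {k : ℕ} (A : Matrix (Fin k) (Fin k) E), (A.map e).trace = e A.trace := by
        intro k A
        rw [Matrix.trace, Matrix.trace, map_sum]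
        rfl
      rw [h2, h2, h1]
    | add x y hx hy => rw [map_add, map_add, map_add, Matrix.trace_add, Matrix.trace_add, hx, hy]; ring
    | smul r x hx =>
      rw [map_smul, map_smul, map_smul, Matrix.trace_smul, Matrix.trace_smul, hx, smul_eq_mul,
        smul_eq_mul, smul_eq_mul]
      ring
  -- the `W` part
  have hWz : ∀ a, (∀ b, IsNilpotent (βW (b * a))) → βW a = 0 := by
    intro a ha
    apply hssc G U E m W hW F e
    · have h1 : ∀ a, βW a ∈ Submodule.span F (Set.range fun y : U => (mt W (y : G)).map e) := by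
        intro a
        induction a using MonoidAlgebra.induction_on with
        | of y => rw [hβW]; exact Submodule.subset_span ⟨y, rfl⟩
        | add x y hx hy => rw [map_add]; exact Submodule.add_mem _ hx hy
        | smul r x hx => rw [map_smul]; exact Submodule.smul_mem _ _ hx
      exact h1 a
    · intro y
      have h1 := ha (MonoidAlgebra.of F U y)
      have h2 := (Matrix.isNilpotent_trace_of_isNilpotent h1).eq_zero
      rw [map_mul, hβW, Matrix.trace_mul_comm] at h2
      exact h2
  -- polynomials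
  have hpol : ∀ (g : U) (f : F[X]), α (aeval (MonoidAlgebra.of F U g) f) =
      aeval ((mt V (g : G)).map e) f := by
    intro g f
    rw [← Polynomial.aeval_algHom_apply, hα]
  have hpolW : ∀ (g : U) (f : F[X]), βW (aeval (MonoidAlgebra.of F U g) f) =
      aeval ((mt W (g : G)).map e) f := by
    intro g f
    rw [← Polynomial.aeval_algHom_apply, hβW]
  have hpolχ : ∀ (g : U) (f : F[X]), βχ (aeval (MonoidAlgebra.of F U g) f) =
      f.eval (e (χ (g : G))) := by
    intro g f
    rw [← Polynomial.aeval_algHom_apply, hβχ, Polynomial.coe_aeval_eq_eval]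
  by_cases hnm : n = m
  · left
    obtain ⟨y, hy, hy'⟩ := hkey F (MonoidAlgebra F U) n (Fin m) α βW hWz (by
      intro a ha
      rw [htrace, ha, hnm, sub_self, mul_zero, Matrix.trace_zero, add_zero]) x hx
    refine ⟨y, hy, fun g hg f hf => ?_⟩
    have h1 := hy' (aeval (MonoidAlgebra.of F U ⟨g, hg⟩) f) (by rw [hpol]; exact hf)
    rw [hpolW] at h1
    exact h1
  · let β : MonoidAlgebra F U →ₐ[F] Matrix (Fin m ⊕ Unit) (Fin m ⊕ Unit) F :=
      (EmbL.blk F m).comp (βW.prod βχ)
    have hβ : ∀ a, β a = EmbL.blk F m (βW a, βχ a) := fun a => rfl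
    have hβ0 : ∀ a, β a = 0 → βW a = 0 ∧ βχ a = 0 := by
      intro a ha
      rw [hβ] at ha
      have h1 := EmbL.blk_inj F m _ ha
      exact ⟨congrArg Prod.fst h1, congrArg Prod.snd h1⟩
    have hβn : ∀ a, IsNilpotent (β a) → IsNilpotent (βW a) ∧ IsNilpotent (βχ a) := by
      rintro a ⟨N, hN⟩
      rw [← map_pow] at hN
      obtain ⟨h1, h2⟩ := hβ0 _ hN
      rw [map_pow] at h1 h2
      exact ⟨⟨N, h1⟩, ⟨N, h2⟩⟩
    obtain ⟨y, hy, hy'⟩ := hkey F (MonoidAlgebra F U) n (Fin m ⊕ Unit) α β (by
      intro a ha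
      have h1 : βW a = 0 := hWz a fun b => (hβn _ (ha b)).1
      have h2 : βχ a = 0 := by
        have h3 := (hβn _ (ha 1)).2
        rw [one_mul] at h3
        exact h3.eq_zero
      rw [hβ, h1, h2]
      exact map_zero (EmbL.blk F m)) (by
      intro a ha
      obtain ⟨h1, h2⟩ := hβ0 a ha
      rw [htrace, h1, h2, zero_mul, Matrix.trace_zero, add_zero]) x hx
    -- the components
    have hcomp : ∀ a, α a *ᵥ x = 0 → βW a *ᵥ (y ∘ Sum.inl) = 0 ∧ βχ a * y (Sum.inr ()) = 0 := by
      intro a ha
      have h1 := hy' a ha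
      rw [hβ, EmbL.blk_apply, Matrix.fromBlocks_mulVec] at h1
      constructor
      · funext i
        have h2 := congrFun h1 (Sum.inl i)
        simpa using h2
      · have h2 := congrFun h1 (Sum.inr ())
        rw [Matrix.smul_mulVec, Matrix.one_mulVec] at h2
        simpa using h2
    by_cases hy2 : y (Sum.inr ()) = 0
    · left
      refine ⟨y ∘ Sum.inl, ?_, fun g hg f hf => ?_⟩
      · intro h0
        apply hy
        funext i
        rcases i with i | i
        · exact congrFun h0 i
        · exact hy2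
      · have h1 := (hcomp (aeval (MonoidAlgebra.of F U ⟨g, hg⟩) f) (by rw [hpol]; exact hf)).1
        rw [hpolW] at h1
        exact h1
    · right
      refine ⟨hnm, fun g hg f hf => ?_⟩
      have h1 := (hcomp (aeval (MonoidAlgebra.of F U ⟨g, hg⟩) f) (by rw [hpol]; exact hf)).2
      rw [hpolχ] at h1
      exact (mul_eq_zero.1 h1).resolve_right hy2

end Pool.Agent.Helper3K9.EW
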