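import Pool.Agent.Helper3K9.EW.Stm

/-!
# EW: the leaf [FIN]
-/

set_option autoImplicit false
set_option maxHeartbeats 400000

namespace Pool.Agent.Helper3K9.EW

open NumberField Filter Topology IsDedekindDomain Matrix Polynomial
open Pool.Agent.W569.FM Pool.Agent.W401.Cheb Pool.Agent.R401.Img Pool.Agent.R401.Sup3
open Pool.Agent.R401.Sup Pool.Agent.R401.Tr4 Pool.Agent.R401.Tr5 Pool.Agent.R401.Tr10

namespace FinL

set_option linter.unusedSectionVars false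

variable {K : Type} [Field K] [NumberField K]

/-- powers of Frobenius elements -/
theorem frob_pow {q : ℕ} {P : Ideal (OO K)} {σ : GK K} (hσ : FrobAt q P σ) (k : ℕ) :
    FrobAt (q ^ k) P (σ ^ k) := by
  induction k with
  | zero =>
    intro x
    rw [pow_zero, pow_zero, one_smul, pow_one, sub_self]
    exact P.zero_mem
  | succ k ih =>
    intro x
    have h1 : σ ^ (k + 1) • x - x ^ (q ^ (k + 1)) =
        (σ • (σ ^ k • x) - (σ ^ k • x) ^ q) + ((σ ^ k • x) ^ q - (x ^ (q ^ k)) ^ q) := by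
      rw [pow_succ' σ, mul_smul, ← pow_mul, ← pow_succ]
      ring
    rw [h1]
    exact P.add_mem (hσ _) (P.mem_of_dvd (sub_dvd_pow_sub_pow _ _ q) (ih x))

/-- products of inertia and Frobenius elements -/
theorem frob_mul {Q : ℕ} {P : Ideal (OO K)} {a g : GK K} (ha : InInertia P a)
    (hg : FrobAt Q P g) : FrobAt Q P (a * g) := by
  intro x
  have h2 : (a * g) • x - x ^ Q = (a • (g • x) - g • x) + (g • x - x ^ Q) := by
    rw [mul_smul]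
    abel
  rw [h2]
  exact P.add_mem (ha _) (hg x)

theorem frob_one {Q : ℕ} {P : Ideal (OO K)} {g : GK K} (hg : InInertia P g) :
    FrobAt (Q ^ 0) P g := by
  intro x
  rw [pow_zero, pow_one]
  exact hg x

/-- the trace of a unipotent matrix -/
theorem trace_unip {k : Type} [Field k] {n : ℕ} {A : Matrix (Fin n) (Fin n) k}
    (h : IsNilpotent (A - 1)) : A.trace = n := by
  have h1 := (Matrix.isNilpotent_trace_of_isNilpotent h).eq_zero
  rw [Matrix.trace_sub, Matrix.trace_one, Fintype.card_fin] at h1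
  exact sub_eq_zero.1 h1

section one

variable {ℓ : ℕ} [Fact ℓ.Prime] {n : ℕ}
  (V : GK K →* GL (Fin n) ℚ_[ℓ]) (H : Subgroup (GK K)) (hHo : IsOpen (H : Set (GK K)))
  {P : Ideal (OO K)} (E : Matrix (Fin n) (Fin n) ℚ_[ℓ])
  (hE : ∀ τ ∈ H, InInertia P τ → mt V τ * E = E)

/-- the projector -/
noncomputable def pj : Matrix (Fin n) (Fin n) ℚ_[ℓ] :=
  ((Nat.card (IG P ⧸ H.subgroupOf (IG P)) : ℚ_[ℓ])⁻¹) •
    ∑ᶠ q : IG P ⧸ H.subgroupOf (IG P), mt V ((q.out : IG P) : GK K) * E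

include hE in
theorem mt_out {a b : IG P} (h : (a : IG P ⧸ H.subgroupOf (IG P)) = b) :
    mt V (a : GK K) * E = mt V (b : GK K) * E := by
  have h1 := QuotientGroup.eq.1 h
  rw [Subgroup.mem_subgroupOf] at h1
  have h2 := hE _ h1 (a⁻¹ * b).2
  have h3 : (b : GK K) = (a : GK K) * ((a⁻¹ * b : IG P) : GK K) := by
    rw [Subgroup.coe_mul, Subgroup.coe_inv, mul_inv_cancel_left]
  rw [h3, mt_mul, mul_assoc, h2]

include hHo hE in
theorem mt_mul_pj {τ : GK K} (hτ : InInertia P τ) :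
    mt V τ * pj V H (P := P) E = pj V H (P := P) E := by
  classical
  have := Pool.Agent.R401.Tr6.finQ H hHo (P := P)
  have hft : Fintype (IG P ⧸ H.subgroupOf (IG P)) := Fintype.ofFinite _
  unfold pj
  rw [mul_smul_comm, finsum_eq_sum_of_fintype, Finset.mul_sum]
  congr 1
  let t : IG P := ⟨τ, hτ⟩
  conv_rhs => rw [← Equiv.sum_comp (MulAction.toPerm t : Equiv.Perm (IG P ⧸ H.subgroupOf (IG P)))]
  refine Finset.sum_congr rfl fun q _ => ?_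
  rw [← mul_assoc, ← mt_mul]
  have h1 : τ * ((q.out : IG P) : GK K) = ((t * q.out : IG P) : GK K) := rfl
  rw [h1]
  apply mt_out V H E hE
  rw [MulAction.toPerm_apply]
  have h2 : (((t • q).out : IG P) : IG P ⧸ H.subgroupOf (IG P)) = t • q := Quotient.out_eq _
  rw [h2]
  conv_rhs => rw [← Quotient.out_eq q]
  rfl

variable {I : Submodule ℚ_[ℓ] (Fin n → ℚ_[ℓ])}
  (hI : ∀ x, x ∈ I ↔ ∀ τ, InInertia P τ → mt V τ *ᵥ x = x)

include hHo hE hI in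
theorem pj_mem (x : Fin n → ℚ_[ℓ]) : pj V H (P := P) E *ᵥ x ∈ I := by
  rw [hI]
  intro τ hτ
  rw [Matrix.mulVec_mulVec, mt_mul_pj V H hHo E hE hτ]

include hHo hI in
theorem pj_fix (hEI : ∀ x ∈ I, E *ᵥ x = x) (x : Fin n → ℚ_[ℓ]) (hx : x ∈ I) :
    pj V H (P := P) E *ᵥ x = x := by
  classical
  have := Pool.Agent.R401.Tr6.finQ H hHo (P := P)
  have hft : Fintype (IG P ⧸ H.subgroupOf (IG P)) := Fintype.ofFinite _
  unfold pj
  rw [Matrix.smul_mulVec, finsum_eq_sum_of_fintype, Matrix.sum_mulVec]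
  have h1 : ∀ q : IG P ⧸ H.subgroupOf (IG P),
      (mt V ((q.out : IG P) : GK K) * E) *ᵥ x = x := by
    intro q
    rw [← Matrix.mulVec_mulVec, hEI x hx]
    exact (hI x).1 hx _ q.out.2
  rw [Finset.sum_congr rfl fun q _ => h1 q, Finset.sum_const, Finset.card_univ,
    Nat.card_eq_fintype_card, ← Nat.cast_smul_eq_nsmul ℚ_[ℓ], smul_smul, inv_mul_cancel₀, one_smul]
  exact_mod_cast Fintype.card_ne_zero

theorem trace_pj (σ : GK K) (k : ℕ) (hHo : IsOpen (H : Set (GK K)))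
    (r : IG P ⧸ H.subgroupOf (IG P) → ℚ)
    (hr : ∀ q : IG P ⧸ H.subgroupOf (IG P),
      (mt V ((((q.out : IG P) : GK K)⁻¹ * σ ^ k)⁻¹) * E).trace = (r q : ℚ_[ℓ])) :
    (mt V σ⁻¹ ^ k * pj V H (P := P) E).trace =
    ((((Nat.card (IG P ⧸ H.subgroupOf (IG P)) : ℚ)⁻¹) *
      ∑ᶠ q : IG P ⧸ H.subgroupOf (IG P), r q : ℚ) : ℚ_[ℓ]) := by
  classical
  have := Pool.Agent.R401.Tr6.finQ H hHo (P := P)
  have hft : Fintype (IG P ⧸ H.subgroupOf (IG P)) := Fintype.ofFinite _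
  unfold pj
  rw [finsum_eq_sum_of_fintype, finsum_eq_sum_of_fintype, mul_smul_comm, Matrix.trace_smul,
    Finset.mul_sum, Matrix.trace_sum, smul_eq_mul]
  have h1 : ∀ x : IG P ⧸ H.subgroupOf (IG P),
      (mt V σ⁻¹ ^ k * (mt V ((x.out : IG P) : GK K) * E)).trace = (r x : ℚ_[ℓ]) := by
    intro x
    rw [← hr x, ← mul_assoc, ← Pool.Agent.R401.Tr9.mt_pow, ← mt_mul, _root_.mul_inv_rev, inv_inv, inv_pow]
  rw [Finset.sum_congr rfl fun x _ => h1 x]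
  push_cast
  rfl

end one

/-- the projector exists -/
theorem exists_uproj {ℓ : ℕ} [Fact ℓ.Prime] {n : ℕ} (V : GK K →* GL (Fin n) ℚ_[ℓ])
    (P : Ideal (OO K)) : ∃ E, UProj V P E := by
  let M : Submodule ℚ_[ℓ] (Fin n → ℚ_[ℓ]) :=
    { carrier := {x | ∀ τ, InInertia P τ → IsNilpotent (mt V τ - 1) → mt V τ *ᵥ x = x}
      add_mem' := by
        intro a b ha hb τ h1 h2
        rw [Matrix.mulVec_add, ha τ h1 h2, hb τ h1 h2]
      zero_mem' := by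
        intro τ _ _
        rw [Matrix.mulVec_zero]
      smul_mem' := by
        intro c x hx τ h1 h2
        rw [Matrix.mulVec_smul, hx τ h1 h2] }
  obtain ⟨p, hp⟩ := LinearMap.exists_leftInverse_of_injective M.subtype (Submodule.ker_subtype M)
  refine ⟨LinearMap.toMatrix' (M.subtype ∘ₗ p), ?_, ?_⟩
  · intro x τ h1 h2
    rw [← Matrix.toLin'_apply (LinearMap.toMatrix' _), Matrix.toLin'_toMatrix',
      LinearMap.comp_apply]
    exact (p x).2 τ h1 h2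
  · intro x hx
    rw [← Matrix.toLin'_apply (LinearMap.toMatrix' _), Matrix.toLin'_toMatrix',
      LinearMap.comp_apply]
    have h1 := LinearMap.congr_fun hp ⟨x, hx⟩
    rw [LinearMap.comp_apply] at h1
    change p x = _ at h1
    rw [h1]
    rfl

/-- the monodromy theorem for all `ℓ` at once -/
theorem mono_all {n : ℕ} (V : ∀ (ℓ : ℕ) [Fact ℓ.Prime], GK K →* GL (Fin n) ℚ_[ℓ]) {w : ℤ}
    {P : Ideal (OO K)} {q : ℕ} (hW : WM1 V w P q) {ℓ₀ : ℕ} [Fact ℓ₀.Prime]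
    (h0 : (ℓ₀ : OO K) ∉ P) {H : Subgroup (GK K)}
    (hH : ∀ τ ∈ H, InInertia P τ → IsNilpotent (mt (V ℓ₀) τ - 1)) (ℓ : ℕ) [Fact ℓ.Prime]
    (hℓ : (ℓ : OO K) ∉ P) : ∀ τ ∈ H, InInertia P τ → IsNilpotent (mt (V ℓ) τ - 1) := by
  intro τ hτH hτ
  apply Pool.Agent.R401.Tr3.nilp_of_trace
  intro j
  rw [← Pool.Agent.R401.Tr9.mt_pow]
  have h1 : τ ^ j ∈ H := H.pow_mem hτH j
  have h2 : InInertia P (τ ^ j) := (IG P).pow_mem (show τ ∈ IG P from hτ) j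
  have h3 : InInertia P (τ ^ j)⁻¹ := (IG P).inv_mem (show τ ^ j ∈ IG P from h2)
  obtain ⟨h, -, hh⟩ := hW 0 _ (frob_one h3)
  rw [inv_inv] at hh
  rcases Nat.eq_zero_or_pos n with h0' | h0'
  · subst h0'
    simp
  · have hne : Nonempty (Fin n) := ⟨⟨0, h0'⟩⟩
    have h4 := trace_unip (hH _ h1 h2)
    rw [Matrix.trace_eq_neg_charpoly_coeff, hh ℓ₀ h0, coeff_map] at h4
    rw [Matrix.trace_eq_neg_charpoly_coeff, hh ℓ hℓ, coeff_map]
    have h5 : -(h.coeff (Fintype.card (Fin n) - 1)) = (n : ℚ) := by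
      have h6 : -((h.coeff (Fintype.card (Fin n) - 1) : ℚ) : ℚ_[ℓ₀]) = ((n : ℚ) : ℚ_[ℓ₀]) := by
        push_cast
        exact h4
      exact_mod_cast h6
    have h7 : ((-(h.coeff (Fintype.card (Fin n) - 1)) : ℚ) : ℚ_[ℓ]) = ((n : ℚ) : ℚ_[ℓ]) := by
      rw [h5]
    push_cast at h7
    exact h7

end FinL

open FinL in
theorem fin_ : S_MONO → S_TRK → S_FIN := by
  intro hMono hTrk K _ _ n V hV w P hP q σ hq hσ hW1 hW2 I hI
  classical
  obtain ⟨ℓ₀, hℓ₀, hℓ₀P⟩ := Pool.Agent.R401.Tr6.exists_prime_not_mem hP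
  have : Fact ℓ₀.Prime := ⟨hℓ₀⟩
  obtain ⟨H, hHn, hHo, hH⟩ := hMono K ℓ₀ n (V ℓ₀) (hV ℓ₀) P hP hℓ₀P q σ hq hσ
  have hHa : ∀ (ℓ : ℕ) [Fact ℓ.Prime], (ℓ : OO K) ∉ P → ∀ τ ∈ H, InInertia P τ →
      IsNilpotent (mt (V ℓ) τ - 1) := fun ℓ _ hℓ => mono_all V hW1 hℓ₀P hH ℓ hℓ
  have hT := hTrk K n V hV w P hP q σ hq hσ hW1 hW2
  have hfr : ∀ (k : ℕ) (x : IG P ⧸ H.subgroupOf (IG P)),
      FrobAt (q ^ (k + 1)) P (((x.out : IG P) : GK K)⁻¹ * σ ^ (k + 1)) := fun k x =>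
    frob_mul ((IG P).inv_mem x.out.2) (frob_pow hσ _)
  choose r hr using fun (k : ℕ) (x : IG P ⧸ H.subgroupOf (IG P)) =>
    hT (k + 1) _ (Nat.succ_pos k) (hfr k x)
  set s : ℕ → ℚ := fun k => (((Nat.card (IG P ⧸ H.subgroupOf (IG P)) : ℚ)⁻¹) *
      ∑ᶠ q : IG P ⧸ H.subgroupOf (IG P), r (k - 1) q) with hs
  -- the coefficients
  have hcoeff : ∀ (ℓ : ℕ) [Fact ℓ.Prime], (ℓ : OO K) ∉ P →
      ∀ (r : ℕ) (b : Module.Basis (Fin r) ℚ_[ℓ] (I ℓ)) (A : Matrix (Fin r) (Fin r) ℚ_[ℓ]),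
        (∀ j, mt (V ℓ) σ⁻¹ *ᵥ (b j : Fin n → ℚ_[ℓ]) = ∑ i, A i j • (b i : Fin n → ℚ_[ℓ])) →
        ∀ k, A.charpolyRev.coeff k = (cf s k : ℚ_[ℓ]) := by
    intro ℓ _ hℓP r' b A hA k
    obtain ⟨E, hE1, hE2⟩ := exists_uproj (V ℓ) P
    have hE : ∀ τ ∈ H, InInertia P τ → mt (V ℓ) τ * E = E := by
      intro τ h1 h2
      apply Matrix.toLin'.injective
      refine LinearMap.ext fun x => ?_
      rw [Matrix.toLin'_apply, Matrix.toLin'_apply, ← Matrix.mulVec_mulVec,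
        hE1 x τ h2 (hHa ℓ hℓP τ h1 h2)]
    have hEI : ∀ x ∈ I ℓ, E *ᵥ x = x := fun x hx =>
      hE2 x fun τ h1 _ => (hI ℓ x).1 hx τ h1
    apply coeff_eq
    intro k
    rw [Pool.Agent.R401.Tr4.trace_pow (pj_mem (V ℓ) H hHo E hE (hI ℓ))
      (pj_fix (V ℓ) H hHo E (hI ℓ) hEI) b hA,
      trace_pj (V ℓ) H E σ (k + 1) hHo (r k) fun x => hr k x ℓ hℓP E ⟨hE1, hE2⟩]
    rfl
  obtain ⟨m₀, b₀, A₀, hA₀'⟩ := Pool.Agent.R401.Tr6.exists_basis (V ℓ₀) hq hσ (hI ℓ₀)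
  have hzero : ∀ k, m₀ < k → cf s k = 0 := by
    intro k hk
    have h1 := hcoeff ℓ₀ hℓ₀P m₀ b₀ A₀ hA₀' k
    rw [coeff_eq_zero_of_natDegree_lt (lt_of_le_of_lt (natDegree_charpolyRev A₀) hk)] at h1
    exact_mod_cast h1.symm
  refine ⟨∑ k ∈ Finset.range (m₀ + 1), C (cf s k) * X ^ k, ?_⟩
  intro ℓ _ hℓP r' b A hA
  refine Polynomial.ext fun k => ?_
  rw [hcoeff ℓ hℓP r' b A hA k, coeff_map, finsetSum_coeff]
  simp only [coeff_C_mul, coeff_X_pow, mul_ite, mul_one, mul_zero]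
  rw [Finset.sum_ite_eq]
  split_ifs with hk
  · rfl
  · rw [Finset.mem_range] at hk
    rw [hzero k (by omega), Rat.cast_zero, map_zero]

end Pool.Agent.Helper3K9.EW
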