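import Pool.Agent.Helper3K9.EW.Stm

/-! # EW [GEN] (helper8): a generator of the tame inertia group -/

set_option autoImplicit false

namespace Pool.Agent.Helper3K9.EW

open NumberField Filter Topology IsDedekindDomain Matrix Pool.Agent.W569.FM
open Pool.Agent.W401.Cheb Pool.Agent.R401.Img Pool.Agent.R401.Tr9 Pool.Agent.R401.Tr3
open Pool.Agent.R401.Tr5

/-- factorisation over a matrix with a smaller kernel -/
theorem exists_mul_of_ker {F : Type} [Field F] {n : ℕ} {A B : Matrix (Fin n) (Fin n) F}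
    (h : LinearMap.ker (toLin' B) ≤ LinearMap.ker (toLin' A)) :
    ∃ R : Matrix (Fin n) (Fin n) F, A = R * B := by
  set f := toLin' B with hf
  set g := toLin' A with hg
  obtain ⟨r, hr⟩ := LinearMap.exists_extend
    (((LinearMap.ker f).liftQ g h).comp f.quotKerEquivRange.symm.toLinearMap)
  refine ⟨LinearMap.toMatrix' r, ?_⟩
  apply (toLin' : Matrix (Fin n) (Fin n) F ≃ₗ[F] _).injective
  rw [toLin'_mul, toLin'_toMatrix']
  apply LinearMap.ext
  intro x
  have h1 := LinearMap.congr_fun hr (f.quotKerEquivRange (Submodule.Quotient.mk x))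
  rw [LinearMap.comp_apply, LinearMap.comp_apply, LinearEquiv.coe_coe,
    LinearEquiv.symm_apply_apply, Submodule.subtype_apply] at h1
  rw [LinearMap.comp_apply, ← hf, ← hg]
  have h2 : ((f.quotKerEquivRange (Submodule.Quotient.mk x) : LinearMap.range f) : Fin n → F) =
      f x := rfl
  rw [h2] at h1
  rw [h1]
  rfl

theorem ker_le_of_mul {F : Type} [Field F] {n : ℕ} {A B R : Matrix (Fin n) (Fin n) F}
    (h : A = R * B) : LinearMap.ker (toLin' B) ≤ LinearMap.ker (toLin' A) := by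
  intro x hx
  rw [LinearMap.mem_ker] at hx ⊢
  rw [h, toLin'_mul, LinearMap.comp_apply, hx, map_zero]

theorem pow_eq_zero_of_nilp {F : Type} [Field F] {n : ℕ} {A : Matrix (Fin n) (Fin n) F}
    (h : IsNilpotent A) : A ^ n = 0 := by
  have h1 : IsNilpotent (toLin' A) := by
    obtain ⟨k, hk⟩ := h
    refine ⟨k, ?_⟩
    rw [← toLin'_pow, hk, map_zero]
  have h2 := h1.charpoly_eq_X_pow_finrank
  have h3 := LinearMap.aeval_self_charpoly (toLin' A)
  rw [h2, map_pow, Polynomial.aeval_X, Module.finrank_fin_fun, ← toLin'_pow] at h3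
  exact (LinearEquiv.map_eq_zero_iff _).1 h3

theorem gen (hmono : S_MONO) (hcyl : S_CYL) : S_GEN := by
  intro K _ _ ℓ _ n ρ hρ P hP hℓP q σ hq hσ
  classical
  have hmc : Continuous (mh ρ) := Pool.Agent.R401.Sup.continuous_mt ρ hρ
  obtain ⟨H₁, hH₁n, hH₁o, hH₁⟩ := hmono K ℓ n ρ hρ P hP hℓP q σ hq hσ
  obtain ⟨H₂, hH₂n, hH₂o, hH₂⟩ := hcyl K ℓ n ρ hρ P hP hℓP
  obtain ⟨H₃, hH₃n, hH₃o, hH₃⟩ := exists_small (mh ρ) hmc
  obtain ⟨l, hl, hlP⟩ := Pool.Agent.R703.FM.exists_prime_mem P hP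
  have hne : ℓ ≠ l := by
    rintro rfl
    exact hℓP hlP
  set H : Subgroup (GK K) := H₁ ⊓ (H₂ ⊓ H₃) with hHdef
  have hHn : H.Normal := inferInstance
  have hHo : IsOpen (H : Set (GK K)) := by
    rw [hHdef, Subgroup.coe_inf, Subgroup.coe_inf]
    exact hH₁o.inter (hH₂o.inter hH₃o)
  have hH3 : ∀ x ∈ H, Tendsto (fun k : ℕ => mh ρ x ^ (ℓ ^ k)) atTop (𝓝 1) :=
    fun x hx => hH₃ x hx.2.2
  -- the element with the smallest kernels
  set S : Set (GK K) := {τ | τ ∈ H ∧ InInertia P τ} with hS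
  set d : GK K → ℕ := fun τ => ∑ k ∈ Finset.range (n + 1),
    Module.finrank ℚ_[ℓ] (LinearMap.ker (toLin' ((mt ρ τ - 1) ^ k))) with hd
  have hSne : S.Nonempty := ⟨1, H.one_mem, (IG P).one_mem⟩
  obtain ⟨τ₀, hτ₀, hmin⟩ : ∃ τ₀ ∈ S, ∀ τ ∈ S, d τ₀ ≤ d τ := by
    obtain ⟨τ₀, hτ₀⟩ := exists_minimalFor_of_wellFoundedLT (· ∈ S) d hSne
    exact ⟨τ₀, hτ₀.1, fun τ hτ => (le_total (d τ₀) (d τ)).elim id fun h => hτ₀.2 hτ h⟩
  have hnil : ∀ τ ∈ S, IsNilpotent (mt ρ τ - 1) := fun τ hτ => hH₁ τ hτ.1.1 hτ.2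
  have hSfac : ∀ τ ∈ S, ∀ k : ℕ, ∃ R : Matrix (Fin n) (Fin n) ℚ_[ℓ],
      (mt ρ τ - 1) ^ k = R * (mt ρ τ₀ - 1) ^ k := by
    intro τ hτ
    rcases hH₂ τ hτ.1.2.1 τ₀ hτ₀.1.2.1 hτ.2 hτ₀.2 with h | h
    · exact h
    · intro k
      have hle : ∀ k, LinearMap.ker (toLin' ((mt ρ τ - 1) ^ k)) ≤
          LinearMap.ker (toLin' ((mt ρ τ₀ - 1) ^ k)) := by
        intro k
        obtain ⟨R, hR⟩ := h k
        exact ker_le_of_mul hR
      have hfr : ∀ k, Module.finrank ℚ_[ℓ] (LinearMap.ker (toLin' ((mt ρ τ - 1) ^ k))) ≤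
          Module.finrank ℚ_[ℓ] (LinearMap.ker (toLin' ((mt ρ τ₀ - 1) ^ k))) :=
        fun k => Submodule.finrank_mono (hle k)
      rcases Nat.lt_or_ge n k with hk | hk
      · refine ⟨0, ?_⟩
        rw [zero_mul, show k = n + (k - n) by omega, pow_add, pow_eq_zero_of_nilp (hnil τ hτ),
          zero_mul]
      · have h1 : d τ = d τ₀ := le_antisymm (Finset.sum_le_sum fun k _ => hfr k) (hmin τ hτ)
        have h2 := (Finset.sum_eq_sum_iff_of_le fun k _ => hfr k).1 h1 k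
          (Finset.mem_range.2 (by omega))
        exact exists_mul_of_ker (Submodule.eq_of_le_of_finrank_eq (hle k) h2).ge
  refine ⟨τ₀, hτ₀.2, hnil τ₀ hτ₀, ?_, ?_⟩
  · intro Q g hQ hg
    exact tame_rel' (mh ρ) hmc H hHo hH3 hl hne hQ hP hlP hτ₀.1 hτ₀.2 hg
  · intro τ hτ hτn k
    have hfin : Finite (GK K ⧸ H) := Subgroup.quotient_finite_of_isOpen _ hHo
    have hfi : H.FiniteIndex := Subgroup.finiteIndex_of_finite_quotient
    have hm : H.index ≠ 0 := hfi.index_ne_zero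
    set r := H.index with hr
    have hτr : τ ^ r ∈ S := ⟨Subgroup.pow_index_mem H τ,
      (IG P).pow_mem (show τ ∈ IG P from hτ) _⟩
    obtain ⟨R, hR⟩ := hSfac _ hτr k
    -- the unit
    set T := mt ρ τ with hT
    have hgeom : T ^ r - 1 = (∑ i ∈ Finset.range r, T ^ i) * (T - 1) := (geom_sum_mul T r).symm
    have hcomm : Commute (∑ i ∈ Finset.range r, T ^ i) (T - 1) := by
      apply Commute.sum_left
      intro i _
      exact ((Commute.refl T).sub_right (Commute.one_right T)).pow_left i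
    have hunit : IsUnit (∑ i ∈ Finset.range r, T ^ i) := by
      have h1 : ∃ c : Matrix (Fin n) (Fin n) ℚ_[ℓ], Commute c (T - 1) ∧
          ∑ i ∈ Finset.range r, T ^ i = c * (T - 1) + (r : ℚ_[ℓ]) • 1 := by
        refine ⟨∑ i ∈ Finset.range r, ∑ j ∈ Finset.range i, T ^ j, ?_, ?_⟩
        · apply Commute.sum_left
          intro i _
          apply Commute.sum_left
          intro j _
          exact ((Commute.refl T).sub_right (Commute.one_right T)).pow_left j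
        · rw [Finset.sum_mul]
          have h2 : ∀ i ∈ Finset.range r, (∑ j ∈ Finset.range i, T ^ j) * (T - 1) = T ^ i - 1 :=
            fun i _ => geom_sum_mul T i
          rw [Finset.sum_congr rfl h2, Finset.sum_sub_distrib, Finset.sum_const,
            Finset.card_range, Nat.cast_smul_eq_nsmul, sub_add_cancel]
      obtain ⟨c, hc1, hc2⟩ := h1
      rw [hc2]
      have h3 : IsNilpotent (c * (T - 1)) := hc1.isNilpotent_mul_left hτn
      have h4 : IsUnit ((r : ℚ_[ℓ]) • (1 : Matrix (Fin n) (Fin n) ℚ_[ℓ])) := by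
        have h5 : (r : ℚ_[ℓ]) ≠ 0 := Nat.cast_ne_zero.2 hm
        exact ⟨⟨(r : ℚ_[ℓ]) • 1, (r : ℚ_[ℓ])⁻¹ • 1, by
          rw [smul_mul_smul_comm, mul_inv_cancel₀ h5, one_smul, mul_one], by
          rw [smul_mul_smul_comm, inv_mul_cancel₀ h5, one_smul, mul_one]⟩, rfl⟩
      rw [add_comm]
      refine h3.isUnit_add_left_of_commute h4 ?_
      exact (Commute.one_right _).smul_right _
    obtain ⟨⟨u, u', hu1, hu2⟩, hu⟩ := hunit
    have hu' : u = ∑ i ∈ Finset.range r, T ^ i := hu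
    refine ⟨u' ^ k * R, ?_⟩
    have h1 : (T ^ r - 1) ^ k = u ^ k * (T - 1) ^ k := by
      rw [hgeom, hcomm.mul_pow, hu']
    have h2 : (T ^ r - 1) ^ k = R * (mt ρ τ₀ - 1) ^ k := by
      rw [← hR, mt_pow]
    have h3 : u' ^ k * u ^ k = 1 := by
      have h4 : Commute u' u := hu2.trans hu1.symm
      rw [← h4.mul_pow, hu2, one_pow]
    rw [mul_assoc, ← h2, h1, ← mul_assoc, h3, one_mul]

end Pool.Agent.Helper3K9.EW
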