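import Pool.Agent.Helper3K9.EW.Stm

/-!
# EW [KEY]
-/

set_option autoImplicit false

namespace Pool.Agent.Helper3K9.EW

open Matrix Module

/-- a matrix with vanishing traces of powers is nilpotent -/
theorem KeyL.nilp_tr {k : Type*} [Field k] [CharZero k] {ι : Type*} [Fintype ι] [DecidableEq ι]
    {A : Matrix ι ι k} (h : ∀ j : ℕ, (A ^ (j + 1)).trace = 0) : IsNilpotent A := by
  have h1 : IsNilpotent ((Matrix.toLinAlgEquiv' : Matrix ι ι k ≃ₐ[k] _) A) := by
    refine Pool.Agent.R401.Burn.isNilpotent_of_trace_pow (fun m hm _ => ?_) _ (fun r => ?_)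
    · exact_mod_cast hm.ne'
    · rw [← map_pow]
      have := h r
      rwa [← Matrix.trace_toLin'_eq] at this
  exact (IsNilpotent.map_iff (Matrix.toLinAlgEquiv' : Matrix ι ι k ≃ₐ[k] _).injective).1 h1

theorem key : S_KEY := by
  intro F _ _ R _ _ n ι _ _ α β hβ htr x hx
  classical
  -- the left ideal of the annihilators
  let J : Ideal R :=
    { carrier := {a | α a *ᵥ x = 0}
      zero_mem' := by simp
      add_mem' := fun {a b} ha hb => by
        simp only [Set.mem_ofPred_eq] at ha hb ⊢
        rw [map_add, Matrix.add_mulVec, ha, hb, add_zero]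
      smul_mem' := fun c a ha => by
        simp only [Set.mem_ofPred_eq, smul_eq_mul] at ha ⊢
        rw [map_mul, ← Matrix.mulVec_mulVec, ha, Matrix.mulVec_zero] }
  have hJ : ∀ a, a ∈ J ↔ α a *ᵥ x = 0 := fun a => Iff.rfl
  have hJt : J ≠ ⊤ := by
    intro h
    have : (1 : R) ∈ J := by rw [h]; trivial
    rw [hJ, map_one, Matrix.one_mulVec] at this
    exact hx this
  obtain ⟨J', hmax, hle⟩ := Ideal.exists_le_maximal J hJt
  -- the kernel of `β`
  have hker : ∀ a, β a = 0 → a ∈ J' := by
    let L : Ideal R :=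
      { carrier := {a | β a = 0}
        zero_mem' := by simp
        add_mem' := fun {a b} ha hb => by
          simp only [Set.mem_ofPred_eq] at ha hb ⊢
          rw [map_add, ha, hb, add_zero]
        smul_mem' := fun c a ha => by
          simp only [Set.mem_ofPred_eq, smul_eq_mul] at ha ⊢
          rw [map_mul, ha, mul_zero] }
    have hL : ∀ a, a ∈ L ↔ β a = 0 := fun a => Iff.rfl
    by_contra hcon
    push Not at hcon
    obtain ⟨a₀, ha₀, ha₀'⟩ := hcon
    have hsup : L ⊔ J' = ⊤ := by
      have h1 : J' < L ⊔ J' := by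
        refine lt_of_le_of_ne le_sup_right ?_
        intro h
        apply ha₀'
        rw [h]
        exact Submodule.mem_sup_left ha₀
      exact hmax.out.2 _ h1
    have h1 : (1 : R) ∈ L ⊔ J' := by rw [hsup]; trivial
    obtain ⟨a, ha, j, hj, haj⟩ := Submodule.mem_sup.1 h1
    have hnil : IsNilpotent (α a) := by
      apply KeyL.nilp_tr
      intro r
      rw [← map_pow]
      apply htr
      rw [map_pow, (hL a).1 ha, zero_pow (Nat.succ_ne_zero r)]
    obtain ⟨s, hs⟩ := hnil
    have h2 : a ^ s ∈ J' := by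
      apply hle
      rw [hJ, map_pow, hs, Matrix.zero_mulVec]
    have h3 : 1 - a ^ s ∈ J' := by
      have h4 : (1 : R) - a ^ s = (∑ i ∈ Finset.range s, a ^ i) * j := by
        have h5 : j = 1 - a := by rw [← haj]; abel
        rw [h5, ← geom_sum_mul_neg]
      rw [h4]
      exact J'.mul_mem_left _ hj
    apply hmax.out.1
    rw [Ideal.eq_top_iff_one]
    have h6 := J'.add_mem h3 h2
    rwa [sub_add_cancel] at h6
  -- the semisimple algebra
  let B : Subalgebra F (Matrix ι ι F) := β.range
  have hsurj : Function.Surjective β.rangeRestrict := β.rangeRestrict_surjective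
  have : Module.Finite F B := inferInstance
  have : IsArtinianRing B := IsArtinianRing.of_finite F B
  have hss : IsSemisimpleRing B := by
    rw [IsArtinianRing.isSemisimpleRing_iff_jacobson, eq_bot_iff]
    intro b hb
    obtain ⟨a, rfl⟩ := hsurj b
    obtain ⟨N, hN⟩ : IsNilpotent (Ring.jacobson B) := IsSemiprimaryRing.isNilpotent
    have h1 : β a = 0 := by
      apply hβ
      intro c
      refine ⟨N, ?_⟩
      have h2 : β.rangeRestrict (c * a) ∈ Ring.jacobson B := by
        rw [map_mul]
        exact (Ring.jacobson B).mul_mem_left _ hb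
      have h3 : β.rangeRestrict (c * a) ^ N ∈ Ring.jacobson B ^ N := Ideal.pow_mem_pow h2 N
      rw [hN] at h3
      have h4 : β.rangeRestrict (c * a) ^ N = 0 := h3
      have h5 := congrArg (fun z : B => (z : Matrix ι ι F)) h4
      simpa using h5
    rw [Ideal.mem_bot]
    apply Subtype.ext
    exact h1
  -- the left ideal
  let K : Ideal B :=
    { carrier := {b | ∃ a ∈ J', β.rangeRestrict a = b}
      zero_mem' := ⟨0, J'.zero_mem, map_zero _⟩
      add_mem' := by
        rintro a b ⟨a', ha', rfl⟩ ⟨b', hb', rfl⟩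
        exact ⟨a' + b', J'.add_mem ha' hb', map_add _ _ _⟩
      smul_mem' := by
        rintro c a ⟨a', ha', rfl⟩
        obtain ⟨c', rfl⟩ := hsurj c
        exact ⟨c' * a', J'.mul_mem_left _ ha', map_mul _ _ _⟩ }
  have hK : ∀ b, b ∈ K ↔ ∃ a ∈ J', β.rangeRestrict a = b := fun b => Iff.rfl
  have hK1 : (1 : B) ∉ K := by
    rintro ⟨a, ha, h⟩
    apply hmax.out.1
    rw [Ideal.eq_top_iff_one]
    have h1 : 1 - a ∈ J' := by
      apply hker
      rw [map_sub, map_one]
      have h2 := congrArg (fun z : B => (z : Matrix ι ι F)) h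
      have h3 : β a = 1 := by simpa using h2
      rw [h3, sub_self]
    have h2 := J'.add_mem h1 ha
    rwa [sub_add_cancel] at h2
  obtain ⟨L, hL⟩ := exists_isCompl K
  have h1 : (1 : B) ∈ K ⊔ L := by rw [hL.sup_eq_top]; trivial
  obtain ⟨κ, hκ, ε, hε, hκε⟩ := Submodule.mem_sup.1 h1
  have hε0 : ε ≠ 0 := by
    rintro rfl
    rw [add_zero] at hκε
    exact hK1 (hκε ▸ hκ)
  have hzero : ∀ b ∈ K, b * ε = 0 := by
    intro b hb
    have h2 : b * ε ∈ L := L.mul_mem_left _ hε
    have h3 : b * ε ∈ K := by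
      have h4 : b * ε = b - b * κ := by
        have h5 : ε = 1 - κ := by rw [← hκε]; abel
        rw [h5, mul_sub, mul_one]
      rw [h4]
      exact K.sub_mem hb (K.mul_mem_left _ hκ)
    have h5 : b * ε ∈ K ⊓ L := ⟨h3, h2⟩
    rw [hL.inf_eq_bot] at h5
    exact h5
  obtain ⟨v, hv⟩ : ∃ v : ι → F, (ε : Matrix ι ι F) *ᵥ v ≠ 0 := by
    by_contra hcon
    push Not at hcon
    apply hε0
    apply Subtype.ext
    apply Matrix.toLin'.injective
    ext1 i
    apply LinearMap.ext
    intro z
    simp [hcon]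
  refine ⟨(ε : Matrix ι ι F) *ᵥ v, hv, fun a ha => ?_⟩
  have h2 : β.rangeRestrict a ∈ K := ⟨a, hle ha, rfl⟩
  have h3 := congrArg (fun z : B => (z : Matrix ι ι F)) (hzero _ h2)
  have h4 : β a * (ε : Matrix ι ι F) = 0 := by simpa using h3
  rw [Matrix.mulVec_mulVec, h4, Matrix.zero_mulVec]

end Pool.Agent.Helper3K9.EW
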