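import Pool.Agent.Helper3K9.EW.Stm

set_option autoImplicit false

namespace Pool.Agent.Helper3K9.EW
open Polynomial Module Matrix

namespace LinL

variable {V : Type} [AddCommGroup V] [Module ℂ V]

theorem comm_pow (a ν : End ℂ V) (Q : ℕ) (h : ν * a = (Q : ℂ) • (a * ν)) (s : ℕ) :
    ν ^ s * a = ((Q : ℂ) ^ s) • (a * ν ^ s) := by
  induction s with
  | zero => simp
  | succ s ih =>
    rw [pow_succ', mul_assoc, ih, mul_smul_comm, ← mul_assoc, h, smul_mul_assoc, smul_smul, mul_assoc,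
      pow_succ]

theorem semi (a ν : End ℂ V) (Q : ℕ) (h : ν * a = (Q : ℂ) • (a * ν)) (s k : ℕ) (z : ℂ) :
    ν ^ s * (a - z • (1 : End ℂ V)) ^ k = (((Q : ℂ) ^ s) • a - z • (1 : End ℂ V)) ^ k * ν ^ s := by
  have h1 : SemiconjBy (ν ^ s) (a - z • (1 : End ℂ V)) (((Q : ℂ) ^ s) • a - z • (1 : End ℂ V)) := by
    unfold SemiconjBy
    rw [mul_sub, comm_pow a ν Q h, sub_mul, smul_mul_assoc, mul_smul_comm, smul_mul_assoc, mul_one, one_mul]
  exact h1.pow_right k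

theorem map_gen (a ν : End ℂ V) (Q : ℕ) (hQ : (Q : ℂ) ≠ 0) (h : ν * a = (Q : ℂ) • (a * ν)) (s : ℕ) (z z' : ℂ)
    (hz : z' * (Q : ℂ) ^ s = z) (x : V) (hx : x ∈ a.maxGenEigenspace z) :
    (ν ^ s) x ∈ a.maxGenEigenspace z' := by
  rw [Module.End.mem_maxGenEigenspace] at hx ⊢
  obtain ⟨k, hk⟩ := hx
  refine ⟨k, ?_⟩
  have h1 := congrArg (fun f : End ℂ V => f x) (semi a ν Q h s k z)
  simp only [Module.End.mul_apply, hk, map_zero] at h1
  have h2 : ((Q : ℂ) ^ s) • a - z • (1 : End ℂ V) = ((Q : ℂ) ^ s) • (a - z' • (1 : End ℂ V)) := by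
    rw [smul_sub, smul_smul, ← hz, mul_comm]
  rw [h2, _root_.smul_pow, LinearMap.smul_apply] at h1
  have h3 : (((Q : ℂ) ^ s) ^ k) ≠ 0 := pow_ne_zero _ (pow_ne_zero _ hQ)
  exact (smul_eq_zero.mp h1.symm).resolve_left h3

theorem exists_eig (a ν : End ℂ V) (Q : ℕ) (h : ν * a = (Q : ℂ) • (a * ν)) (s : ℕ) (z : ℂ)
    (x : V) (hx : x ∈ a.maxGenEigenspace z) (hx0 : x ≠ 0) (hν : (ν ^ s) x = 0) :
    ∃ y : V, y ≠ 0 ∧ a y = z • y ∧ (ν ^ s) y = 0 := by
  classical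
  rw [Module.End.mem_maxGenEigenspace] at hx
  have hk := Nat.find_spec hx
  have hmin := fun m => Nat.find_min (m := m) hx
  obtain ⟨k, hkk⟩ : ∃ k, Nat.find hx = k + 1 := by
    refine Nat.exists_eq_succ_of_ne_zero fun h0 => hx0 ?_
    rw [h0] at hk
    simpa using hk
  refine ⟨((a - z • (1 : End ℂ V)) ^ k) x, hmin k (by omega), ?_, ?_⟩
  · rw [hkk, pow_succ', Module.End.mul_apply, LinearMap.sub_apply, LinearMap.smul_apply,
      Module.End.one_apply] at hk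
    exact sub_eq_zero.mp hk
  · have h1 := congrArg (fun f : End ℂ V => f x) (semi a ν Q h s k z)
    simp only [Module.End.mul_apply, hν, map_zero] at h1
    exact h1

variable [FiniteDimensional ℂ V]

open Classical in
theorem finrank_gen (a : End ℂ V) (z : ℂ) : finrank ℂ (a.maxGenEigenspace z) = a.charpoly.roots.count z := by
  rw [LinearMap.finrank_maxGenEigenspace_eq, Polynomial.count_roots]

/-- dimension of the part of a stable subspace in a generalized eigenspace -/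
theorem finrank_gen_restrict (a : End ℂ V) (p : Submodule ℂ V) (hp : ∀ x ∈ p, a x ∈ p) (z : ℂ) :
    finrank ℂ (Module.End.maxGenEigenspace (a.restrict hp) z) = finrank ℂ (p ⊓ a.maxGenEigenspace z : Submodule ℂ V) := by
  have h1 : Module.End.maxGenEigenspace (a.restrict hp) z = Submodule.comap p.subtype (a.maxGenEigenspace z) :=
    Module.End.genEigenspace_restrict a p ⊤ z hp
  rw [h1, ← Submodule.finrank_map_subtype_eq, Submodule.map_comap_subtype]

/-- rank-nullity for `ν : V(z) → V(z')` when it is onto -/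
theorem rank_null (a ν : End ℂ V) (z z' : ℂ)
    (hm : ∀ x ∈ a.maxGenEigenspace z, ν x ∈ a.maxGenEigenspace z')
    (hs : ∀ y ∈ a.maxGenEigenspace z', ∃ x ∈ a.maxGenEigenspace z, ν x = y) :
    finrank ℂ (a.maxGenEigenspace z) = finrank ℂ (LinearMap.ker ν ⊓ a.maxGenEigenspace z : Submodule ℂ V) +
      finrank ℂ (a.maxGenEigenspace z') := by
  have h1 := LinearMap.finrank_range_add_finrank_ker (ν.restrict hm)
  have h2 : LinearMap.range (ν.restrict hm) = ⊤ := by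
    rw [LinearMap.range_eq_top]
    rintro ⟨y, hy⟩
    obtain ⟨x, hx, hxy⟩ := hs y hy
    exact ⟨⟨x, hx⟩, Subtype.ext hxy⟩
  have h3 : LinearMap.ker (ν.restrict hm) = Submodule.comap (a.maxGenEigenspace z).subtype (LinearMap.ker ν) := by
    ext x
    rw [LinearMap.mem_ker, Submodule.mem_comap, LinearMap.mem_ker, LinearMap.restrict_apply,
      Submodule.mk_eq_zero]
    rfl
  rw [h2, finrank_top, h3, ← Submodule.finrank_map_subtype_eq, Submodule.map_comap_subtype, inf_comm] at h1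
  omega

section core

variable (a ν : End ℂ V) (Q : ℕ) (w : ℤ)

/-- the weight of a number -/
noncomputable def J (z : ℂ) : ℤ := Int.log Q (‖z‖ ^ 2)

theorem J_of (h2 : 2 ≤ Q) (z : ℂ) (j : ℤ) (h : ‖z‖ ^ 2 = (Q : ℝ) ^ j) : J Q z = j := by
  rw [J, h, Int.log_zpow (by omega)]

variable (h2 : 2 ≤ Q) (hc : ν * a = (Q : ℂ) • (a * ν))
  (hi : ∀ (z : ℂ) (x : V) (i : ℕ), x ≠ 0 → a x = z • x → (ν ^ (i + 1)) x = 0 →
    ∃ j : ℤ, j ≤ w + i ∧ ‖z‖ ^ 2 = (Q : ℝ) ^ j)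

include h2 hc hi

/-- injectivity of `ν ^ (s + 1)` on the part of weight `w + s + 1` -/
theorem inj (z : ℂ) (s : ℕ) (hz : ‖z‖ ^ 2 = (Q : ℝ) ^ (w + s + 1)) (x : V) (hx : x ∈ a.maxGenEigenspace z)
    (hν : (ν ^ (s + 1)) x = 0) : x = 0 := by
  by_contra hx0
  obtain ⟨y, hy0, hy1, hy2⟩ := exists_eig a ν Q hc (s + 1) z x hx hx0 hν
  obtain ⟨j, hj, hj2⟩ := hi z y s hy0 hy1 hy2
  have h3 := J_of Q h2 z _ hz
  have h4 := J_of Q h2 z _ hj2
  omega

theorem Qc : (Q : ℂ) ≠ 0 := by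
  have : Q ≠ 0 := by omega
  exact_mod_cast this

theorem le_dim (z z' : ℂ) (s : ℕ) (hz : ‖z‖ ^ 2 = (Q : ℝ) ^ (w + s + 1)) (hz' : z' * (Q : ℂ) ^ (s + 1) = z) :
    finrank ℂ (a.maxGenEigenspace z) ≤ finrank ℂ (a.maxGenEigenspace z') := by
  have hm := map_gen a ν Q (Qc a ν Q w h2 hc hi) hc (s + 1) z z' hz'
  refine LinearMap.finrank_le_finrank_of_injective (f := (ν ^ (s + 1)).restrict hm) ?_
  rw [← LinearMap.ker_eq_bot, LinearMap.ker_eq_bot']
  rintro ⟨x, hx⟩ h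
  rw [LinearMap.restrict_apply, Submodule.mk_eq_zero] at h
  exact Subtype.ext (inj a ν Q w h2 hc hi z s hz x hx h)

theorem surj (z z' : ℂ) (s : ℕ) (hz : ‖z‖ ^ 2 = (Q : ℝ) ^ (w + s + 1)) (hz' : z' * (Q : ℂ) ^ (s + 1) = z)
    (hd : finrank ℂ (a.maxGenEigenspace z) = finrank ℂ (a.maxGenEigenspace z')) (y : V)
    (hy : y ∈ a.maxGenEigenspace z') : ∃ x ∈ a.maxGenEigenspace z, (ν ^ (s + 1)) x = y := by
  have hm := map_gen a ν Q (Qc a ν Q w h2 hc hi) hc (s + 1) z z' hz'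
  have h1 : Function.Injective ((ν ^ (s + 1)).restrict hm) := by
    rw [← LinearMap.ker_eq_bot, LinearMap.ker_eq_bot']
    rintro ⟨x, hx⟩ h
    rw [LinearMap.restrict_apply, Submodule.mk_eq_zero] at h
    exact Subtype.ext (inj a ν Q w h2 hc hi z s hz x hx h)
  have h3 := (LinearMap.injective_iff_surjective_of_finrank_eq_finrank hd).mp h1
  obtain ⟨x, hx⟩ := h3 ⟨y, hy⟩
  exact ⟨x, x.2, congrArg Subtype.val hx⟩

end core

section count

variable (Q : ℕ) (w : ℤ) (h2 : 2 ≤ Q)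

/-- reflection of the weight at `w` -/
noncomputable def iot (z : ℂ) : ℂ := z * (Q : ℂ) ^ (w - J Q z)

include h2

theorem Qr : (0 : ℝ) < Q := by
  have : 0 < Q := by omega
  exact_mod_cast this

theorem norm_zp (z : ℂ) (j m : ℤ) (hz : ‖z‖ ^ 2 = (Q : ℝ) ^ j) :
    ‖z * (Q : ℂ) ^ m‖ ^ 2 = (Q : ℝ) ^ (j + 2 * m) := by
  have hQ := Qr Q h2
  rw [norm_mul, mul_pow, hz, norm_zpow, Complex.norm_natCast, zpow_add₀ hQ.ne', mul_comm 2 m, _root_.zpow_mul]
  norm_cast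

theorem norm_iot (z : ℂ) (hz : ‖z‖ ^ 2 = (Q : ℝ) ^ (J Q z)) : ‖iot Q w z‖ ^ 2 = (Q : ℝ) ^ (2 * w - J Q z) := by
  rw [iot, norm_zp Q h2 z _ _ hz]
  congr 1
  ring

theorem J_iot (z : ℂ) (hz : ‖z‖ ^ 2 = (Q : ℝ) ^ (J Q z)) : J Q (iot Q w z) = 2 * w - J Q z :=
  J_of Q h2 _ _ (norm_iot Q w h2 z hz)

theorem iot_iot (z : ℂ) (hz : ‖z‖ ^ 2 = (Q : ℝ) ^ (J Q z)) : iot Q w (iot Q w z) = z := by
  have hQ : (Q : ℂ) ≠ 0 := by
    have : Q ≠ 0 := by omega
    exact_mod_cast this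
  rw [iot, J_iot Q w h2 z hz, iot, mul_assoc, ← zpow_add₀ hQ]
  have : w - J Q z + (w - (2 * w - J Q z)) = 0 := by ring
  rw [this, zpow_zero, mul_one]

open Classical in
/-- the counting argument -/
theorem counting (m : Multiset ℂ) (hm : ∀ z ∈ m, ‖z‖ ^ 2 = (Q : ℝ) ^ (J Q z))
    (hd : (m.map fun z => J Q z - w).sum = 0)
    (hle : ∀ (z z' : ℂ) (s : ℕ), ‖z‖ ^ 2 = (Q : ℝ) ^ (w + s + 1) → z' * (Q : ℂ) ^ (s + 1) = z →
      m.count z ≤ m.count z') (z : ℂ) (hz : z ∈ m) (hne : J Q z ≠ w) :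
    m.count z = m.count (iot Q w z) := by
  set Z : Finset ℂ := m.toFinset ∪ m.toFinset.image (iot Q w) with hZ
  have hZn : ∀ z ∈ Z, ‖z‖ ^ 2 = (Q : ℝ) ^ (J Q z) := by
    intro z hz
    rw [hZ, Finset.mem_union, Finset.mem_image] at hz
    rcases hz with hz | ⟨y, hy, rfl⟩
    · exact hm z (Multiset.mem_toFinset.mp hz)
    · have := hm y (Multiset.mem_toFinset.mp hy)
      rw [J_iot Q w h2 y this]
      exact norm_iot Q w h2 y this
  have hZi : ∀ z ∈ Z, iot Q w z ∈ Z := by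
    intro z hz
    rw [hZ, Finset.mem_union, Finset.mem_image] at hz
    rcases hz with hz | ⟨y, hy, rfl⟩
    · exact Finset.mem_union_right _ (Finset.mem_image_of_mem _ hz)
    · rw [iot_iot Q w h2 y (hm y (Multiset.mem_toFinset.mp hy))]
      exact Finset.mem_union_left _ hy
  have hs1 : ∑ z ∈ Z, (J Q z - w) * (m.count z : ℤ) = 0 := by
    rw [Finset.sum_multiset_map_count] at hd
    rw [← hd]
    symm
    rw [← Finset.sum_subset (Finset.subset_union_left : m.toFinset ⊆ Z)]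
    · refine Finset.sum_congr rfl fun z _ => ?_
      rw [nsmul_eq_mul, mul_comm]
    · intro z _ hz
      rw [Multiset.mem_toFinset] at hz
      rw [Multiset.count_eq_zero_of_notMem hz]
      simp
  have hs2 : ∑ z ∈ Z, (J Q z - w) * (m.count (iot Q w z) : ℤ) = 0 := by
    have h : ∑ z ∈ Z, (J Q z - w) * (m.count z : ℤ) =
        ∑ z ∈ Z, (J Q (iot Q w z) - w) * (m.count (iot Q w z) : ℤ) := by
      refine Finset.sum_nbij' (iot Q w) (iot Q w) hZi hZi ?_ ?_ ?_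
      · intro z hz
        exact iot_iot Q w h2 z (hZn z hz)
      · intro z hz
        exact iot_iot Q w h2 z (hZn z hz)
      · intro z hz
        rw [iot_iot Q w h2 z (hZn z hz)]
    rw [hs1] at h
    have h' : ∑ z ∈ Z, (J Q z - w) * (m.count (iot Q w z) : ℤ) =
        - ∑ z ∈ Z, (J Q (iot Q w z) - w) * (m.count (iot Q w z) : ℤ) := by
      rw [← Finset.sum_neg_distrib]
      refine Finset.sum_congr rfl fun z hz => ?_
      rw [J_iot Q w h2 z (hZn z hz)]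
      ring
    rw [h', ← h, neg_zero]
  -- the inequality
  have hle' : ∀ z ∈ Z, 0 < J Q z - w → m.count z ≤ m.count (iot Q w z) := by
    intro z hz hpos
    obtain ⟨s, hs⟩ := Int.eq_ofNat_of_zero_le (show 0 ≤ J Q z - w - 1 by omega)
    refine hle z _ s ?_ ?_
    · rw [hZn z hz]
      congr 1
      omega
    · have hQ : (Q : ℂ) ≠ 0 := by
        have : Q ≠ 0 := by omega
        exact_mod_cast this
      rw [iot, mul_assoc, ← zpow_natCast, ← zpow_add₀ hQ]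
      have : w - J Q z + ((s + 1 : ℕ) : ℤ) = 0 := by push_cast; omega
      rw [this, zpow_zero, mul_one]
  have hnp : ∀ z ∈ Z, (J Q z - w) * ((m.count z : ℤ) - (m.count (iot Q w z) : ℤ)) ≤ 0 := by
    intro z hz
    rcases lt_trichotomy (J Q z - w) 0 with h | h | h
    · have h1 := hle' _ (hZi z hz) (by rw [J_iot Q w h2 z (hZn z hz)]; omega)
      rw [iot_iot Q w h2 z (hZn z hz)] at h1
      have h3 : (m.count (iot Q w z) : ℤ) ≤ m.count z := by exact_mod_cast h1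
      exact mul_nonpos_of_nonpos_of_nonneg h.le (by omega)
    · rw [h, zero_mul]
    · have h1 := hle' z hz h
      have h3 : (m.count z : ℤ) ≤ m.count (iot Q w z) := by exact_mod_cast h1
      exact mul_nonpos_of_nonneg_of_nonpos h.le (by omega)
  have hs3 : ∑ z ∈ Z, (J Q z - w) * ((m.count z : ℤ) - (m.count (iot Q w z) : ℤ)) = 0 := by
    simp only [mul_sub, Finset.sum_sub_distrib, hs1, hs2, sub_zero]
  have h4 := (Finset.sum_eq_zero_iff_of_nonpos hnp).mp hs3 z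
    (Finset.mem_union_left _ (Multiset.mem_toFinset.mpr hz))
  rcases mul_eq_zero.mp h4 with h | h
  · omega
  · omega

end count

section final

variable (a ν : End ℂ V) (Q : ℕ) (w : ℤ) (h2 : 2 ≤ Q) (hc : ν * a = (Q : ℂ) • (a * ν))
  (hi : ∀ (z : ℂ) (x : V) (i : ℕ), x ≠ 0 → a x = z • x → (ν ^ (i + 1)) x = 0 →
    ∃ j : ℤ, j ≤ w + i ∧ ‖z‖ ^ 2 = (Q : ℝ) ^ j)
  (hr : ∀ z ∈ a.charpoly.roots, ‖z‖ ^ 2 = (Q : ℝ) ^ (J Q z))
  (hd : (a.charpoly.roots.map fun z => J Q z - w).sum = 0)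

include h2 hc hi hr hd

/-- `ν : V(z' Q) → V(z')` is onto when the weight of `z'` is `≤ w - 2` -/
theorem onto (z' : ℂ) (hz' : ‖z'‖ ^ 2 ≤ (Q : ℝ) ^ (w - 2)) (y : V) (hy : y ∈ a.maxGenEigenspace z') :
    ∃ x ∈ a.maxGenEigenspace (z' * Q), ν x = y := by
  classical
  by_cases hy0 : y = 0
  · exact ⟨0, Submodule.zero_mem _, by rw [map_zero, hy0]⟩
  have hz : z' ∈ a.charpoly.roots := by
    rw [← Multiset.count_pos, ← finrank_gen]
    rw [Module.finrank_pos_iff_exists_ne_zero]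
    exact ⟨⟨y, hy⟩, fun h => hy0 (congrArg Subtype.val h)⟩
  have h1 := hr z' hz
  have hQ1 : (1 : ℝ) < Q := by
    have : 1 < Q := by omega
    exact_mod_cast this
  have hj : J Q z' ≤ w - 2 := by
    rw [h1] at hz'
    exact (zpow_le_zpow_iff_right₀ hQ1).mp hz'
  obtain ⟨s, hs⟩ := Int.eq_ofNat_of_zero_le (show 0 ≤ w - J Q z' - 1 by omega)
  have hQc : (Q : ℂ) ≠ 0 := Qc a ν Q w h2 hc hi
  have hle : ∀ (z z' : ℂ) (s : ℕ), ‖z‖ ^ 2 = (Q : ℝ) ^ (w + s + 1) → z' * (Q : ℂ) ^ (s + 1) = z →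
      a.charpoly.roots.count z ≤ a.charpoly.roots.count z' := by
    intro z z' s hz hz'
    rw [← finrank_gen, ← finrank_gen]
    exact le_dim a ν Q w h2 hc hi z z' s hz hz'
  have hcnt := counting Q w h2 a.charpoly.roots hr hd hle z' hz (by omega)
  have hio : iot Q w z' = z' * (Q : ℂ) ^ (s + 1) := by
    rw [iot, ← zpow_natCast]
    congr 2
    push_cast
    omega
  obtain ⟨x, hx, hxy⟩ := surj a ν Q w h2 hc hi (iot Q w z') z' s
    (by rw [norm_iot Q w h2 z' h1]; congr 1; omega) hio.symm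
    (by rw [finrank_gen, finrank_gen]; exact hcnt.symm) y hy
  refine ⟨(ν ^ s) x, map_gen a ν Q hQc hc s (iot Q w z') _ (by rw [hio]; ring) x hx, ?_⟩
  rw [← hxy, pow_succ', Module.End.mul_apply]

/-- the part of `ker ν` in a generalized eigenspace -/
theorem ker_part (z : ℂ) (hz : ‖z‖ ^ 2 ≤ (Q : ℝ) ^ w) :
    finrank ℂ (a.maxGenEigenspace z) = finrank ℂ (LinearMap.ker ν ⊓ a.maxGenEigenspace z : Submodule ℂ V) +
      finrank ℂ (a.maxGenEigenspace (z / Q)) := by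
  have hQc : (Q : ℂ) ≠ 0 := Qc a ν Q w h2 hc hi
  have hQr := Qr Q h2
  refine rank_null a ν z (z / Q) ?_ ?_
  · intro x hx
    have := map_gen a ν Q hQc hc 1 z (z / Q) (by field_simp) x hx
    rwa [pow_one] at this
  · intro y hy
    obtain ⟨x, hx, hxy⟩ := onto a ν Q w h2 hc hi hr hd (z / Q) (by
      rw [norm_div, div_pow, Complex.norm_natCast, div_le_iff₀ (by positivity)]
      rw [zpow_sub₀ hQr.ne']
      refine hz.trans (le_of_eq ?_)
      rw [div_mul_eq_mul_div, eq_div_iff (by positivity)]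
      norm_cast) y hy
    rw [div_mul_cancel₀ _ hQc] at hx
    exact ⟨x, hx, hxy⟩

omit hr hd in
theorem ker_part' (z : ℂ) (hz : ¬ ‖z‖ ^ 2 ≤ (Q : ℝ) ^ w) :
    finrank ℂ (LinearMap.ker ν ⊓ a.maxGenEigenspace z : Submodule ℂ V) = 0 := by
  rw [Submodule.finrank_eq_zero, Submodule.eq_bot_iff]
  rintro x ⟨hx1, hx2⟩
  by_contra hx0
  obtain ⟨y, hy0, hy1, hy2⟩ := exists_eig a ν Q hc 1 z x hx2 hx0 (by rw [pow_one]; exact hx1)
  obtain ⟨j, hj, hj2⟩ := hi z y 0 hy0 hy1 (by simpa using hy2)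
  apply hz
  rw [hj2]
  have hQ1 : (1 : ℝ) ≤ Q := by
    have : 1 ≤ Q := by omega
    exact_mod_cast this
  exact zpow_le_zpow_right₀ hQ1 (by simpa using hj)

open Classical in
theorem trace_ker (hK : ∀ x ∈ LinearMap.ker ν, a x ∈ LinearMap.ker ν) :
    LinearMap.trace ℂ (LinearMap.ker ν) (a.restrict hK) = SW Q w a.charpoly := by
  have hQc : (Q : ℂ) ≠ 0 := Qc a ν Q w h2 hc hi
  have hQr := Qr Q h2
  rw [Module.End.trace_eq_sum_roots_charpoly_of_splits (IsAlgClosed.splits _), SW]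
  set m := a.charpoly.roots with hm
  set mk := (a.restrict hK).charpoly.roots with hmk
  set S : Finset ℂ := m.toFinset ∪ m.toFinset.image (fun z => z * Q) ∪ mk.toFinset with hS
  have e1 : mk.sum = ∑ z ∈ S, mk.count z • z :=
    Finset.sum_multiset_count_of_subset _ _ Finset.subset_union_right
  have e2 : (m.filter fun z => ‖z‖ ^ 2 ≤ (Q : ℝ) ^ w).sum =
      ∑ z ∈ S, (m.filter fun z => ‖z‖ ^ 2 ≤ (Q : ℝ) ^ w).count z • z := by
    refine Finset.sum_multiset_count_of_subset _ _ ?_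
    intro z hz
    rw [Multiset.mem_toFinset, Multiset.mem_filter] at hz
    exact Finset.mem_union_left _ (Finset.mem_union_left _ (Multiset.mem_toFinset.mpr hz.1))
  have e3 : (m.filter fun z => ‖z‖ ^ 2 ≤ (Q : ℝ) ^ (w - 2)).sum =
      ∑ z ∈ S.image (fun z => z / (Q : ℂ)), (m.filter fun z => ‖z‖ ^ 2 ≤ (Q : ℝ) ^ (w - 2)).count z • z := by
    refine Finset.sum_multiset_count_of_subset _ _ ?_
    intro z hz
    rw [Multiset.mem_toFinset, Multiset.mem_filter] at hz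
    refine Finset.mem_image.mpr ⟨z * Q, ?_, by field_simp⟩
    exact Finset.mem_union_left _ (Finset.mem_union_right _
      (Finset.mem_image_of_mem _ (Multiset.mem_toFinset.mpr hz.1)))
  rw [e1, e2, e3, Finset.sum_image (fun x _ y _ hxy => by
    have h := congrArg (fun t => t * (Q : ℂ)) hxy
    simpa only [div_mul_cancel₀ _ hQc] using h), Finset.mul_sum, ← Finset.sum_sub_distrib]
  refine Finset.sum_congr rfl fun z _ => ?_
  rw [hmk, ← finrank_gen, finrank_gen_restrict, Multiset.count_filter, Multiset.count_filter]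
  have hiff : (‖z / (Q : ℂ)‖ ^ 2 ≤ (Q : ℝ) ^ (w - 2)) ↔ ‖z‖ ^ 2 ≤ (Q : ℝ) ^ w := by
    rw [norm_div, div_pow, Complex.norm_natCast, div_le_iff₀ (by positivity), zpow_sub₀ hQr.ne',
      div_mul_eq_mul_div]
    have : (Q : ℝ) ^ w * (Q : ℝ) ^ 2 / (Q : ℝ) ^ (2 : ℤ) = (Q : ℝ) ^ w := by
      rw [div_eq_iff (by positivity)]
      norm_cast
    rw [this]
  by_cases hP : ‖z‖ ^ 2 ≤ (Q : ℝ) ^ w
  · rw [if_pos hP, if_pos (hiff.mpr hP)]
    have h := ker_part a ν Q w h2 hc hi hr hd z hP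
    rw [finrank_gen, finrank_gen] at h
    rw [hm, h, nsmul_eq_mul, nsmul_eq_mul, nsmul_eq_mul]
    push_cast
    field_simp
    ring
  · rw [if_neg hP, if_neg (fun h => hP (hiff.mp h)), ker_part' a ν Q w h2 hc hi z hP]
    simp

end final

end LinL

theorem norm_prod (Q : ℕ) (h2 : 2 ≤ Q) (m : Multiset ℂ) (hm : ∀ z ∈ m, ‖z‖ ^ 2 = (Q : ℝ) ^ (LinL.J Q z)) :
    ‖m.prod‖ ^ 2 = (Q : ℝ) ^ (m.map (LinL.J Q)).sum := by
  have hQ := LinL.Qr Q h2
  induction m using Multiset.induction_on with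
  | empty => simp
  | cons z m ih =>
    rw [Multiset.prod_cons, norm_mul, mul_pow, ih (fun z hz => hm z (Multiset.mem_cons_of_mem hz)),
      hm z (Multiset.mem_cons_self z m), Multiset.map_cons, Multiset.sum_cons, zpow_add₀ hQ.ne']

theorem LinL.prep (n : ℕ) (A N : Matrix (Fin n) (Fin n) ℂ) (Q : ℕ) (w : ℤ) (h2 : 2 ≤ Q)
    (hN : IsNilpotent N) (hc : N * A = (Q : ℂ) • (A * N))
    (hi : ∀ (z : ℂ) (x : Fin n → ℂ) (i : ℕ), x ≠ 0 → A *ᵥ x = z • x → (N ^ (i + 1)) *ᵥ x = 0 →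
      ∃ j : ℤ, j ≤ w + i ∧ ‖z‖ ^ 2 = (Q : ℝ) ^ j)
    (hdet : ‖A.det‖ ^ 2 = (Q : ℝ) ^ (w * n)) :
    (Matrix.toLin' N : End ℂ (Fin n → ℂ)) * Matrix.toLin' A = (Q : ℂ) • (Matrix.toLin' A * Matrix.toLin' N) ∧
    (∀ (z : ℂ) (x : Fin n → ℂ) (i : ℕ), x ≠ 0 → Matrix.toLin' A x = z • x →
      ((Matrix.toLin' N : End ℂ (Fin n → ℂ)) ^ (i + 1)) x = 0 → ∃ j : ℤ, j ≤ w + i ∧ ‖z‖ ^ 2 = (Q : ℝ) ^ j) ∧
    (∀ z ∈ (Matrix.toLin' A : End ℂ (Fin n → ℂ)).charpoly.roots, ‖z‖ ^ 2 = (Q : ℝ) ^ (LinL.J Q z)) ∧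
    ((Matrix.toLin' A : End ℂ (Fin n → ℂ)).charpoly.roots.map fun z => LinL.J Q z - w).sum = 0 := by
  classical
  set a : End ℂ (Fin n → ℂ) := Matrix.toLin' A with ha
  set ν : End ℂ (Fin n → ℂ) := Matrix.toLin' N with hν
  have hax : ∀ x, a x = A *ᵥ x := fun x => Matrix.toLin'_apply A x
  have hνx : ∀ x, ν x = N *ᵥ x := fun x => Matrix.toLin'_apply N x
  have hc' : ν * a = (Q : ℂ) • (a * ν) := by
    rw [ha, hν, Module.End.mul_eq_comp, Module.End.mul_eq_comp, ← Matrix.toLin'_mul, hc, map_smul,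
      Matrix.toLin'_mul]
  have hpow : ∀ k x, (ν ^ k) x = (N ^ k) *ᵥ x := by
    intro k x
    rw [hν, ← Matrix.toLin'_pow, Matrix.toLin'_apply]
  have hi' : ∀ (z : ℂ) (x : Fin n → ℂ) (i : ℕ), x ≠ 0 → a x = z • x → (ν ^ (i + 1)) x = 0 →
    ∃ j : ℤ, j ≤ w + i ∧ ‖z‖ ^ 2 = (Q : ℝ) ^ j := by
    intro z x i hx h1 h3
    rw [hax] at h1
    rw [hpow] at h3
    exact hi z x i hx h1 h3
  have hr : ∀ z ∈ a.charpoly.roots, ‖z‖ ^ 2 = (Q : ℝ) ^ (LinL.J Q z) := by
    intro z hz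
    obtain ⟨k, hk⟩ := hN
    have h1 : Module.End.HasEigenvalue a z := by
      rw [Module.End.hasEigenvalue_iff_isRoot_charpoly]
      exact Polynomial.isRoot_of_mem_roots hz
    obtain ⟨x, hx⟩ := h1.exists_hasEigenvector
    obtain ⟨j, -, hj⟩ := hi' z x k hx.2 (Module.End.mem_eigenspace_iff.mp hx.1) (by
      rw [hpow, pow_succ, hk, Matrix.zero_mul, Matrix.zero_mulVec])
    rw [LinL.J_of Q h2 z j hj, hj]
  have hch : a.charpoly = A.charpoly := Matrix.charpoly_toLin' A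
  have hd : (a.charpoly.roots.map fun z => LinL.J Q z - w).sum = 0 := by
    have h1 := norm_prod Q h2 _ hr
    rw [hch] at h1 ⊢
    rw [← Matrix.det_eq_prod_roots_charpoly, hdet] at h1
    have hQ1 : (1 : ℝ) < Q := by
      have : 1 < Q := by omega
      exact_mod_cast this
    have h3 : w * n = (A.charpoly.roots.map (LinL.J Q)).sum := zpow_right_injective₀ (by linarith) hQ1.ne' h1
    have h4 : Multiset.card A.charpoly.roots = n := by
      have := (IsAlgClosed.splits A.charpoly).natDegree_eq_card_roots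
      rw [← this, Matrix.charpoly_natDegree_eq_dim, Fintype.card_fin]
    rw [Multiset.sum_map_sub, ← h3, Multiset.map_const', Multiset.sum_replicate, h4, nsmul_eq_mul]
    ring
  exact ⟨hc', hi', hr, hd⟩

theorem lin : S_LIN := by
  intro n A A' N Q w h2 hA hN hc hi hdet E R hE hR
  classical
  obtain ⟨hc', hi', hr, hd⟩ := LinL.prep n A N Q w h2 hN hc hi hdet
  set a : End ℂ (Fin n → ℂ) := Matrix.toLin' A with ha
  set ν : End ℂ (Fin n → ℂ) := Matrix.toLin' N with hν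
  have hax : ∀ x, a x = A *ᵥ x := fun x => Matrix.toLin'_apply A x
  have hνx : ∀ x, ν x = N *ᵥ x := fun x => Matrix.toLin'_apply N x
  have hch : a.charpoly = A.charpoly := Matrix.charpoly_toLin' A
  have hK : ∀ x ∈ LinearMap.ker ν, a x ∈ LinearMap.ker ν := by
    intro x hx
    rw [LinearMap.mem_ker] at hx ⊢
    have := congrArg (fun f : End ℂ (Fin n → ℂ) => f x) hc'
    simp only [Module.End.mul_apply, LinearMap.smul_apply, hx, map_zero, smul_zero] at this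
    exact this
  rw [← hch, ← LinL.trace_ker a ν Q w h2 hc' hi' hr hd hK]
  have hEx : ∀ x, N *ᵥ x = 0 → E *ᵥ x = x := by
    intro x hx
    have h := congrArg (fun M : Matrix (Fin n) (Fin n) ℂ => M *ᵥ x) hR
    simp only [Matrix.sub_mulVec, Matrix.one_mulVec, ← Matrix.mulVec_mulVec, hx, Matrix.mulVec_zero] at h
    exact (sub_eq_zero.mp h).symm
  have hmem : ∀ x, (Matrix.toLin' (A * E)) x ∈ LinearMap.ker ν := by
    intro x
    rw [Matrix.toLin'_apply, ← Matrix.mulVec_mulVec, ← hax]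
    refine hK _ ?_
    rw [LinearMap.mem_ker, hνx, Matrix.mulVec_mulVec, hE, Matrix.zero_mulVec]
  rw [← Matrix.trace_toLin'_eq (A * E), ← LinearMap.trace_restrict_eq_of_forall_mem (LinearMap.ker ν)
    (Matrix.toLin' (A * E)) hmem]
  congr 1
  ext1 x
  apply Subtype.ext
  rw [LinearMap.restrict_apply, LinearMap.restrict_apply]
  show Matrix.toLin' (A * E) (x : Fin n → ℂ) = a x
  rw [Matrix.toLin'_apply, ← Matrix.mulVec_mulVec, hEx _ (by rw [← hνx]; exact x.2), hax]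

end Pool.Agent.Helper3K9.EW
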