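import Pool.Agent.Helper3K9.EW.Stm

set_option autoImplicit false

namespace Pool.Agent.Helper3K9.EW
open Polynomial Module Matrix

namespace LognL

/-- the binomial polynomial -/
noncomputable def B (j : ℕ) : ℂ[X] := C ((j.factorial : ℂ)⁻¹) * descPochhammer ℂ j

theorem B_eval (j m : ℕ) : (B j).eval (m : ℂ) = (m.choose j : ℂ) := by
  rw [B, eval_mul, eval_C, descPochhammer_eval_eq_descFactorial, Nat.descFactorial_eq_factorial_mul_choose]
  push_cast
  have : (j.factorial : ℂ) ≠ 0 := by exact_mod_cast j.factorial_ne_zero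
  field_simp

theorem B_zero : (B 0).coeff 1 = 0 := by
  simp [B, Polynomial.coeff_one]

theorem B_one : (B 1).coeff 1 = 1 := by
  simp [B]

theorem pow_eq {n : ℕ} (M : Matrix (Fin n) (Fin n) ℂ) (k : ℕ) (hk : M ^ k = 0) (m : ℕ) :
    (1 + M) ^ m = ∑ j ∈ Finset.range k, (m.choose j : ℂ) • M ^ j := by
  rw [add_comm, (Commute.one_right M).add_pow]
  simp only [one_pow, mul_one]
  have e1 : ∀ K, m + 1 ≤ K → ∑ j ∈ Finset.range (m + 1), M ^ j * (m.choose j : Matrix (Fin n) (Fin n) ℂ) =
      ∑ j ∈ Finset.range K, (m.choose j : ℂ) • M ^ j := by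
    intro K hK
    rw [← Finset.sum_subset (Finset.range_subset_range.mpr hK)]
    · refine Finset.sum_congr rfl fun j _ => ?_
      rw [Nat.cast_smul_eq_nsmul, nsmul_eq_mul, (Nat.cast_commute _ _).eq]
    · intro j _ hj
      rw [Finset.mem_range, not_lt] at hj
      rw [Nat.choose_eq_zero_of_lt (by omega)]
      simp
  have e2 : ∀ K, k ≤ K → ∑ j ∈ Finset.range k, (m.choose j : ℂ) • M ^ j =
      ∑ j ∈ Finset.range K, (m.choose j : ℂ) • M ^ j := by
    intro K hK
    refine Finset.sum_subset (Finset.range_subset_range.mpr hK) ?_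
    intro j _ hj
    rw [Finset.mem_range, not_lt] at hj
    rw [pow_eq_zero_of_le hj hk, smul_zero]
  rw [e1 (max (m + 1) k) (le_max_left _ _), e2 (max (m + 1) k) (le_max_right _ _)]

end LognL

open LognL in
theorem logn : S_LOGN := by
  intro n T Y Y' Q hT hY hY' hr
  obtain ⟨k, hk⟩ := hT
  set M := T - 1 with hM
  have hTM : T = 1 + M := by rw [hM]; abel
  set u : Matrix (Fin n) (Fin n) ℂ := ∑ j ∈ Finset.range (k + 1), (B (j + 1)).coeff 1 • M ^ j with hu
  have hk1 : M ^ (k + 2) = 0 := pow_eq_zero_of_le (by omega) hk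
  have hMu : M * u = ∑ j ∈ Finset.range (k + 2), (B j).coeff 1 • M ^ j := by
    rw [Finset.sum_range_succ', B_zero, zero_smul, add_zero, hu, Finset.mul_sum]
    refine Finset.sum_congr rfl fun j _ => ?_
    rw [mul_smul_comm, ← pow_succ']
  have hcom : Commute M u := by
    rw [hu]
    refine Commute.sum_right _ _ _ fun j _ => ?_
    exact ((Commute.refl M).pow_right j).smul_right _
  have hunit : IsUnit u := by
    rw [hu, Finset.sum_range_succ', B_one, one_smul, pow_zero, add_comm]
    have h1 : ∑ j ∈ Finset.range k, (B (j + 1 + 1)).coeff 1 • M ^ (j + 1) =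
        M * ∑ j ∈ Finset.range k, (B (j + 1 + 1)).coeff 1 • M ^ j := by
      rw [Finset.mul_sum]
      refine Finset.sum_congr rfl fun j _ => ?_
      rw [mul_smul_comm, ← pow_succ']
    rw [h1]
    refine IsNilpotent.isUnit_one_add ?_
    refine Commute.isNilpotent_mul_right (h_comm := ?_) ⟨k, hk⟩
    refine Commute.sum_right _ _ _ fun j _ => ?_
    exact ((Commute.refl M).pow_right j).smul_right _
  obtain ⟨U, hU⟩ := hunit
  refine ⟨M * u, u, (U⁻¹ : (Matrix (Fin n) (Fin n) ℂ)ˣ), rfl, by rw [← hU]; exact U.mul_inv, by rw [← hU]; exact U.inv_mul, ?_, ?_⟩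
  · rw [hTM]
    exact (Commute.one_left u).add_left hcom
  · -- comparison of the linear coefficients
    have hconj : ∀ m : ℕ, Y * T ^ m * Y' = T ^ (Q * m) := by
      intro m
      rw [pow_mul, ← hr]
      induction m with
      | zero => rw [pow_zero, mul_one, hY, pow_zero]
      | succ m ih =>
        rw [pow_succ, pow_succ, ← ih]
        calc Y * (T ^ m * T) * Y' = Y * T ^ m * (Y' * Y) * T * Y' := by
              rw [hY', mul_one]; noncomm_ring
          _ = _ := by noncomm_ring
    rw [hMu]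
    ext a b
    set F : ℂ[X] := ∑ j ∈ Finset.range (k + 2), (C ((Y * M ^ j * Y') a b) * B j -
      C ((M ^ j) a b) * (B j).comp (C (Q : ℂ) * X)) with hF
    have hF0 : F = 0 := by
      refine Polynomial.eq_zero_of_infinite_isRoot F ?_
      refine Set.Infinite.mono ?_ (Set.infinite_range_of_injective (Nat.cast_injective (R := ℂ)))
      rintro _ ⟨m, rfl⟩
      show F.IsRoot (m : ℂ)
      have h1 := congrFun (congrFun (hconj m) a) b
      rw [hTM, pow_eq M (k + 2) hk1 m, pow_eq M (k + 2) hk1 (Q * m)] at h1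
      rw [Polynomial.IsRoot, hF, eval_finsetSum]
      simp only [eval_sub, eval_mul, eval_C, eval_comp, eval_X, B_eval]
      have h2 : ∀ j, eval ((Q : ℂ) * (m : ℂ)) (B j) = ((Q * m).choose j : ℂ) := by
        intro j
        rw [← B_eval j (Q * m)]
        push_cast
        rfl
      simp only [h2]
      rw [Finset.sum_sub_distrib, sub_eq_zero]
      rw [Finset.mul_sum, Finset.sum_mul, Matrix.sum_apply, Matrix.sum_apply] at h1
      simp only [mul_smul_comm, smul_mul_assoc, Matrix.smul_apply, smul_eq_mul] at h1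
      simp only [mul_comm _ ((Nat.choose _ _ : ℕ) : ℂ)]
      exact h1
    have h1 : F.coeff 1 = 0 := by rw [hF0, coeff_zero]
    rw [hF, finsetSum_coeff] at h1
    simp only [coeff_sub, coeff_C_mul, comp_C_mul_X_coeff, pow_one] at h1
    rw [Finset.sum_sub_distrib, sub_eq_zero] at h1
    rw [Finset.mul_sum, Finset.sum_mul, Matrix.sum_apply, Matrix.smul_apply, Matrix.sum_apply]
    simp only [mul_smul_comm, smul_mul_assoc, Matrix.smul_apply, smul_eq_mul]
    rw [Finset.mul_sum]
    calc _ = ∑ j ∈ Finset.range (k + 2), (Y * M ^ j * Y') a b * (B j).coeff 1 :=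
          Finset.sum_congr rfl fun j _ => by ring
      _ = _ := h1
      _ = _ := Finset.sum_congr rfl fun j _ => by ring

end Pool.Agent.Helper3K9.EW
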