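import Pool.Agent.Helper3K9.EW.Stm

/-! # EW [MONO] (helper8): Grothendieck's monodromy theorem -/

set_option autoImplicit false

namespace Pool.Agent.Helper3K9.EW

open NumberField Filter Topology IsDedekindDomain Matrix Pool.Agent.W569.FM
open Pool.Agent.W401.Cheb Pool.Agent.R401.Img Pool.Agent.R401.Tr9 Pool.Agent.R401.Tr3
open Pool.Agent.R401.Tr5

/-- the eigenvalues of a matrix which is conjugate to its `q`-th power are roots of unity of order
dividing `(q ^ n)!` -/
theorem root_of_unity {n q : ℕ} (hq : 2 ≤ q) {A A' Y Y' : Matrix (Fin n) (Fin n) ℂ}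
    (hA : A * A' = 1) (h1 : Y * Y' = 1) (h2 : Y' * Y = 1) (h : Y * A * Y' = A ^ q) :
    ∀ z ∈ A.charpoly.roots, z ^ (q ^ n).factorial = 1 := by
  classical
  have hch0 : A.charpoly ≠ 0 := A.charpoly_monic.ne_zero
  have hspec : ∀ z : ℂ, z ∈ spectrum ℂ A ↔ z ∈ A.charpoly.roots := by
    intro z
    rw [Polynomial.mem_roots hch0, Matrix.mem_spectrum_iff_isRoot_charpoly]
  have hstep : ∀ z ∈ A.charpoly.roots, z ^ q ∈ A.charpoly.roots := by
    intro z hz
    rw [← hspec] at hz ⊢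
    have h3 : z ^ q ∈ spectrum ℂ (A ^ q) := spectrum.pow_mem_pow A q hz
    rw [← h] at h3
    have h4 := spectrum.units_conjugate (R := ℂ) (a := A) (u := ⟨Y, Y', h1, h2⟩)
    exact h4 ▸ h3
  have hpow : ∀ z ∈ A.charpoly.roots, ∀ a : ℕ, z ^ (q ^ a) ∈ A.charpoly.roots := by
    intro z hz a
    induction a with
    | zero => rwa [pow_zero, pow_one]
    | succ a ih => rw [pow_succ, pow_mul]; exact hstep _ ih
  intro z hz
  have hz0 : z ≠ 0 := by
    rintro rfl
    have h3 := (hspec 0).2 hz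
    rw [spectrum.zero_mem_iff] at h3
    exact h3 ⟨⟨A, A', hA, mul_eq_one_comm.1 hA⟩, rfl⟩
  have hcard : A.charpoly.roots.toFinset.card < (Finset.range (n + 1)).card := by
    rw [Finset.card_range]
    have h3 := A.charpoly.roots.toFinset_card_le
    have h4 := A.charpoly.card_roots'
    rw [A.charpoly_natDegree_eq_dim, Fintype.card_fin] at h4
    omega
  obtain ⟨a, ha, b, hb, hab, heq⟩ := Finset.exists_ne_map_eq_of_card_lt_of_maps_to hcard
    (f := fun a => z ^ (q ^ a)) (fun a _ => Multiset.mem_toFinset.2 (hpow z hz a))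
  have main : ∀ a b : ℕ, a < b → b < n + 1 → z ^ (q ^ a) = z ^ (q ^ b) →
      z ^ (q ^ n).factorial = 1 := by
    intro a b hab hb heq
    have hlt : q ^ a < q ^ b := Nat.pow_lt_pow_right (by omega) hab
    have h3 : z ^ (q ^ b - q ^ a) = 1 := by
      have h4 : z ^ (q ^ a) * z ^ (q ^ b - q ^ a) = z ^ (q ^ a) * 1 := by
        rw [← pow_add, Nat.add_sub_cancel' hlt.le, mul_one, heq]
      exact mul_left_cancel₀ (pow_ne_zero _ hz0) h4
    have h4 : q ^ b - q ^ a ∣ (q ^ n).factorial := by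
      apply Nat.dvd_factorial (by omega)
      have h5 : q ^ b ≤ q ^ n := Nat.pow_le_pow_right (by omega) (by omega)
      omega
    obtain ⟨c, hc⟩ := h4
    rw [hc, pow_mul, h3, one_pow]
  rw [Finset.mem_range] at ha hb
  rcases lt_or_gt_of_ne hab with h3 | h3
  · exact main a b h3 hb heq
  · exact main b a h3 ha heq.symm

theorem finite_sums (n L : ℕ) (hL : 0 < L) :
    {t : ℂ | ∃ l : List ℂ, l.length = n ∧ (∀ z ∈ l, z ^ L = 1) ∧ l.sum = t}.Finite := by
  have hZ : {z : ℂ | z ^ L = 1}.Finite := by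
    refine (Polynomial.nthRoots L (1 : ℂ)).toFinset.finite_toSet.subset fun z hz => ?_
    rw [Finset.mem_coe, Multiset.mem_toFinset, Polynomial.mem_nthRoots hL]
    exact hz
  have : Finite {z : ℂ // z ^ L = 1} := hZ
  refine ((List.finite_length_eq {z : ℂ // z ^ L = 1} n).image
    fun l => (l.map Subtype.val).sum).subset ?_
  rintro t ⟨l, hl, hl1, rfl⟩
  lift l to List {z : ℂ // z ^ L = 1} using hl1
  rw [List.length_map] at hl
  exact ⟨l, hl, rfl⟩

theorem mono : S_MONO := by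
  intro K _ _ ℓ _ n ρ hρ P hP hℓP q σ hq hσ
  have hmc : Continuous (mh ρ) := Pool.Agent.R401.Sup.continuous_mt ρ hρ
  obtain ⟨H, hHn, hHo, hH⟩ := exists_small (mh ρ) hmc
  obtain ⟨l, hl, hlP⟩ := Pool.Agent.R703.FM.exists_prime_mem P hP
  have hne : ℓ ≠ l := by
    rintro rfl
    exact hℓP hlP
  obtain ⟨iso⟩ := Pool.Agent.R401.Iso.exists_iso ℓ
  set e : ℚ_[ℓ] →+* ℂ := iso.toRingHom.comp (algebraMap ℚ_[ℓ] (PadicAlgCl ℓ)) with he
  set L : ℕ := (q ^ n).factorial with hL
  have hL0 : 0 < L := Nat.factorial_pos _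
  set F : Set ℂ := {t : ℂ | ∃ l : List ℂ, l.length = n ∧ (∀ z ∈ l, z ^ L = 1) ∧ l.sum = t} with hF
  have hFf : F.Finite := finite_sums n L hL0
  have htrF : ∀ τ ∈ H, InInertia P τ → e (mt ρ τ).trace ∈ F := by
    intro τ hτH hτ
    have hrel := tame_rel' (mh ρ) hmc H hHo hH hl hne (by omega) hP hlP hτH hτ hσ
    rw [mh_apply, mh_apply, mt_mul, mt_mul] at hrel
    have hmul : ∀ x y : GK K, (mt ρ x).map e * (mt ρ y).map e = (mt ρ (x * y)).map e := by
      intro x y
      rw [mt_mul, Matrix.map_mul]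
    have hone : (mt ρ (1 : GK K)).map e = 1 := by
      rw [mt_one, ← RingHom.mapMatrix_apply, map_one]
    have h1 := root_of_unity (n := n) hq (A := (mt ρ τ).map e) (A' := (mt ρ τ⁻¹).map e)
      (Y := (mt ρ σ).map e) (Y' := (mt ρ σ⁻¹).map e)
      (by rw [hmul, mul_inv_cancel, hone]) (by rw [hmul, mul_inv_cancel, hone])
      (by rw [hmul, inv_mul_cancel, hone]) (by
        rw [← Matrix.map_mul, ← Matrix.map_mul, hrel, ← RingHom.mapMatrix_apply,
          ← RingHom.mapMatrix_apply, map_pow])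
    have h2 : ((mt ρ τ).map e).trace = ((mt ρ τ).map e).charpoly.roots.sum :=
      Matrix.trace_eq_sum_roots_charpoly _
    have h3 : ((mt ρ τ).map e).charpoly.roots.card = n := by
      rw [IsAlgClosed.card_roots_eq_natDegree, Matrix.charpoly_natDegree_eq_dim, Fintype.card_fin]
    have h4 : e (mt ρ τ).trace = ((mt ρ τ).map e).trace := by
      rw [Matrix.trace, Matrix.trace, map_sum]
      rfl
    rw [h4, h2]
    obtain ⟨l, hl⟩ := Quot.exists_rep ((mt ρ τ).map e).charpoly.roots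
    have hl' : ((l : Multiset ℂ)) = ((mt ρ τ).map e).charpoly.roots := hl
    refine ⟨l, ?_, ?_, ?_⟩
    · rw [← Multiset.coe_card, hl', h3]
    · intro z hz
      apply h1
      rw [← hl']
      exact hz
    · rw [← Multiset.sum_coe, hl']
  -- the open subgroup
  set Y : Set ℚ_[ℓ] := {t | e t ∈ F ∧ t ≠ n} with hY
  have hYf : Y.Finite := (hFf.preimage e.injective.injOn).subset fun t ht => ht.1
  have h1 : {x : GK K | (mt ρ x).trace ∉ Y} ∈ 𝓝 (1 : GK K) := by
    have h2 : IsOpen {x : GK K | (mt ρ x).trace ∉ Y} :=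
      hYf.isClosed.isOpen_compl.preimage (Pool.Agent.R401.Sup.continuous_trace ρ hρ)
    apply h2.mem_nhds
    intro h3
    apply h3.2
    rw [mt_one, Matrix.trace_one, Fintype.card_fin]
  obtain ⟨s, hs1, hs2, hs3⟩ := mem_nhds_iff.1 h1
  obtain ⟨U, hUs⟩ := ProfiniteGrp.exist_openNormalSubgroup_sub_open_nhds_of_one hs2 hs3
  have hUn : (U : Subgroup (GK K)).Normal := U.isNormal'
  refine ⟨H ⊓ (U : Subgroup (GK K)), inferInstance, ?_, ?_⟩
  · rw [Subgroup.coe_inf]
    exact hHo.inter U.isOpen'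
  · intro τ hτ hτI
    apply nilp_of_trace
    intro j
    have h2 : τ ^ j ∈ H ⊓ (U : Subgroup (GK K)) := Subgroup.pow_mem _ hτ j
    have h3 : InInertia P (τ ^ j) := (IG P).pow_mem (show τ ∈ IG P from hτI) j
    have h4 := htrF _ h2.1 h3
    have h5 : (mt ρ (τ ^ j)).trace ∉ Y := hs1 (hUs h2.2)
    rw [← mt_pow]
    by_contra hcon
    exact h5 ⟨h4, hcon⟩

end Pool.Agent.Helper3K9.EW
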