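import Pool.Agent.Helper3K9.EW.Stm

set_option autoImplicit false

namespace Pool.Agent.Helper3K9.EW

open Pool.Agent.TH119.MX

theorem rat : S_RAT := by
  intro ℓ _ t s hs
  obtain ⟨e⟩ := Pool.Agent.R401.Iso.exists_iso ℓ
  let e' : ℚ_[ℓ] →+* ℂ := (e : PadicAlgCl ℓ →+* ℂ).comp (algebraMap ℚ_[ℓ] (PadicAlgCl ℓ))
  have hfix : ∀ σ : ℂ ≃+* ℂ, σ s = s := by
    intro σ
    have h1 := hs e'
    have h2 := hs ((σ : ℂ →+* ℂ).comp e')
    rw [RingHom.comp_apply, h1] at h2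
    exact h2
  have hmem : s ∈ (⊥ : Subfield ℂ) := by
    by_contra hcon
    obtain ⟨σ, -, hσ⟩ := exists_move (F := (⊥ : Subfield ℂ)) hcon
    exact hσ (hfix σ)
  obtain ⟨r, hr⟩ : ∃ r : ℚ, (r : ℂ) = s := by
    have h3 : (⊥ : Subfield ℂ) = (Rat.castHom ℂ).fieldRange :=
      le_antisymm bot_le (by
        rintro _ ⟨r, rfl⟩
        exact SubfieldClass.ratCast_mem _ r)
    rw [h3] at hmem
    obtain ⟨r, hr⟩ := hmem
    exact ⟨r, hr⟩
  refine ⟨r, ?_, hr.symm⟩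
  apply e'.injective
  rw [hs e', map_ratCast, hr]

end Pool.Agent.Helper3K9.EW
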