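import Pool.Agent.Helper3K9.EW.Stm

/-!
# EW [SSC]
-/

set_option autoImplicit false

namespace Pool.Agent.Helper3K9.EW

open Matrix Module Pool.Agent.R401.Img

/-- a matrix with vanishing traces of powers is nilpotent -/
theorem SscL.nilp_tr {k : Type*} [Field k] [CharZero k] {ι : Type*} [Fintype ι] [DecidableEq ι]
    {A : Matrix ι ι k} (h : ∀ j : ℕ, (A ^ (j + 1)).trace = 0) : IsNilpotent A := by
  have h1 : IsNilpotent ((Matrix.toLinAlgEquiv' : Matrix ι ι k ≃ₐ[k] _) A) := by
    refine Pool.Agent.R401.Burn.isNilpotent_of_trace_pow (fun m hm _ => ?_) _ (fun r => ?_)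
    · exact_mod_cast hm.ne'
    · rw [← map_pow]
      have := h r
      rwa [← Matrix.trace_toLin'_eq] at this
  exact (IsNilpotent.map_iff (Matrix.toLinAlgEquiv' : Matrix ι ι k ≃ₐ[k] _).injective).1 h1

theorem SscL.mt_one {k : Type*} [Field k] {n : ℕ} {G : Type*} [Group G] (ρ : G →* GL (Fin n) k) :
    mt ρ 1 = 1 := by
  change ((ρ 1 : GL (Fin n) k) : Matrix (Fin n) (Fin n) k) = 1
  rw [map_one, Units.val_one]

/-- step 1: over `E` -/
theorem SscL.ssc1 {G : Type} [Group G] (U : Subgroup G) [hU : U.Normal] [U.FiniteIndex]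
    {E : Type} [Field E] [CharZero E] {m : ℕ} (ρ : G →* GL (Fin m) E) (hss : SS ρ)
    {a : Matrix (Fin m) (Fin m) E} (ha : a ∈ Submodule.span E (Set.range fun y : U => mt ρ (y : G)))
    (htr : ∀ y : U, (a * mt ρ (y : G)).trace = 0) : a = 0 := by
  classical
  set S : Submodule E (Matrix (Fin m) (Fin m) E) :=
    Submodule.span E (Set.range fun y : U => mt ρ (y : G)) with hS
  have hmem : ∀ y : G, y ∈ U → mt ρ y ∈ S := fun y hy => Submodule.subset_span ⟨⟨y, hy⟩, rfl⟩
  -- the trace form vanishes on `S`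
  have hz : ∀ a : Matrix (Fin m) (Fin m) E, (∀ y : U, (a * mt ρ (y : G)).trace = 0) →
      ∀ s ∈ S, (a * s).trace = 0 := by
    intro a ha s hs
    induction hs using Submodule.span_induction with
    | mem x hx => obtain ⟨y, rfl⟩ := hx; exact ha y
    | zero => simp
    | add x y _ _ hx hy => rw [mul_add, Matrix.trace_add, hx, hy, add_zero]
    | smul c x _ hx => rw [mul_smul_comm, Matrix.trace_smul, hx, smul_zero]
  have hmulr : ∀ s ∈ S, ∀ y ∈ U, s * mt ρ y ∈ S := by
    intro s hs y hy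
    induction hs using Submodule.span_induction with
    | mem x hx =>
      obtain ⟨z, rfl⟩ := hx
      change mt ρ (z : G) * mt ρ y ∈ S
      rw [← mt_mul]
      exact hmem _ (U.mul_mem z.2 hy)
    | zero => rw [zero_mul]; exact S.zero_mem
    | add x y _ _ hx hy => rw [add_mul]; exact S.add_mem hx hy
    | smul c x _ hx => rw [smul_mul_assoc]; exact S.smul_mem _ hx
  have hmul : ∀ s ∈ S, ∀ t ∈ S, s * t ∈ S := by
    intro s hs t ht
    induction ht using Submodule.span_induction with
    | mem x hx => obtain ⟨z, rfl⟩ := hx; exact hmulr s hs _ z.2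
    | zero => rw [mul_zero]; exact S.zero_mem
    | add x y _ _ hx hy => rw [mul_add]; exact S.add_mem hx hy
    | smul c x _ hx => rw [mul_smul_comm]; exact S.smul_mem _ hx
  have hconj : ∀ s ∈ S, ∀ g : G, mt ρ g * s * mt ρ g⁻¹ ∈ S := by
    intro s hs g
    induction hs using Submodule.span_induction with
    | mem x hx =>
      obtain ⟨z, rfl⟩ := hx
      change mt ρ g * mt ρ (z : G) * mt ρ g⁻¹ ∈ S
      rw [← mt_mul, ← mt_mul]
      exact hmem _ (hU.conj_mem z.1 z.2 g)
    | zero => rw [mul_zero, zero_mul]; exact S.zero_mem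
    | add x y _ _ hx hy => rw [mul_add, add_mul]; exact S.add_mem hx hy
    | smul c x _ hx => rw [mul_smul_comm, smul_mul_assoc]; exact S.smul_mem _ hx
  -- the radical
  let N : Matrix (Fin m) (Fin m) E → Prop := fun a => a ∈ S ∧ ∀ y : U, (a * mt ρ (y : G)).trace = 0
  have hNr : ∀ a s, N a → s ∈ S → N (a * s) := by
    rintro a s ⟨h1, h2⟩ hs
    refine ⟨hmul _ h1 _ hs, fun y => ?_⟩
    rw [mul_assoc]
    exact hz a h2 _ (hmulr _ hs _ y.2)
  have hNl : ∀ a s, N a → s ∈ S → N (s * a) := by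
    rintro a s ⟨h1, h2⟩ hs
    refine ⟨hmul _ hs _ h1, fun y => ?_⟩
    rw [mul_assoc, Matrix.trace_mul_comm, mul_assoc]
    exact hz a h2 _ (hmul _ (hmem _ y.2) _ hs)
  have hNc : ∀ a g, N a → N (mt ρ g * a * mt ρ g⁻¹) := by
    rintro a g ⟨h1, h2⟩
    refine ⟨hconj _ h1 _, fun y => ?_⟩
    rw [mul_assoc, ← mt_mul, mul_assoc, Matrix.trace_mul_comm, mul_assoc, ← mt_mul]
    have h3 := h2 ⟨g⁻¹ * y * g, by
      have := hU.conj_mem y.1 y.2 g⁻¹
      rwa [inv_inv] at this⟩
    exact h3
  have hnil : ∀ a, N a → IsNilpotent a := by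
    rintro a ⟨h1, h2⟩
    apply SscL.nilp_tr
    intro j
    have h3 : ∀ j : ℕ, a ^ j ∈ S := by
      intro j
      induction j with
      | zero =>
        rw [pow_zero, ← SscL.mt_one ρ]
        exact hmem _ U.one_mem
      | succ j ih => rw [pow_succ]; exact hmul _ ih _ h1
    rw [pow_succ']
    exact hz a h2 _ (h3 j)
  have hpow : ∀ (g : G) (r : ℕ), ∃ b, N b ∧ (a * mt ρ g) ^ (r + 1) = b * mt ρ (g ^ (r + 1)) := by
    intro g r
    induction r with
    | zero => exact ⟨a, ⟨ha, htr⟩, by rw [zero_add, pow_one, pow_one]⟩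
    | succ r ih =>
      obtain ⟨b, hb, hbe⟩ := ih
      refine ⟨a * (mt ρ g * b * mt ρ g⁻¹), hNr _ _ ⟨ha, htr⟩ (hNc b g hb).1, ?_⟩
      rw [pow_succ' (a * mt ρ g), hbe, pow_succ' g (r + 1), mt_mul ρ g (g ^ (r + 1))]
      have h4 : mt ρ g⁻¹ * mt ρ g = 1 := by rw [← mt_mul, inv_mul_cancel, SscL.mt_one]
      calc a * mt ρ g * (b * mt ρ (g ^ (r + 1))) = a * (mt ρ g * b) * (1 * mt ρ (g ^ (r + 1))) := by
            simp only [mul_assoc, one_mul]
        _ = a * (mt ρ g * b * mt ρ g⁻¹) * (mt ρ g * mt ρ (g ^ (r + 1))) := by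
            rw [← h4]
            simp only [mul_assoc]
  have hall : ∀ g : G, (a * mt ρ g).trace = 0 := by
    intro g
    have h1 : U.index ≠ 0 := Subgroup.FiniteIndex.index_ne_zero
    obtain ⟨r, hr⟩ := Nat.exists_eq_succ_of_ne_zero h1
    obtain ⟨b, hb, hbe⟩ := hpow g r
    have h2 : g ^ (r + 1) ∈ U := by
      have := U.pow_index_mem g
      rwa [hr] at this
    have h3 : IsNilpotent ((a * mt ρ g) ^ (r + 1)) := by
      rw [hbe]
      exact hnil _ (hNr _ _ hb (hmem _ h2))
    have h4 : IsNilpotent (a * mt ρ g) := by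
      obtain ⟨N, hN⟩ := h3
      exact ⟨(r + 1) * N, by rw [pow_mul, hN]⟩
    have h5 := Matrix.isNilpotent_trace_of_isNilpotent h4
    exact h5.eq_zero
  have hfin := Pool.Agent.R401.Burn.eq_zero_of_trace (k := E) (V := Fin m → E) (G := G)
    (fun j hj _ => by exact_mod_cast hj.ne') (act ρ) (fun W hW => hss.act W hW)
    (x := (Matrix.toLinAlgEquiv' : Matrix (Fin m) (Fin m) E ≃ₐ[E] _) a) (by
      have h1 : S ≤ Submodule.comap (Matrix.toLinAlgEquiv' : Matrix (Fin m) (Fin m) E ≃ₐ[E]
          _).toLinearMap (Submodule.span E (Set.range (act ρ))) := by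
        rw [hS, Submodule.span_le]
        rintro _ ⟨y, rfl⟩
        exact Submodule.subset_span ⟨(y : G), rfl⟩
      exact h1 ha) (by
      intro g
      rw [act_apply, ← map_mul]
      have := hall g
      rwa [← Matrix.trace_toLin'_eq] at this)
  exact (Matrix.toLinAlgEquiv' : Matrix (Fin m) (Fin m) E ≃ₐ[E] _).injective
    (hfin.trans (map_zero _).symm)

theorem ssc : S_SSC := by
  intro G _ U _ _ E _ _ m ρ hss F _ e b hb htr
  classical
  obtain ⟨B, hBsub, hBspan, hBli⟩ := exists_linearIndependent E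
    (Set.range fun y : U => mt ρ (y : G))
  have hBfin : B.Finite := hBli.setFinite
  have : Fintype B := hBfin.fintype
  let Γ : Matrix B B E := fun i j => ((i : Matrix (Fin m) (Fin m) E) * (j : Matrix (Fin m) (Fin m) E)).trace
  have hΓ : Γ.det ≠ 0 := by
    intro h0
    obtain ⟨c, hc, hc0⟩ := Matrix.exists_vecMul_eq_zero_iff.2 h0
    apply hc
    set a : Matrix (Fin m) (Fin m) E := ∑ i, c i • (i : Matrix (Fin m) (Fin m) E) with ha
    have h1 : a ∈ Submodule.span E (Set.range fun y : U => mt ρ (y : G)) := by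
      rw [ha]
      refine Submodule.sum_mem _ fun i _ => Submodule.smul_mem _ _ ?_
      exact Submodule.subset_span (hBsub i.2)
    have h2 : ∀ j : B, (a * (j : Matrix (Fin m) (Fin m) E)).trace = 0 := by
      intro j
      have h3 := congrFun hc0 j
      rw [ha, Finset.sum_mul, Matrix.trace_sum]
      simp only [Matrix.vecMul, dotProduct, Pi.zero_apply] at h3
      rw [← h3]
      refine Finset.sum_congr rfl fun i _ => ?_
      rw [smul_mul_assoc, Matrix.trace_smul, smul_eq_mul]
    have h3 : a = 0 := by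
      apply SscL.ssc1 U ρ hss h1
      intro y
      have h4 : mt ρ (y : G) ∈ Submodule.span E B := by
        rw [hBspan]
        exact Submodule.subset_span ⟨y, rfl⟩
      generalize mt ρ (y : G) = z at h4 ⊢
      induction h4 using Submodule.span_induction with
      | mem x hx => exact h2 ⟨x, hx⟩
      | zero => simp
      | add x y _ _ hx hy => rw [mul_add, Matrix.trace_add, hx, hy, add_zero]
      | smul c x _ hx => rw [mul_smul_comm, Matrix.trace_smul, hx, smul_zero]
    have h4 := Fintype.linearIndependent_iff.1 hBli c (by rw [← h3])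
    funext i
    exact h4 i
  -- the span over `F`
  have hspan : ∀ x ∈ Submodule.span F (Set.range fun y : U => (mt ρ (y : G)).map e),
      ∃ d : B → F, x = ∑ i, d i • (i : Matrix (Fin m) (Fin m) E).map e := by
    intro x hx
    induction hx using Submodule.span_induction with
    | mem x hx =>
      obtain ⟨y, rfl⟩ := hx
      have h4 : mt ρ (y : G) ∈ Submodule.span E (Set.range ((↑) : B → Matrix (Fin m) (Fin m) E)) := by
        rw [Subtype.range_coe, hBspan]
        exact Submodule.subset_span ⟨y, rfl⟩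
      obtain ⟨c, hc⟩ := (Submodule.mem_span_range_iff_exists_fun E).1 h4
      refine ⟨fun i => e (c i), ?_⟩
      change (mt ρ (y : G)).map e = _
      rw [← hc]
      ext i j
      simp [Matrix.map_apply, Matrix.sum_apply, map_sum]
    | zero => exact ⟨0, by simp⟩
    | add x y _ _ hx hy =>
      obtain ⟨d, rfl⟩ := hx
      obtain ⟨d', rfl⟩ := hy
      exact ⟨d + d', by simp only [Pi.add_apply, add_smul, Finset.sum_add_distrib]⟩
    | smul c x _ hx =>
      obtain ⟨d, rfl⟩ := hx
      exact ⟨c • d, by simp only [Pi.smul_apply, smul_eq_mul, Finset.smul_sum, smul_smul]⟩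
  obtain ⟨d, hd⟩ := hspan b hb
  have hΓF : (Γ.map e).det ≠ 0 := by
    have h1 : (Γ.map e).det = e Γ.det := (RingHom.map_det e Γ).symm
    rw [h1]
    exact (map_ne_zero e).2 hΓ
  have hdz : d = 0 := by
    by_contra hd0
    apply hΓF
    apply Matrix.exists_vecMul_eq_zero_iff.1
    refine ⟨d, hd0, ?_⟩
    funext j
    obtain ⟨y, hy⟩ := hBsub j.2
    have h1 := htr y
    have hy' : mt ρ (y : G) = (j : Matrix (Fin m) (Fin m) E) := hy
    rw [hy', hd, Finset.sum_mul, Matrix.trace_sum] at h1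
    simp only [Matrix.vecMul, dotProduct, Pi.zero_apply]
    rw [← h1]
    refine Finset.sum_congr rfl fun i _ => ?_
    rw [smul_mul_assoc, Matrix.trace_smul, smul_eq_mul, ← Matrix.map_mul, Matrix.map_apply]
    congr 1
    change e (trace _) = _
    rw [Matrix.trace, Matrix.trace, map_sum]
    rfl
  rw [hd, hdz]
  simp

end Pool.Agent.Helper3K9.EW
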