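import Pool.Agent.Helper3K9.EW.Stm

set_option autoImplicit false

namespace Pool.Agent.Helper3K9.EW

open NumberField Filter Topology IsDedekindDomain Matrix Polynomial
open Pool.Agent.W569.FM Pool.Agent.W401.Cheb Pool.Agent.R401.Img Pool.Agent.R401.Sup3

namespace TrkL

/-- factorisation of a matrix through another one -/
theorem factor {E : Type} [Field E] {n : ℕ} (S D : Matrix (Fin n) (Fin n) E)
    (h : ∀ x : Fin n → E, S *ᵥ x = 0 → D *ᵥ x = 0) : ∃ R : Matrix (Fin n) (Fin n) E, D = R * S := by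
  classical
  let f := Matrix.toLin' S
  let g := Matrix.toLin' D
  obtain ⟨s, hs⟩ := LinearMap.exists_rightInverse_of_surjective f.rangeRestrict
    (LinearMap.range_eq_top.2 f.surjective_rangeRestrict)
  obtain ⟨H, hH⟩ := LinearMap.exists_extend (g ∘ₗ s)
  refine ⟨LinearMap.toMatrix' H, ?_⟩
  have h1 : g = H ∘ₗ f := by
    refine LinearMap.ext fun x => ?_
    have h2 : f (s (f.rangeRestrict x)) = f x := by
      have h3 := congrArg Subtype.val (LinearMap.congr_fun hs (f.rangeRestrict x))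
      exact h3
    have h3 : H (f x) = g (s (f.rangeRestrict x)) := by
      have h4 := LinearMap.congr_fun hH (f.rangeRestrict x)
      exact h4
    rw [LinearMap.comp_apply, h3]
    have h5 : S *ᵥ (x - s (f.rangeRestrict x)) = 0 := by
      rw [Matrix.mulVec_sub, sub_eq_zero]
      exact h2.symm
    have h6 := h _ h5
    rw [Matrix.mulVec_sub, sub_eq_zero] at h6
    exact h6
  have h2 : LinearMap.toMatrix' g = LinearMap.toMatrix' H * LinearMap.toMatrix' f := by
    rw [h1, LinearMap.toMatrix'_comp]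
  rw [LinearMap.toMatrix'_toLin', LinearMap.toMatrix'_toLin'] at h2
  exact h2

theorem eq_of_mulVec {E : Type} [Field E] {n : ℕ} {A B : Matrix (Fin n) (Fin n) E}
    (h : ∀ x : Fin n → E, A *ᵥ x = B *ᵥ x) : A = B := by
  apply Matrix.toLin'.injective
  refine LinearMap.ext fun x => ?_
  rw [Matrix.toLin'_apply, Matrix.toLin'_apply]
  exact h x

end TrkL

open TrkL in
theorem trk (hGEN : S_GEN) (hLOG : S_LOGN) (hLIN : S_LIN) (hRAT : S_RAT) : S_TRK := by
  classical
  intro K _ _ n V hV w P hP q σ hq hσ h1 h2 k g hk hg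
  obtain ⟨h, hdet, hch⟩ := h1 k g hg
  set s : ℂ := SW (q ^ k) w (h.map (Rat.castHom ℂ)) with hs
  have hqk : 2 ≤ q ^ k := le_trans hq (Nat.le_self_pow hk.ne' q)
  have claim : ∀ (ℓ : ℕ) [Fact ℓ.Prime], (ℓ : OO K) ∉ P → ∀ E, UProj (V ℓ) P E →
      ∀ e : ℚ_[ℓ] →+* ℂ, e (mt (V ℓ) g⁻¹ * E).trace = s := by
    intro ℓ _ hℓ E hE e
    obtain ⟨τ₀, hI, hu, hrel, hmin⟩ := hGEN K ℓ n (V ℓ) (hV ℓ) P hP hℓ q σ hq hσ
    set T : Matrix (Fin n) (Fin n) ℚ_[ℓ] := mt (V ℓ) τ₀ with hT
    let em : Matrix (Fin n) (Fin n) ℚ_[ℓ] →+* Matrix (Fin n) (Fin n) ℂ := e.mapMatrix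
    have emap : ∀ M : Matrix (Fin n) (Fin n) ℚ_[ℓ], em M = M.map e := fun M => rfl
    have hone : mt (V ℓ) (1 : GK K) = 1 := by
      unfold Pool.Agent.R401.Img.mt
      rw [map_one, Units.val_one]
    have hYY : mt (V ℓ) g * mt (V ℓ) g⁻¹ = 1 := by rw [← mt_mul, mul_inv_cancel, hone]
    have hYY' : mt (V ℓ) g⁻¹ * mt (V ℓ) g = 1 := by rw [← mt_mul, inv_mul_cancel, hone]
    have hrel' : mt (V ℓ) g * T * mt (V ℓ) g⁻¹ = T ^ (q ^ k) := by
      rw [hT, ← mt_mul, ← mt_mul]
      exact hrel (q ^ k) g (by omega) hg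
    set Y := em (mt (V ℓ) g) with hY
    set A := em (mt (V ℓ) g⁻¹) with hA
    set Tc := em T with hTc
    have c1 : Y * A = 1 := by rw [hY, hA, ← map_mul, hYY, map_one]
    have c2 : A * Y = 1 := by rw [hY, hA, ← map_mul, hYY', map_one]
    have c3 : Y * Tc * A = Tc ^ (q ^ k) := by
      rw [hY, hA, hTc, ← map_mul, ← map_mul, hrel', map_pow]
    have c4 : IsNilpotent (Tc - 1) := by
      have h3 : Tc - 1 = em (T - 1) := by rw [map_sub, map_one]
      rw [h3]
      exact hu.map em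
    obtain ⟨N, u, u', hN, huu, huu', hcomm, hscale⟩ := hLOG n Tc Y A (q ^ k) c4 c1 c2 c3
    have hcomm1 : Commute (Tc - 1) u := hcomm.sub_left (Commute.one_left u)
    have hN' : N = u * (Tc - 1) := by rw [hN]; exact hcomm1.eq
    have hNil : IsNilpotent N := by
      rw [hN]
      exact hcomm1.isNilpotent_mul_right c4
    have hTN : Tc - 1 = u' * N := by rw [hN', ← mul_assoc, huu', one_mul]
    have hNA : N * A = ((q ^ k : ℕ) : ℂ) • (A * N) := by
      have h3 : A * (Y * N * A) = N * A := by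
        rw [← mul_assoc, ← mul_assoc, c2, one_mul]
      rw [← h3, hscale, mul_smul_comm]
    have hcu : Commute u u' := by
      show u * u' = u' * u
      rw [huu, huu']
    have hpowN : ∀ i : ℕ, (Tc - 1) ^ i = u' ^ i * N ^ i := by
      intro i
      rw [hN', hcomm1.symm.mul_pow, ← mul_assoc, ← hcu.symm.mul_pow, huu', one_pow, one_mul]
    have hEq : T * E = E := by
      apply eq_of_mulVec
      intro x
      rw [← Matrix.mulVec_mulVec]
      exact hE.1 x τ₀ hI hu
    have hE0 : (T - 1) * E = 0 := by rw [sub_mul, hEq, one_mul, sub_self]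
    obtain ⟨R0, hR0⟩ := factor (T - 1) (1 - E) (by
      intro x hx
      have h3 : ∀ τ, InInertia P τ → IsNilpotent (mt (V ℓ) τ - 1) → mt (V ℓ) τ *ᵥ x = x := by
        intro τ hτ hτu
        obtain ⟨R, hR⟩ := hmin τ hτ hτu 1
        rw [pow_one, pow_one] at hR
        have h4 : (mt (V ℓ) τ - 1) *ᵥ x = 0 := by
          rw [hR, ← Matrix.mulVec_mulVec, hx, Matrix.mulVec_zero]
        rw [Matrix.sub_mulVec, Matrix.one_mulVec, sub_eq_zero] at h4
        exact h4
      rw [Matrix.sub_mulVec, Matrix.one_mulVec, hE.2 x h3, sub_self])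
    have hEc0 : N * em E = 0 := by
      have h3 : (Tc - 1) * em E = 0 := by
        have h4 := congrArg em hE0
        rw [map_mul, map_sub, map_one, map_zero] at h4
        exact h4
      rw [hN', mul_assoc, h3, mul_zero]
    have hRc : 1 - em E = (em R0 * u') * N := by
      have h4 := congrArg em hR0
      rw [map_mul, map_sub, map_sub, map_one] at h4
      rw [h4, mul_assoc, ← hTN]
    have hAch : A.charpoly = h.map (Rat.castHom ℂ) := by
      have h3 : A.charpoly = ((mt (V ℓ) g⁻¹).charpoly).map e := by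
        rw [hA, emap, Matrix.charpoly_map]
      rw [h3, hch ℓ hℓ, Polynomial.map_map]
      congr 1
      exact Subsingleton.elim _ _
    have hdetA : ‖A.det‖ ^ 2 = ((q ^ k : ℕ) : ℝ) ^ (w * n) := by
      rw [Matrix.det_eq_sign_charpoly_coeff, hAch, coeff_map]
      have h3 : ‖(-1 : ℂ) ^ Fintype.card (Fin n) * (Rat.castHom ℂ) (h.coeff 0)‖ ^ 2 =
          (((h.coeff 0) ^ 2 : ℚ) : ℝ) := by
        rw [norm_mul, norm_pow, norm_neg, norm_one, one_pow, one_mul]
        have h4 : (Rat.castHom ℂ) (h.coeff 0) = (((h.coeff 0 : ℚ) : ℝ) : ℂ) := by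
          push_cast
          rfl
        rw [h4, Complex.norm_real, Real.norm_eq_abs, sq_abs]
        push_cast
        rfl
      rw [h3, hdet]
      push_cast
      rw [← zpow_natCast, ← _root_.zpow_mul]
      congr 1
      ring
    have key := hLIN n A Y N (q ^ k) w hqk c2 hNil hNA (by
      intro z x i hx hAx hNx
      have h3 : (Tc - 1) ^ (i + 1) *ᵥ x = 0 := by
        rw [hpowN, ← Matrix.mulVec_mulVec, hNx, Matrix.mulVec_zero]
      obtain ⟨j, hj, hz⟩ := h2 ℓ hℓ e k g hk hg z x i hx hAx (by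
        intro τ hτ hτu
        obtain ⟨R, hR⟩ := hmin τ hτ hτu (i + 1)
        have h4 : ((mt (V ℓ) τ).map e - 1) ^ (i + 1) = em R * (Tc - 1) ^ (i + 1) := by
          have h5 := congrArg em hR
          rw [map_mul, map_pow, map_pow, map_sub, map_sub, map_one] at h5
          exact h5
        rw [h4, ← Matrix.mulVec_mulVec, h3, Matrix.mulVec_zero])
      refine ⟨j, hj, ?_⟩
      rw [hz]
      push_cast
      rfl) hdetA (em E) (em R0 * u') hEc0 hRc
    have h3 : e (mt (V ℓ) g⁻¹ * E).trace = (A * em E).trace := by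
      rw [hA, ← map_mul, emap, Matrix.trace, Matrix.trace, map_sum]
      rfl
    rw [h3, key, hAch]
  by_cases hr : ∃ r : ℚ, s = (r : ℂ)
  · obtain ⟨r, hr⟩ := hr
    refine ⟨r, fun ℓ _ hℓ E hE => ?_⟩
    obtain ⟨r', hr', hs'⟩ := hRAT ℓ _ s (claim ℓ hℓ E hE)
    rw [hr'] 
    have h3 : r' = r := by
      rw [hr] at hs'
      exact_mod_cast hs'.symm
    rw [h3]
  · refine ⟨0, fun ℓ _ hℓ E hE => ?_⟩
    obtain ⟨r', hr', hs'⟩ := hRAT ℓ _ s (claim ℓ hℓ E hE)
    exact absurd ⟨r', hs'⟩ hr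

end Pool.Agent.Helper3K9.EW
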