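import Pool.Agent.Helper3K9.EW.Stm

/-!
# [WMV]: the weight-monodromy condition goes from `W` to `V`
-/

set_option autoImplicit false

namespace Pool.Agent.Helper3K9.EW

open NumberField Filter Topology IsDedekindDomain Matrix Polynomial
open Pool.Agent.W569.FM Pool.Agent.W401.Cheb Pool.Agent.R401.Img Pool.Agent.R401.Sup3
open Pool.Agent.R401.Tr5 Pool.Agent.R401.Tr9 Pool.Agent.R401.Tr3 Pool.Agent.R401.Sup

namespace WmvL

theorem frobAt_pow {F : Type} [Field F] {Q : ℕ} {P : Ideal (OO F)} {g : GF F}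
    (h : FrobAt Q P g) (r : ℕ) : FrobAt (Q ^ r) P (g ^ r) := by
  induction r with
  | zero =>
    intro x
    rw [pow_zero, pow_zero, one_smul, pow_one, sub_self]
    exact P.zero_mem
  | succ r ih =>
    intro x
    have h1 := h (g ^ r • x)
    have h2 := ih x
    have h3 : (g ^ r • x) ^ Q - (x ^ (Q ^ r)) ^ Q ∈ P :=
      P.mem_of_dvd (sub_dvd_pow_sub_pow _ _ Q) h2
    have h4 : g ^ (r + 1) • x - x ^ (Q ^ (r + 1)) =
        (g • (g ^ r • x) - (g ^ r • x) ^ Q) + ((g ^ r • x) ^ Q - (x ^ (Q ^ r)) ^ Q) := by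
      rw [pow_succ' g, mul_smul, pow_succ Q, pow_mul]
      ring
    rw [h4]
    exact P.add_mem h1 h3

/-- A power of a unipotent matrix: roots do not change the kernels. -/
theorem ker_of_pow {F : Type} [Field F] [CharZero F] {m : ℕ} {T : Matrix (Fin m) (Fin m) F}
    (hT : IsNilpotent (T - 1)) {R : ℕ} (hR : 0 < R) {s : ℕ} {y : Fin m → F}
    (hy : ((T ^ R - 1) ^ s) *ᵥ y = 0) : ((T - 1) ^ s) *ᵥ y = 0 := by
  -- `S = ∑ T ^ j = R + nilpotent`
  set S : Matrix (Fin m) (Fin m) F := ∑ j ∈ Finset.range R, T ^ j with hS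
  have h1 : T ^ R - 1 = S * (T - 1) := by
    rw [hS]
    exact (geom_sum_mul T R).symm
  have hcom : Commute S (T - 1) := by
    rw [hS]
    apply Commute.sub_right _ (Commute.one_right _)
    exact Commute.sum_left _ _ _ fun j _ => (Commute.pow_self T j)
  have hnil : IsNilpotent (S - (R : Matrix (Fin m) (Fin m) F)) := by
    have h2 : S - (R : Matrix (Fin m) (Fin m) F) =
        (∑ j ∈ Finset.range R, ∑ i ∈ Finset.range j, T ^ i) * (T - 1) := by
      rw [hS, Finset.sum_mul]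
      have h3 : (R : Matrix (Fin m) (Fin m) F) = ∑ j ∈ Finset.range R, 1 := by
        rw [Finset.sum_const, Finset.card_range, nsmul_eq_mul, mul_one]
      rw [h3, ← Finset.sum_sub_distrib]
      exact Finset.sum_congr rfl fun j _ => (geom_sum_mul T j).symm
    rw [h2]
    refine Commute.isNilpotent_mul_left ?_ hT
    apply Commute.sub_right _ (Commute.one_right _)
    refine Commute.sum_left _ _ _ fun j _ => Commute.sum_left _ _ _ fun i _ => ?_
    exact Commute.pow_self T i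
  have hu : IsUnit S := by
    have h4 : IsUnit (R : Matrix (Fin m) (Fin m) F) := by
      have h5 : (R : Matrix (Fin m) (Fin m) F) =
          algebraMap F (Matrix (Fin m) (Fin m) F) (R : F) := by
        rw [map_natCast]
      rw [h5]
      exact (isUnit_iff_ne_zero.2 (Nat.cast_ne_zero.2 hR.ne')).map _
    have h6 := hnil.isUnit_add_left_of_commute h4 (Nat.commute_cast _ _)
    rwa [add_sub_cancel] at h6
  have h7 : (T ^ R - 1) ^ s = S ^ s * (T - 1) ^ s := by
    rw [h1, hcom.mul_pow]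
  rw [h7, ← Matrix.mulVec_mulVec] at hy
  obtain ⟨v, hv⟩ := hu.pow s
  have h8 : ((v⁻¹ : (Matrix (Fin m) (Fin m) F)ˣ) : Matrix (Fin m) (Fin m) F) * S ^ s = 1 := by
    rw [← hv, Units.inv_mul]
  have h9 := congrArg (fun t => ((v⁻¹ : (Matrix (Fin m) (Fin m) F)ˣ) :
    Matrix (Fin m) (Fin m) F) *ᵥ t) hy
  simpa only [Matrix.mulVec_mulVec, ← mul_assoc, h8, one_mul, Matrix.mulVec_zero] using h9

theorem unip_pow {F : Type} [Field F] {m : ℕ} {T : Matrix (Fin m) (Fin m) F}
    (hT : IsNilpotent (T - 1)) (j : ℕ) : IsNilpotent (T ^ j - 1) := by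
  rw [← geom_sum_mul T j]
  refine Commute.isNilpotent_mul_left ?_ hT
  apply Commute.sub_right _ (Commute.one_right _)
  exact Commute.sum_left _ _ _ fun i _ => Commute.pow_self T i

theorem trace_unip {F : Type} [Field F] {m : ℕ} {T : Matrix (Fin m) (Fin m) F}
    (hT : IsNilpotent (T - 1)) : T.trace = m := by
  have h1 := (Matrix.isNilpotent_trace_of_isNilpotent hT).eq_zero
  rw [Matrix.trace_sub, Matrix.trace_one, Fintype.card_fin, sub_eq_zero] at h1
  exact h1

theorem aeval_X_sub {F : Type} [Field F] {m : ℕ} (A : Matrix (Fin m) (Fin m) F) (z : F)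
    (y : Fin m → F) : aeval A (X - C z) *ᵥ y = 0 ↔ A *ᵥ y = z • y := by
  rw [map_sub, aeval_X, aeval_C, Matrix.sub_mulVec, sub_eq_zero, Algebra.algebraMap_eq_smul_one,
    Matrix.smul_mulVec, Matrix.one_mulVec]

theorem aeval_pow {F : Type} [Field F] {m : ℕ} (A : Matrix (Fin m) (Fin m) F) (s : ℕ) :
    aeval A ((X - 1 : F[X]) ^ s) = (A - 1) ^ s := by
  rw [map_pow, map_sub, aeval_X, map_one]

theorem mulVec_pow {F : Type} [Field F] {m : ℕ} {A : Matrix (Fin m) (Fin m) F} {z : F}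
    {y : Fin m → F} (h : A *ᵥ y = z • y) (r : ℕ) : (A ^ r) *ᵥ y = z ^ r • y := by
  induction r with
  | zero => rw [pow_zero, pow_zero, Matrix.one_mulVec, one_smul]
  | succ r ih =>
    rw [pow_succ, ← Matrix.mulVec_mulVec, h, Matrix.mulVec_smul, ih, smul_smul, pow_succ,
      mul_comm]

end WmvL

open WmvL in
theorem wmv : S_EMB → S_WMV := by
  intro hE K _ _ n m V W w hcl hss P hP q hq hW ℓ _ hℓ e k g hk hg z x i hx hz hτ
  obtain ⟨u, φ, U, hw, hUn, hUo, hU, hφ⟩ := hcl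
  have hfin : Finite (GK K ⧸ U) := Subgroup.quotient_finite_of_isOpen _ hUo
  have hfi : U.FiniteIndex := Subgroup.finiteIndex_of_finite_quotient
  have hR : 0 < U.index := Nat.pos_of_ne_zero hfi.index_ne_zero
  have hmem : ∀ y : GK K, y ^ U.index ∈ U := fun y => Subgroup.pow_index_mem U y
  have hc : cyc K ℓ ℚ_[ℓ] g = ((q ^ k : ℕ) : ℚ_[ℓ]) := cyc_sigma (ℓ := ℓ) hP hg hℓ
  have hφ1 : (φ 1 : ℚ_[ℓ]) = n - m := phi_one (V ℓ) (W ℓ) u φ (hφ ℓ)
  have hφU : ∀ y ∈ U, φ y = φ 1 := fun y hy => by rw [← mul_one y, hU y hy]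
  let χ : GK K →* ℚ_[ℓ] :=
    { toFun := fun y => cyc K ℓ ℚ_[ℓ] y ^ (-u)
      map_one' := by rw [map_one, _root_.one_zpow]
      map_mul' := fun a b => by rw [map_mul, _root_.mul_zpow] }
  have hχ : ∀ y, χ y = cyc K ℓ ℚ_[ℓ] y ^ (-u) := fun y => rfl
  have htr : ∀ y ∈ U, (mt (V ℓ) y).trace = (mt (W ℓ) y).trace + χ y * ((n : ℚ_[ℓ]) - m) := by
    intro y hy
    have h1 := hφ ℓ y
    rw [hφU y hy, hφ1] at h1
    have h2 : cyc K ℓ ℚ_[ℓ] y ^ (-u) * cyc K ℓ ℚ_[ℓ] y ^ u = 1 := by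
      rw [← zpow_add₀ (c_ne _ _), neg_add_cancel, _root_.zpow_zero]
    rw [hχ, ← h1, ← mul_assoc, h2, one_mul]
    ring
  have hq0 : (0 : ℝ) < (q : ℝ) := by
    have : 0 < q := by omega
    exact_mod_cast this
  -- the eigenvalue of `g⁻¹ ^ R`
  have hpow : ∀ {r : ℕ} (ρ : GK K →* GL (Fin r) ℚ_[ℓ]) (y : GK K) (j : ℕ),
      (mt ρ (y ^ j)).map e = ((mt ρ y).map e) ^ j := by
    intro r ρ y j
    rw [mt_pow, ← RingHom.mapMatrix_apply, ← RingHom.mapMatrix_apply, map_pow]
  have hz1 : (mt (V ℓ) (g⁻¹ ^ U.index)).map e *ᵥ x = z ^ U.index • x := by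
    rw [hpow]
    exact mulVec_pow hz _
  have hroot : ∀ j : ℤ, ‖z ^ U.index‖ ^ 2 = ((q : ℝ) ^ (k * U.index)) ^ j →
      ‖z‖ ^ 2 = ((q : ℝ) ^ k) ^ j := by
    intro j hj
    refine (pow_left_inj₀ (by positivity) (by positivity) hR.ne').1 ?_
    rw [← pow_mul, mul_comm 2, pow_mul, ← norm_pow, hj, pow_mul, ← zpow_natCast (((q : ℝ) ^ k) ^ j),
      ← zpow_natCast ((q : ℝ) ^ k) U.index, _root_.zpow_comm]
  rcases hE (GK K) U ℚ_[ℓ] n m (V ℓ) (W ℓ) χ (hss ℓ) htr ℂ e x hx with ⟨y, hy, hyf⟩ | ⟨hnm, hf⟩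
  · -- first case
    have h1 : (mt (W ℓ) (g⁻¹ ^ U.index)).map e *ᵥ y = z ^ U.index • y :=
      (aeval_X_sub _ _ _).1 (hyf _ (hmem _) _ ((aeval_X_sub _ _ _).2 hz1))
    have h2 : FrobAt (q ^ (k * U.index)) P (g ^ U.index) := by
      rw [pow_mul]
      exact frobAt_pow hg _
    obtain ⟨j, hj, hj2⟩ := hW ℓ hℓ e (k * U.index) (g ^ U.index) (Nat.mul_pos hk hR) h2
      (z ^ U.index) y i hy (by rwa [inv_pow] at h1) (by
        intro τ' hτ' hun
        -- `τ = τ' ^ R`
        have h3 : InInertia P (τ' ^ U.index) := (IG P).pow_mem (show τ' ∈ IG P from hτ') _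
        have h4 : IsNilpotent (mt (V ℓ) (τ' ^ U.index) - 1) := by
          apply nilp_of_trace
          intro j
          have h5 : InInertia P ((τ' ^ U.index) ^ j) :=
            (IG P).pow_mem (show τ' ^ U.index ∈ IG P from h3) j
          have h6 := htr ((τ' ^ U.index) ^ j) (U.pow_mem (hmem τ') j)
          have h7 : (mt (W ℓ) ((τ' ^ U.index) ^ j)).trace = m := by
            rw [mt_pow, mt_pow]
            exact trace_unip (unip_pow (unip_pow hun _) _)
          rw [hχ, cyc_inertia hP hℓ hg h5, _root_.one_zpow, one_mul, h7, mt_pow] at h6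
          rw [h6]
          ring
        have h8 := hτ (τ' ^ U.index) h3 h4
        have h9 := hyf _ (hmem τ') ((X - 1) ^ (i + 1)) (by rw [aeval_pow]; exact h8)
        rw [aeval_pow, hpow] at h9
        refine ker_of_pow ?_ hR h9
        have h10 := hun.map e.mapMatrix
        rwa [map_sub, map_one, RingHom.mapMatrix_apply] at h10)
    exact ⟨j, hj, hroot j hj2⟩
  · -- second case
    have h1 := hf (g⁻¹ ^ U.index) (hmem _) _ ((aeval_X_sub _ _ _).2 hz1)
    rw [eval_sub, eval_X, eval_C, sub_eq_zero, hχ, map_pow, c_inv, hc] at h1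
    have hw2 : w = 2 * u := by
      rcases hw with hw | hw
      · exact hw
      · exfalso
        rw [hw, Rat.cast_zero] at hφ1
        apply hnm
        have h2 : (n : ℚ_[ℓ]) = m := by linear_combination -hφ1
        exact_mod_cast h2
    refine ⟨w, by omega, hroot w ?_⟩
    rw [← h1, map_zpow₀, map_pow, map_inv₀, map_natCast, norm_zpow, norm_pow, norm_inv,
      Complex.norm_natCast, hw2]
    push_cast
    rw [pow_mul, inv_pow, _root_.inv_zpow', neg_neg, ← zpow_natCast _ 2, ← _root_.zpow_mul, mul_comm u]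
    rfl

end Pool.Agent.Helper3K9.EW
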