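import Pool.Agent.Helper3K9.EW.Asm
import Pool.Agent.Helper3K9.EW.Rat
import Pool.Agent.Helper3K9.EW.Trk
import Pool.Agent.Helper3K9.EW.Key
import Pool.Agent.Helper3K9.EW.Ssc
import Pool.Agent.Helper3K9.EW.Emb
import Pool.Agent.Helper3K9.EW.Logn
import Pool.Agent.Helper3K9.EW.Lin
import Pool.Agent.Helper3K9.EW.Chp
import Pool.Agent.Helper3K9.EW.Wmv
import Pool.Agent.Helper3K9.EW.Mono
import Pool.Agent.Helper3K9.EW.Cyf
import Pool.Agent.Helper3K9.EW.Cyl
import Pool.Agent.Helper3K9.EW.Gen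
import Pool.Agent.Helper3K9.EW.Fin

/-! # EW: all the leaves -/

set_option autoImplicit false

namespace Pool.Agent.Helper3K9.EW

theorem finAll : S_FIN := fin_ mono (trk (gen mono (cyl cyf)) logn lin rat)

theorem wmvAll : S_WMV := wmv (emb key ssc)

end Pool.Agent.Helper3K9.EW
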