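import Pool.Agent.R401.Tr10
import Pool.Agent.TH119.MX.Gal

/-!
# EW: local Euler factors at places of arbitrary reduction (MP_a3c811_ag), statements of the leaves

`GK K` = absolute Galois group, `OO K` = ring of all algebraic integers, `InInertia P g` : `g x - x ∈ P`,
`FrobAt Q P g` : `g x - x ^ Q ∈ P` for all `x`; `mt ρ g` = the matrix of `g`; `SS ρ` = semisimple (every stable
subspace has a stable complement). `P` is a maximal ideal of `OO K`, and `ℓ ∉ P`.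
-/

set_option autoImplicit false

namespace Pool.Agent.Helper3K9.EW

open NumberField Filter Topology IsDedekindDomain Matrix Polynomial
open Pool.Agent.W569.FM Pool.Agent.W401.Cheb Pool.Agent.R401.Img Pool.Agent.R401.Sup3

/-- The characters of the Weil group at `P` are rational and independent of `ℓ`, and the determinant has weight
`w n`: the charpoly of (the inverse of) every element of the decomposition group of degree `k ≥ 0`. -/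
def WM1 {K : Type} [Field K] [NumberField K] {n : ℕ}
    (V : ∀ (ℓ : ℕ) [Fact ℓ.Prime], GK K →* GL (Fin n) ℚ_[ℓ]) (w : ℤ) (P : Ideal (OO K)) (q : ℕ) : Prop :=
  ∀ (k : ℕ) (g : GK K), FrobAt (q ^ k) P g → ∃ h : ℚ[X], (h.coeff 0) ^ 2 = (q : ℚ) ^ (w * n * k) ∧
    ∀ (ℓ : ℕ) [Fact ℓ.Prime], (ℓ : OO K) ∉ P →
      (mt (V ℓ) g⁻¹).charpoly = h.map (Rat.castHom ℚ_[ℓ])

/-- The weight-monodromy condition: an eigenvector of (the inverse of) an element of degree `k > 0` which is killed by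
`(τ - 1) ^ (i + 1)` for all the elements `τ` of the inertia group which act unipotently has an integral weight `≤ w + i`. -/
def WM2 {K : Type} [Field K] [NumberField K] {n : ℕ}
    (V : ∀ (ℓ : ℕ) [Fact ℓ.Prime], GK K →* GL (Fin n) ℚ_[ℓ]) (w : ℤ) (P : Ideal (OO K)) (q : ℕ) : Prop :=
  ∀ (ℓ : ℕ) [Fact ℓ.Prime], (ℓ : OO K) ∉ P → ∀ (e : ℚ_[ℓ] →+* ℂ) (k : ℕ) (g : GK K), 0 < k →
    FrobAt (q ^ k) P g → ∀ (z : ℂ) (x : Fin n → ℂ) (i : ℕ), x ≠ 0 →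
      (mt (V ℓ) g⁻¹).map e *ᵥ x = z • x →
      (∀ τ, InInertia P τ → IsNilpotent (mt (V ℓ) τ - 1) →
        (((mt (V ℓ) τ).map e - 1) ^ (i + 1)) *ᵥ x = 0) →
      ∃ j : ℤ, j ≤ w + i ∧ ‖z‖ ^ 2 = ((q : ℝ) ^ k) ^ j

/-- the conclusion of `Pool.Agent.R401.Tr7.family` -/
def Close {K : Type} [Field K] [NumberField K] {n m : ℕ}
    (V : ∀ (ℓ : ℕ) [Fact ℓ.Prime], GK K →* GL (Fin n) ℚ_[ℓ])
    (W : ∀ (ℓ : ℕ) [Fact ℓ.Prime], GK K →* GL (Fin m) ℚ_[ℓ]) (w : ℤ) : Prop :=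
  ∃ (u : ℤ) (φ : GK K → ℚ) (U : Subgroup (GK K)), (w = 2 * u ∨ ∀ y, φ y = 0) ∧ U.Normal ∧
    IsOpen (U : Set (GK K)) ∧ (∀ x ∈ U, ∀ y, φ (x * y) = φ y) ∧
    ∀ (ℓ : ℕ) [Fact ℓ.Prime] (y : GK K),
      cyc K ℓ ℚ_[ℓ] y ^ u * ((mt (V ℓ) y).trace - (mt (W ℓ) y).trace) = (φ y : ℚ_[ℓ])

/-! ## Global part -/

/-- **[KEY]** (pure algebra). Proof: `M = α(R) x` is a finite-dimensional `R`-module generated by `x ≠ 0`; let `M'` be a
proper submodule of `M` of maximal dimension, so `x ∉ M'`. Let `𝔟 = ker β` (two-sided). For `a ∈ 𝔟` all the powers are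
in `𝔟`, so all the traces `tr α(a)^r`, `r ≥ 1`, vanish and `α a` is nilpotent
(`Pool.Agent.R401.Burn.isNilpotent_of_trace_pow`). If `α(𝔟) x ⊄ M'` then `α(𝔟) x + M' = M` (it is a submodule), so
`x - α(a) x ∈ M'` for some `a ∈ 𝔟`, hence `x ∈ M'` as `α a` is nilpotent: contradiction. So `β a = 0 → α a x ∈ M'`, and
`K₀ = {β a | α a x ∈ M'}` is a proper left ideal of the subalgebra `B = β(R)` (proper: if `β a = 1`, `α a x ∈ M'` then
`β (a - 1) = 0`, `x ∈ M'`). `B` is a semisimple ring: it is finite-dimensional and an element `β a` of the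
Jacobson radical (nilpotent ideal) has all `β (b * a)` nilpotent, so `β a = 0` by hypothesis
(`IsArtinianRing.isSemisimpleRing_iff_jacobson`). So `K₀` has a complement `L₀` (left ideal), `1 = κ + ε`, and
`b ε = 0` for all `b ∈ K₀`; `ε ≠ 0`; take `y = ε v ≠ 0`. -/
def S_KEY : Prop := ∀ (F : Type) [Field F] [CharZero F] (R : Type) [Ring R] [Algebra F R] (n : ℕ)
  (ι : Type) [Fintype ι] [DecidableEq ι] (α : R →ₐ[F] Matrix (Fin n) (Fin n) F)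
  (β : R →ₐ[F] Matrix ι ι F),
  (∀ a : R, (∀ b : R, IsNilpotent (β (b * a))) → β a = 0) →
  (∀ a : R, β a = 0 → (α a).trace = 0) →
  ∀ x : Fin n → F, x ≠ 0 → ∃ y : ι → F, y ≠ 0 ∧ ∀ a : R, α a *ᵥ x = 0 → β a *ᵥ y = 0

/-- **[SSC]** (Clifford and extension of scalars). Proof: (1) over `E`: let `a` be in the `E`-span of `ρ(U)` with
`tr (a ρ(y)) = 0` for all `y ∈ U`; the set `N` of these `a` is a two-sided ideal of the span, stable under conjugation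
by `ρ(g)`, `g ∈ G`, and its elements are nilpotent (all `tr a^r = 0`). For `g ∈ G`, `R = [G : U]`:
`(a ρ(g))^R = a (g a g⁻¹) ⋯ (g^(R-1) a g^(1-R)) ρ(g^R) ∈ N` is nilpotent, so `tr (a ρ(g)) = 0` for all `g ∈ G`, and
`a = 0` by `Pool.Agent.R401.Burn.eq_zero_of_trace`. (2) Choose `y_1, …, y_r ∈ U` such that the `ρ(y_j)` are a basis of
the `E`-span of `ρ(U)`; by (1) the Gram matrix `tr (ρ(y_i) ρ(y_j))` is invertible; the `(ρ(y_j)).map e` span the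
`F`-span, and the Gram matrix is the image of the first one. -/
def S_SSC : Prop := ∀ (G : Type) [Group G] (U : Subgroup G) [U.Normal] [U.FiniteIndex]
  (E : Type) [Field E] [CharZero E] (m : ℕ) (ρ : G →* GL (Fin m) E), SS ρ →
  ∀ (F : Type) [Field F] (e : E →+* F),
    ∀ b ∈ Submodule.span F (Set.range fun y : U => (mt ρ (y : G)).map e),
      (∀ y : U, (b * (mt ρ (y : G)).map e).trace = 0) → b = 0

/-- **[EMB]** from [KEY] and [SSC]: `R = MonoidAlgebra F U`, `α` = lift of `V`, `β` = lift of `W` if `n = m`, and lift of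
`fromBlocks W 0 0 χ` if `n ≠ m`. The condition on `β` in [KEY]: if all `β (b a)` are nilpotent then their traces
vanish, so the `W`-part of `β a` is zero by [SSC], and `χ(a)` is nilpotent in a field. `tr α(a) = tr W(a) + (n - m) χ(a)`. -/
def S_EMB : Prop := ∀ (G : Type) [Group G] (U : Subgroup G) [U.Normal] [U.FiniteIndex]
  (E : Type) [Field E] [CharZero E] (n m : ℕ) (V : G →* GL (Fin n) E) (W : G →* GL (Fin m) E)
  (χ : G →* E), SS W →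
  (∀ y ∈ U, (mt V y).trace = (mt W y).trace + χ y * ((n : E) - m)) →
  ∀ (F : Type) [Field F] [CharZero F] (e : E →+* F) (x : Fin n → F), x ≠ 0 →
    (∃ y : Fin m → F, y ≠ 0 ∧ ∀ g ∈ U, ∀ f : F[X],
      aeval ((mt V g).map e) f *ᵥ x = 0 → aeval ((mt W g).map e) f *ᵥ y = 0) ∨
    (n ≠ m ∧ ∀ g ∈ U, ∀ f : F[X], aeval ((mt V g).map e) f *ᵥ x = 0 → f.eval (e (χ g)) = 0)

/-- **[CHP]** Proof: `cyc g = q ^ k` for `FrobAt (q ^ k) P g` (`Pool.Agent.Y115.Chi.chi_frob`), so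
`tr V(g⁻¹)^r = tr W(g⁻¹)^r + (q^(k u))^r φ(g⁻¹ ^ r)`, rational and independent of `ℓ` (`Tr10.trace_eq_tn`,
`Tr10.coeff_rev`), so the coefficients of `charpolyRev` are rational and independent of `ℓ` (`Tr4.coeff_eq`), and so are
those of the charpoly (`Matrix.reverse_charpoly`). Determinant: with `R = [G : U]`, `D = q^(k R u)` one has
`tr V(g⁻¹)^(R s) + m D^s = tr W(g⁻¹)^(R s) + n D^s`, so `charpoly V(g^(-R)) (X - D)^m = charpoly W(g^(-R)) (X - D)^n`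
(`Pool.Agent.TH658.Eq.charpoly_eq_of_traces`, see `Tr8.eig`) and `det V(g^(-R)) D^m = det W(g^(-R)) D^n`; square and
use `w = 2 u` (or `φ = 0`, `n = m`); take the `R`-th root of positive rational numbers. -/
def S_CHP : Prop := ∀ (K : Type) [Field K] [NumberField K] (n m : ℕ)
  (V : ∀ (ℓ : ℕ) [Fact ℓ.Prime], GK K →* GL (Fin n) ℚ_[ℓ])
  (W : ∀ (ℓ : ℕ) [Fact ℓ.Prime], GK K →* GL (Fin m) ℚ_[ℓ]) (w : ℤ), Close V W w →
  ∀ (P : Ideal (OO K)), P.IsMaximal → ∀ q : ℕ, 2 ≤ q → WM1 W w P q → WM1 V w P q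

/-- **[WMV]** Proof: `x` an eigenvector of `V(g⁻¹)`, `R = [G : U]`, `g^R ∈ U` has degree `k R`. [EMB] for `U` and
`χ = cyc ^ (-u)`: in the first case `y` is an eigenvector of `W(g^(-R))` for `z^R` (`f = X - z^R`) and it is killed by
`(W(τ) - 1)^(i+1)` for `τ ∈ U ∩ I` with `V(τ)` unipotent (`f = (X - 1)^(i+1)`); if `τ' ∈ I`, `W(τ')` unipotent,
then `τ = τ'^R ∈ U`, `W(τ)` is unipotent, and so is `V(τ)` as `tr V(τ^j) = tr W(τ^j) + n - m`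
(`Tr5.cyc_inertia`, `nilp_of_trace`), so `(W(τ')^R - 1)^(i+1) y = 0` and `(W(τ') - 1)^(i+1) y = 0`. Apply `WM2 W` to `g^R`
and take the `R`-th root. In the second case `n ≠ m`, so `φ 1 ≠ 0`, `w = 2 u` and `z^R = q^(k R u)`: `j = w`. -/
def S_WMV : Prop := ∀ (K : Type) [Field K] [NumberField K] (n m : ℕ)
  (V : ∀ (ℓ : ℕ) [Fact ℓ.Prime], GK K →* GL (Fin n) ℚ_[ℓ])
  (W : ∀ (ℓ : ℕ) [Fact ℓ.Prime], GK K →* GL (Fin m) ℚ_[ℓ]) (w : ℤ), Close V W w →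
  (∀ (ℓ : ℕ) [Fact ℓ.Prime], SS (W ℓ)) →
  ∀ (P : Ideal (OO K)), P.IsMaximal → ∀ q : ℕ, 2 ≤ q → WM2 W w P q → WM2 V w P q

/-! ## Local part -/

/-- **[MONO]** Grothendieck's monodromy theorem. Proof: `H` from `Tr9.exists_small`, the tame relation
`Tr9.tame_rel'`: `ρ(τ)^q` is conjugate to `ρ(τ)` for `τ ∈ H ∩ I`, so the (finite) set of eigenvalues of `ρ(τ)` (in `ℂ`, say)
is mapped onto itself by `z ↦ z^q` and they are roots of unity of order dividing an `L` which depends only on `n, q`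
(`z^(q^a) = z^(q^b)`, `a < b ≤ n`). So only finitely many charpolys occur; `τ ↦ charpoly ρ(τ)` (its coefficients) is
continuous, with finitely many values on `H ∩ I`, so it is constant, `= (X - 1)^n`, on `H' ∩ I`. -/
def S_MONO : Prop := ∀ (K : Type) [Field K] [NumberField K] (ℓ : ℕ) [Fact ℓ.Prime] (n : ℕ)
  (ρ : GK K →* GL (Fin n) ℚ_[ℓ]), Continuous ρ → ∀ (P : Ideal (OO K)), P.IsMaximal → (ℓ : OO K) ∉ P →
  ∀ (q : ℕ) (σ : GK K), 2 ≤ q → FrobAt q P σ →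
    ∃ H : Subgroup (GK K), H.Normal ∧ IsOpen (H : Set (GK K)) ∧
      ∀ τ ∈ H, InInertia P τ → IsNilpotent (mt ρ τ - 1)

/-- **[CYF]** the tame quotient is cyclic, finite level. Proof: as `Pool.Agent.R703.FM.tame`
(`Pool.Agent.W99.UF.gen`, `Pool.Agent.W880.UF2.wild_gen`): there is a finite Galois extension `L/K` such that `f` factors
through a subgroup of `Gal(L/K)`; for the prime `𝔓 = P ∩ L` and a uniformizer `π` the map `θ(τ) = (τ π / π mod 𝔓)` is a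
homomorphism from the inertia group to the units of the finite field `𝓞_L / 𝔓`, its kernel is an `l`-group
(`pow_triv`, as in `wild_gen`), `l ∈ P`, so `f` kills it (`ℓ ≠ l`), and the image of the inertia group in `E`
is cyclic (quotient of a subgroup of a cyclic group). In a cyclic `ℓ`-group one of two elements is a power of the
other. -/
def S_CYF : Prop := ∀ (K : Type) [Field K] [NumberField K] (ℓ : ℕ), ℓ.Prime → ∀ (P : Ideal (OO K)), P.IsMaximal →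
  (ℓ : OO K) ∉ P → ∀ (H : Subgroup (GK K)) [H.Normal], IsOpen (H : Set (GK K)) →
  ∀ (E : Type) [Group E], IsPGroup ℓ E → ∀ f : H →* E, IsOpen (f.ker : Set H) →
  ∀ τ τ' : H, InInertia P (τ : GK K) → InInertia P (τ' : GK K) →
    ∃ a : ℕ, f τ = f τ' ^ a ∨ f τ' = f τ ^ a

/-- **[CYL]** from [CYF]. Proof: `H` from `Tr9.exists_small` (its image is pro-`ℓ`). For every open normal subgroup `W`
of `G` (as in the proof of `Tr9.tame_rel'`, `f : H → G ⧸ (ker ρ ⊔ W)`) `ρ(τ)` is congruent to a power of `ρ(τ')` or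
conversely; for a sequence of neighbourhoods of `1` one of the two cases occurs infinitely often, so `ρ(τ)` is a limit of
powers `ρ(τ')^a` (or conversely); `(ρ(τ')^a - 1)^k = R (ρ(τ') - 1)^k`, and the set of all `R (ρ(τ') - 1)^k` is a subspace,
so it is closed. -/
def S_CYL : Prop := ∀ (K : Type) [Field K] [NumberField K] (ℓ : ℕ) [Fact ℓ.Prime] (n : ℕ)
  (ρ : GK K →* GL (Fin n) ℚ_[ℓ]), Continuous ρ → ∀ (P : Ideal (OO K)), P.IsMaximal → (ℓ : OO K) ∉ P →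
    ∃ H : Subgroup (GK K), H.Normal ∧ IsOpen (H : Set (GK K)) ∧
      ∀ τ ∈ H, ∀ τ' ∈ H, InInertia P τ → InInertia P τ' →
        (∀ k : ℕ, ∃ R : Matrix (Fin n) (Fin n) ℚ_[ℓ], (mt ρ τ - 1) ^ k = R * (mt ρ τ' - 1) ^ k) ∨
        (∀ k : ℕ, ∃ R : Matrix (Fin n) (Fin n) ℚ_[ℓ], (mt ρ τ' - 1) ^ k = R * (mt ρ τ - 1) ^ k)

/-- **[GEN]** from [MONO] and [CYL]. Proof: take the intersection `H` of the subgroups of [MONO], [CYL] and
`Tr9.exists_small`, and `τ₀ ∈ H ∩ I` with minimal `∑_{k ≤ n} dim ker (ρ(τ₀) - 1)^k`. For `τ ∈ I` unipotent some power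
`τ^r`, `r > 0`, is in `H` and `(ρ(τ) - 1)^k = R' (ρ(τ)^r - 1)^k` (`ρ(τ)^r - 1 = (ρ(τ) - 1) · unit`). The relation is
`Tr9.tame_rel'`. -/
def S_GEN : Prop := ∀ (K : Type) [Field K] [NumberField K] (ℓ : ℕ) [Fact ℓ.Prime] (n : ℕ)
  (ρ : GK K →* GL (Fin n) ℚ_[ℓ]), Continuous ρ → ∀ (P : Ideal (OO K)), P.IsMaximal → (ℓ : OO K) ∉ P →
  ∀ (q : ℕ) (σ : GK K), 2 ≤ q → FrobAt q P σ →
    ∃ τ₀ : GK K, InInertia P τ₀ ∧ IsNilpotent (mt ρ τ₀ - 1) ∧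
      (∀ (Q : ℕ) (g : GK K), 1 ≤ Q → FrobAt Q P g → mt ρ (g * τ₀ * g⁻¹) = mt ρ τ₀ ^ Q) ∧
      ∀ τ, InInertia P τ → IsNilpotent (mt ρ τ - 1) →
        ∀ k : ℕ, ∃ R : Matrix (Fin n) (Fin n) ℚ_[ℓ], (mt ρ τ - 1) ^ k = R * (mt ρ τ₀ - 1) ^ k

/-- **[LOGN]** logarithm of a unipotent matrix. Proof: `T^k = ∑_j C(k,j) (T-1)^j = p(k)` for a polynomial `p` with
matrix coefficients; `Y p(k) Y' = p(Q k)` for all natural `k`, so `Y p(X) Y' = p(Q X)`; `N` = coefficient of `X` in `p`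
`= ∑_{j ≥ 1} (-1)^(j-1) (T-1)^j / j = (T - 1) u`. -/
def S_LOGN : Prop := ∀ (n : ℕ) (T Y Y' : Matrix (Fin n) (Fin n) ℂ) (Q : ℕ), IsNilpotent (T - 1) →
  Y * Y' = 1 → Y' * Y = 1 → Y * T * Y' = T ^ Q →
  ∃ N u u' : Matrix (Fin n) (Fin n) ℂ, N = (T - 1) * u ∧ u * u' = 1 ∧ u' * u = 1 ∧ Commute T u ∧
    Y * N * Y' = (Q : ℂ) • N

open Classical in
/-- the trace on the kernel of the monodromy, as a function of the charpoly -/
noncomputable def SW (Q : ℕ) (w : ℤ) (f : ℂ[X]) : ℂ :=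
  (f.roots.filter fun z => ‖z‖ ^ 2 ≤ (Q : ℝ) ^ w).sum -
    Q * (f.roots.filter fun z => ‖z‖ ^ 2 ≤ (Q : ℝ) ^ (w - 2)).sum

/-- **[LIN]** Proof: let `V_j` be the sum of the generalized eigenspaces of `A` for the `z` with `‖z‖² = Q^j`; by (i) with
`i ≥ n` the space is the sum of the `V_j`, and `N V_j ⊆ V_{j-2}` (`A N = Q⁻¹ N A`). By (i) `N^s` is injective on
`V_{w+s}`, `s ≥ 1` (the kernel is stable under `A`, so it contains an eigenvector), so `dim V_{w+s} ≤ dim V_{w-s}`; by (ii)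
`∑ j dim V_j = w n`, so equality: `N^s : V_{w+s} → V_{w-s}` is bijective and `N : V_{w-s+2} → V_{w-s}` is onto for all
`s ≥ 1`. With `V^{≤ a} = ⊕_{j ≤ a} V_j` the sequence `0 → ker N → V^{≤ w} → V^{≤ w-2} → 0` is exact (`ker N ⊆ V^{≤ w}`
by (i), `i = 0`), `N A = Q A N`, so `tr (A | ker N) = tr (A | V^{≤ w}) - Q tr (A | V^{≤ w-2})`. `E` is a projector onto
`ker N`. -/
def S_LIN : Prop := ∀ (n : ℕ) (A A' N : Matrix (Fin n) (Fin n) ℂ) (Q : ℕ) (w : ℤ), 2 ≤ Q →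
  A * A' = 1 → IsNilpotent N → N * A = (Q : ℂ) • (A * N) →
  (∀ (z : ℂ) (x : Fin n → ℂ) (i : ℕ), x ≠ 0 → A *ᵥ x = z • x → (N ^ (i + 1)) *ᵥ x = 0 →
    ∃ j : ℤ, j ≤ w + i ∧ ‖z‖ ^ 2 = (Q : ℝ) ^ j) →
  ‖A.det‖ ^ 2 = (Q : ℝ) ^ (w * n) →
  ∀ E R : Matrix (Fin n) (Fin n) ℂ, N * E = 0 → 1 - E = R * N → (A * E).trace = SW Q w A.charpoly

/-- **[RAT]** Proof: a ring homomorphism `e : ℚ_ℓ → ℂ` exists (`Pool.Agent.R401.Iso.exists_iso`); for an automorphism `σ`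
of `ℂ`, `σ ∘ e` is another one, so `σ s = s`; `s` is rational by `Pool.Agent.TH119.MX` (`exists_move`, `F = ⊥`). -/
def S_RAT : Prop := ∀ (ℓ : ℕ) [Fact ℓ.Prime] (t : ℚ_[ℓ]) (s : ℂ), (∀ e : ℚ_[ℓ] →+* ℂ, e t = s) →
  ∃ r : ℚ, t = (r : ℚ_[ℓ]) ∧ s = (r : ℂ)

/-- the vectors fixed by all the elements of the inertia group which act unipotently: `E` is a projector onto them -/
def UProj {K : Type} [Field K] [NumberField K] {ℓ n : ℕ} [Fact ℓ.Prime] (ρ : GK K →* GL (Fin n) ℚ_[ℓ])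
    (P : Ideal (OO K)) (E : Matrix (Fin n) (Fin n) ℚ_[ℓ]) : Prop :=
  (∀ x : Fin n → ℚ_[ℓ], ∀ τ, InInertia P τ → IsNilpotent (mt ρ τ - 1) → mt ρ τ *ᵥ (E *ᵥ x) = E *ᵥ x) ∧
  ∀ x : Fin n → ℚ_[ℓ], (∀ τ, InInertia P τ → IsNilpotent (mt ρ τ - 1) → mt ρ τ *ᵥ x = x) → E *ᵥ x = x

/-- **[TRK]** from [GEN], [LOGN], [LIN], [RAT]. Proof: `τ₀` from [GEN], `T = ρ(τ₀)`, `E` is a projector onto
`ker (T - 1)`: `(T - 1) E = 0` and `1 - E = R (T - 1)` for some `R` over `ℚ_ℓ` (the kernel of `T - 1` is in the kernel of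
`1 - E`). For every `e : ℚ_ℓ → ℂ` apply [LOGN] to `T.map e`, `Y = V(g)`, `Y' = V(g⁻¹) = A`, `Q = q^k`, and [LIN]
(`N = (T-1) u`, `1 - E = R u' N`; (i) is `WM2`, (ii) is `WM1`): `e (tr (V(g⁻¹) E)) = SW Q w (h.map)` for the rational
polynomial `h` of `WM1`, independent of `e` and `ℓ`. [RAT]. -/
def S_TRK : Prop := ∀ (K : Type) [Field K] [NumberField K] (n : ℕ)
  (V : ∀ (ℓ : ℕ) [Fact ℓ.Prime], GK K →* GL (Fin n) ℚ_[ℓ]),
  (∀ (ℓ : ℕ) [Fact ℓ.Prime], Continuous (V ℓ)) → ∀ (w : ℤ) (P : Ideal (OO K)), P.IsMaximal →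
  ∀ (q : ℕ) (σ : GK K), 2 ≤ q → FrobAt q P σ → WM1 V w P q → WM2 V w P q →
  ∀ (k : ℕ) (g : GK K), 0 < k → FrobAt (q ^ k) P g →
    ∃ r : ℚ, ∀ (ℓ : ℕ) [Fact ℓ.Prime], (ℓ : OO K) ∉ P → ∀ E, UProj (V ℓ) P E →
      (mt (V ℓ) g⁻¹ * E).trace = (r : ℚ_[ℓ])

/-- **[FIN]** from [MONO] and [TRK]. Proof: [MONO] for one `ℓ₀ ∉ P` gives `H` open normal, `V_ℓ₀(H ∩ I)` unipotent; by
`WM1` with `k = 0` (`FrobAt 1 P τ ↔ InInertia P τ`) `V_ℓ(H ∩ I)` is unipotent for all `ℓ ∉ P`. `M_ℓ` = the vectors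
fixed by `H ∩ I` = the vectors fixed by all unipotent elements of `I` (if `τ^r` fixes `x`, `τ` unipotent, then `τ` fixes
`x`), `E_ℓ` a projector onto `M_ℓ`. Then `e_ℓ = |I / H ∩ I|⁻¹ ∑_a V_ℓ(a) E_ℓ` is a projector onto the invariants of `I`
(compare `Tr10.ee`, `ee_mem`, `ee_fix`), and `tr (V_ℓ(σ⁻¹)^k e_ℓ) = |I / H ∩ I|⁻¹ ∑_a tr (V_ℓ(σ⁻¹^k a) E_ℓ)` is rational and
independent of `ℓ` for `k ≥ 1` by [TRK], as `FrobAt (q^k) P (a⁻¹ σ^k)`. End as in `Tr10.loc`. -/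
def S_FIN : Prop := ∀ (K : Type) [Field K] [NumberField K] (n : ℕ)
  (V : ∀ (ℓ : ℕ) [Fact ℓ.Prime], GK K →* GL (Fin n) ℚ_[ℓ]),
  (∀ (ℓ : ℕ) [Fact ℓ.Prime], Continuous (V ℓ)) → ∀ (w : ℤ) (P : Ideal (OO K)), P.IsMaximal →
  ∀ (q : ℕ) (σ : GK K), 2 ≤ q → FrobAt q P σ → WM1 V w P q → WM2 V w P q →
  ∀ (I : ∀ (ℓ : ℕ) [Fact ℓ.Prime], Submodule ℚ_[ℓ] (Fin n → ℚ_[ℓ])),
    (∀ (ℓ : ℕ) [Fact ℓ.Prime] (x : Fin n → ℚ_[ℓ]),
      x ∈ I ℓ ↔ ∀ τ, InInertia P τ → mt (V ℓ) τ *ᵥ x = x) →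
    ∃ f : ℚ[X], ∀ (ℓ : ℕ) [Fact ℓ.Prime], (ℓ : OO K) ∉ P →
      ∀ (r : ℕ) (b : Module.Basis (Fin r) ℚ_[ℓ] (I ℓ)) (A : Matrix (Fin r) (Fin r) ℚ_[ℓ]),
        (∀ j, mt (V ℓ) σ⁻¹ *ᵥ (b j : Fin n → ℚ_[ℓ]) = ∑ i, A i j • (b i : Fin n → ℚ_[ℓ])) →
        A.charpolyRev = f.map (Rat.castHom ℚ_[ℓ])

end Pool.Agent.Helper3K9.EW
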